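import Mathlib
import Pool.Agent.Results.MP_b296c2_gt.Riemannian

/-!
# Calculus with vector fields on a Riemannian manifold
-/

open Bundle Manifold ContDiff VectorField Filter
open scoped Topology

set_option linter.unusedSectionVars false
set_option linter.unusedVariables false
set_option linter.unusedSimpArgs false

noncomputable section

namespace Pool.Agent.L5helper93.Geo

open Pool.Agent.Results.MP_b296c2_gt.Riemannian

variable {E : Type*} [NormedAddCommGroup E] [NormedSpace ℝ E] [FiniteDimensional ℝ E]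
  {H : Type*} [TopologicalSpace H] {I : ModelWithCorners ℝ E H}
  {M : Type*} [TopologicalSpace M] [ChartedSpace H M] [IsManifold I ∞ M]

/-! ### Derivatives of functions -/

theorem fdiff {f : M → ℝ} (hf : CMDiff ∞ f) (x : M) : MDiffAt f x :=
  (hf x).mdifferentiableAt (by simp)

theorem d_congr {f g : M → ℝ} {p : M} (h : f =ᶠ[𝓝 p] g) : d% f p = d% g p := by
  have := h.mfderiv_eq (I := I) (I' := 𝓘(ℝ, ℝ))
  unfold mvfderiv
  exact this

theorem d_zero_of_eventually {f : M → ℝ} {p : M} {c : ℝ} (h : ∀ᶠ x in 𝓝 p, f x = c) :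
    d% f p = 0 := by
  rw [d_congr (g := fun _ => c) h, mvfderiv_const]

theorem d_add {f g : M → ℝ} (hf : CMDiff ∞ f) (hg : CMDiff ∞ g) (x : M)
    (v : TangentSpace I x) : d% (fun y => f y + g y) x v = d% f x v + d% g x v := by
  have h := mvfderiv_add (fdiff hf x) (fdiff hg x)
  have e : (fun y => f y + g y) = f + g := rfl
  rw [e, h]
  rfl

theorem d_sub {f g : M → ℝ} (hf : CMDiff ∞ f) (hg : CMDiff ∞ g) (x : M)
    (v : TangentSpace I x) : d% (fun y => f y - g y) x v = d% f x v - d% g x v := by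
  have h := mvfderiv_sub (fdiff hf x) (fdiff hg x)
  have e : (fun y => f y - g y) = f - g := rfl
  rw [e, h]
  rfl

theorem d_neg (f : M → ℝ) (x : M) (v : TangentSpace I x) :
    d% (fun y => - f y) x v = - d% f x v := by
  have h := mvfderiv_neg (I := I) (g := f) (x := x)
  have e : (fun y => - f y) = - f := rfl
  rw [e, h]
  rfl

theorem d_mul {f g : M → ℝ} (hf : CMDiff ∞ f) (hg : CMDiff ∞ g) (x : M)
    (v : TangentSpace I x) :
    d% (fun y => f y * g y) x v = f x * d% g x v + g x * d% f x v := by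
  have h := mvfderiv_mul (fdiff hf x) (fdiff hg x)
  have e : (fun y => f y * g y) = f * g := rfl
  rw [e, h]
  simp

theorem d_constmul {f : M → ℝ} (hf : CMDiff ∞ f) (c : ℝ) (x : M)
    (v : TangentSpace I x) : d% (fun y => c * f y) x v = c * d% f x v := by
  have hc : CMDiff ∞ (fun _ : M => c) := contMDiff_const
  rw [d_mul hc hf x v, mvfderiv_const]
  simp

theorem d_sum {κ : Type*} (s : Finset κ) {f : κ → M → ℝ} (hf : ∀ a ∈ s, CMDiff ∞ (f a))
    (x : M) (v : TangentSpace I x) :
    d% (fun y => ∑ a ∈ s, f a y) x v = ∑ a ∈ s, d% (f a) x v := by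
  classical
  induction s using Finset.induction_on with
  | empty =>
    simp only [Finset.sum_empty]
    rw [mvfderiv_const]
    rfl
  | insert a s ha ih =>
    simp only [Finset.sum_insert ha]
    rw [d_add (hf a (Finset.mem_insert_self a s))
      (contMDiff_finsetSum fun b hb => hf b (Finset.mem_insert_of_mem hb)) x v,
      ih fun b hb => hf b (Finset.mem_insert_of_mem hb)]

/-! ### Second derivative at a maximum -/

theorem second_le {f : M → ℝ} (hf : CMDiff ∞ f) [BoundarylessManifold I M]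
    {X : Π x : M, TangentSpace I x} (hX : CMDiff ∞ (T% X))
    (hXf : CMDiff ∞ (fun y => d% f y (X y))) {p : M} (hmax : IsLocalMax f p) :
    d% (fun y => d% f y (X y)) p (X p) ≤ 0 := by
  obtain ⟨γ, hγ0, hγ⟩ := exists_isMIntegralCurveAt_of_contMDiffAt_boundaryless (I := I)
    (v := X) (x₀ := p) 0 ((hX p).of_le (by exact_mod_cast le_top))
  have hcont : ContinuousAt γ 0 := by
    have := hγ.self_of_nhds
    exact this.continuousAt
  -- derivative of g ∘ γ
  have hder : ∀ {g : M → ℝ}, CMDiff ∞ g → ∀ᶠ t in 𝓝 (0 : ℝ),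
      HasDerivAt (g ∘ γ) (d% g (γ t) (X (γ t))) t := by
    intro g hg
    filter_upwards [hγ] with t ht
    have h1 : HasMFDerivAt I 𝓘(ℝ, ℝ) g (γ t) (mfderiv I 𝓘(ℝ, ℝ) g (γ t)) :=
      (fdiff hg (γ t)).hasMFDerivAt
    have h2 := h1.comp t ht
    let G : E →L[ℝ] ℝ := mfderiv I 𝓘(ℝ, ℝ) g (γ t)
    let u : E := X (γ t)
    have h3 : HasFDerivAt (g ∘ γ) (G.comp ((1 : ℝ →L[ℝ] ℝ).smulRight u)) t :=
      hasMFDerivAt_iff_hasFDerivAt.1 h2
    have h4 : HasDerivAt (g ∘ γ) (G.comp ((1 : ℝ →L[ℝ] ℝ).smulRight u) 1) t := h3.hasDerivAt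
    refine h4.congr_deriv ?_
    rw [ContinuousLinearMap.comp_apply, ContinuousLinearMap.smulRight_apply,
      ContinuousLinearMap.one_apply, one_smul]
    rfl
  have h1 := hder hf
  have h2 := hder hXf
  have hd : deriv (f ∘ γ) =ᶠ[𝓝 0] (fun y => d% f y (X y)) ∘ γ := by
    filter_upwards [h1] with t ht
    exact ht.deriv
  have hdd : deriv (deriv (f ∘ γ)) 0 = d% (fun y => d% f y (X y)) p (X p) := by
    rw [hd.deriv_eq, h2.self_of_nhds.deriv, hγ0]
  have hmaxγ : IsLocalMax (f ∘ γ) 0 := by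
    have h3 : Tendsto γ (𝓝 0) (𝓝 p) := by
      have := hcont.tendsto
      rwa [hγ0] at this
    have h4 := h3.eventually hmax
    unfold IsLocalMax IsMaxFilter
    filter_upwards [h4] with t ht
    simpa [hγ0] using ht
  have hd0 : deriv (f ∘ γ) 0 = 0 := hmaxγ.deriv_eq_zero
  by_contra hcon
  push Not at hcon
  rw [← hdd] at hcon
  have hmin := isLocalMin_of_deriv_deriv_pos hcon hd0 h1.self_of_nhds.continuousAt
  -- both local min and max: locally constant
  have hconst : (f ∘ γ) =ᶠ[𝓝 0] fun _ => (f ∘ γ) 0 := by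
    filter_upwards [hmin, hmaxγ] with t a b
    exact le_antisymm b a
  have hz : deriv (f ∘ γ) =ᶠ[𝓝 0] fun _ => 0 := by
    have := hconst.deriv
    filter_upwards [this] with t ht
    rw [ht]
    simp
  rw [hz.deriv_eq] at hcon
  simp at hcon

end Pool.Agent.L5helper93.Geo
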