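import Mathlib
import Pool.Agent.L5helper93.Geo.Basic

/-!
# Vector fields adapted at a point
-/

open Bundle Manifold ContDiff VectorField Filter
open scoped Topology

set_option linter.unusedSectionVars false
set_option linter.unusedVariables false
set_option linter.unusedSimpArgs false

noncomputable section

namespace Pool.Agent.L5helper93.Geo

open Pool.Agent.Results.MP_b296c2_gt.Riemannian

variable {E : Type*} [NormedAddCommGroup E] [NormedSpace ℝ E] [FiniteDimensional ℝ E]
  {H : Type*} [TopologicalSpace H] {I : ModelWithCorners ℝ E H}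
  {M : Type*} [TopologicalSpace M] [ChartedSpace H M] [IsManifold I ∞ M]

/-- A smooth function with prescribed differential at a point. -/
theorem exists_fun_diff [T2Space M] (p : M) (α : E →L[ℝ] ℝ) :
    ∃ f : M → ℝ, CMDiff ∞ f ∧ f p = 0 ∧ ∀ v : TangentSpace I p, d% f p v = α v := by
  obtain ⟨χ⟩ : Nonempty (SmoothBumpFunction I p) := inferInstance
  let g : M → ℝ := fun y => α (extChartAt I p y - extChartAt I p p)
  have hg : CMDiff[(chartAt H p).source] ∞ g := by
    have h1 : ContMDiffOn I 𝓘(ℝ, E) ∞ (extChartAt I p) (chartAt H p).source :=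
      contMDiffOn_extChartAt
    have h2 : ContMDiffOn I 𝓘(ℝ, E) ∞ (fun y => extChartAt I p y - extChartAt I p p)
        (chartAt H p).source := h1.sub contMDiffOn_const
    exact α.contMDiff.comp_contMDiffOn h2
  refine ⟨fun x => χ x • g x, χ.contMDiff_smul hg, ?_, ?_⟩
  · simp [g]
  · intro v
    have hc : (fun x => χ x • g x) =ᶠ[𝓝 p] g := by
      filter_upwards [χ.eventuallyEq_one] with x hx
      rw [hx]
      simp
    rw [d_congr hc]
    have h1 : MDiffAt (extChartAt I p) p := mdifferentiableAt_extChartAt (mem_chart_source H p)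
    have h2 : HasMFDerivAt I 𝓘(ℝ, E) (extChartAt I p) p (mfderiv I 𝓘(ℝ, E) (extChartAt I p) p) :=
      h1.hasMFDerivAt
    have h3 : HasMFDerivAt 𝓘(ℝ, E) 𝓘(ℝ, ℝ) (fun z : E => α (z - extChartAt I p p))
        (extChartAt I p p) α := by
      refine HasFDerivAt.hasMFDerivAt ?_
      exact α.hasFDerivAt.comp (extChartAt I p p)
        ((hasFDerivAt_id (extChartAt I p p)).sub_const (extChartAt I p p))
    have h4 := (h3.comp p h2).mfderiv
    have h5 : mfderiv I 𝓘(ℝ, ℝ) g p = α.comp (mfderiv I 𝓘(ℝ, E) (extChartAt I p) p) := h4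
    have h6 : (mfderiv I 𝓘(ℝ, E) (extChartAt I p) p) v = (v : E) := by
      rw [mfderiv_extChartAt_self]
      rfl
    unfold mvfderiv
    rw [ContinuousLinearMap.comp_apply, h5]
    exact congrArg α h6

theorem sm_add {X Y : Π x : M, TangentSpace I x} (hX : CMDiff ∞ (T% X)) (hY : CMDiff ∞ (T% Y)) :
    CMDiff ∞ (T% (fun y => X y + Y y)) := ContMDiff.add_section hX hY

theorem sm_sub {X Y : Π x : M, TangentSpace I x} (hX : CMDiff ∞ (T% X)) (hY : CMDiff ∞ (T% Y)) :
    CMDiff ∞ (T% (fun y => X y - Y y)) := ContMDiff.sub_section hX hY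

theorem sm_neg {X : Π x : M, TangentSpace I x} (hX : CMDiff ∞ (T% X)) :
    CMDiff ∞ (T% (fun y => - X y)) := ContMDiff.neg_section hX

theorem sm_smul {f : M → ℝ} {X : Π x : M, TangentSpace I x} (hf : CMDiff ∞ f)
    (hX : CMDiff ∞ (T% X)) : CMDiff ∞ (T% (fun y => f y • X y)) := ContMDiff.smul_section hf hX

theorem sm_sum {κ : Type*} (s : Finset κ) {X : κ → Π x : M, TangentSpace I x}
    (hX : ∀ a, CMDiff ∞ (T% (X a))) : CMDiff ∞ (T% (fun y => ∑ a ∈ s, X a y)) :=
  ContMDiff.sum_section fun a _ => hX a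

section Cov

variable (cov : CovariantDerivative I E (TangentSpace I : M → Type _))

theorem cov_add' {X Y : Π x : M, TangentSpace I x} (hX : CMDiff ∞ (T% X))
    (hY : CMDiff ∞ (T% Y)) (x : M) (v : TangentSpace I x) :
    cov (fun y => X y + Y y) x v = cov X x v + cov Y x v := by
  have h := cov.isCovariantDerivativeOnUniv.add (mdiffAt hX x) (mdiffAt hY x)
  exact congrArg (fun L => L v) h

theorem cov_smul' {f : M → ℝ} {X : Π x : M, TangentSpace I x} (hf : CMDiff ∞ f)
    (hX : CMDiff ∞ (T% X)) (x : M) (v : TangentSpace I x) :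
    cov (fun y => f y • X y) x v = f x • cov X x v + (d% f x v) • X x := by
  have h := cov.isCovariantDerivativeOnUniv.leibniz (mdiffAt hX x) (fdiff hf x)
  have h2 := congrArg (fun L => L v) h
  exact h2

theorem cov_neg' {X : Π x : M, TangentSpace I x} (hX : CMDiff ∞ (T% X)) (x : M)
    (v : TangentSpace I x) : cov (fun y => - X y) x v = - cov X x v := by
  have h := cov_smul' cov (f := fun _ : M => (-1 : ℝ)) contMDiff_const hX x v
  rw [mvfderiv_const] at h
  have e : (fun y => - X y) = fun y => (-1 : ℝ) • X y := by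
    ext y; simp
  rw [e, h]
  simp

theorem cov_sub' {X Y : Π x : M, TangentSpace I x} (hX : CMDiff ∞ (T% X))
    (hY : CMDiff ∞ (T% Y)) (x : M) (v : TangentSpace I x) :
    cov (fun y => X y - Y y) x v = cov X x v - cov Y x v := by
  have e : (fun y => X y - Y y) = fun y => X y + (- Y y) := by
    ext y; rw [sub_eq_add_neg]
  rw [e, cov_add' cov hX (sm_neg hY), cov_neg' cov hY, sub_eq_add_neg]

theorem cov_sum' {κ : Type*} (s : Finset κ) {X : κ → Π x : M, TangentSpace I x}
    (hX : ∀ a, CMDiff ∞ (T% (X a))) (x : M) (v : TangentSpace I x) :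
    cov (fun y => ∑ a ∈ s, X a y) x v = ∑ a ∈ s, cov (X a) x v := by
  classical
  induction s using Finset.induction_on with
  | empty =>
    simp only [Finset.sum_empty]
    have h := cov_smul' cov (f := fun _ : M => (0 : ℝ)) (X := fun y => (0 : TangentSpace I y))
      contMDiff_const (contMDiff_zeroSection ℝ (TangentSpace I : M → Type _)) x v
    rw [mvfderiv_const] at h
    simpa using h
  | insert a s ha ih =>
    simp only [Finset.sum_insert ha]
    rw [cov_add' cov (hX a) (sm_sum s hX), ih]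

theorem cov_congr' {X Y : Π x : M, TangentSpace I x} (hX : CMDiff ∞ (T% X))
    (hY : CMDiff ∞ (T% Y)) {p : M} (h : ∀ᶠ x in 𝓝 p, X x = Y x) : cov X p = cov Y p :=
  cov.isCovariantDerivativeOnUniv.congr_of_eventuallyEq (mdiffAt hX p) (mdiffAt hY p)
    Filter.univ_mem h

end Cov

section Riem

variable [RiemannianBundle (fun x : M => TangentSpace I x)]
  [IsContMDiffRiemannianBundle I ∞ E (fun x : M => TangentSpace I x)]
  [T2Space M] [SigmaCompactSpace M]
  {cov : CovariantDerivative I E (TangentSpace I : M → Type _)}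

/-- The product rule for the metric. -/
theorem dinner (h : IsMetric cov) {Y Z : Π x : M, TangentSpace I x}
    (hY : CMDiff ∞ (T% Y)) (hZ : CMDiff ∞ (T% Z)) (x : M) (v : TangentSpace I x) :
    d% (fun y => inner ℝ (Y y) (Z y)) x v =
      inner ℝ (cov Y x v) (Z x) + inner ℝ (Y x) (cov Z x v) := by
  obtain ⟨X, hX, rfl⟩ := exists_smooth_field (I := I) x v
  exact h hX hY hZ x

variable (cov) in
/-- A smooth vector field through `v` which is parallel at `p`. -/
theorem exists_adapted (p : M) (v : TangentSpace I p) :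
    ∃ Y : Π x : M, TangentSpace I x, CMDiff ∞ (T% Y) ∧ Y p = v ∧
      ∀ w : TangentSpace I p, cov Y p w = 0 := by
  obtain ⟨Y0, hY0, hp⟩ := exists_smooth_field (I := I) p v
  have hfd : FiniteDimensional ℝ (TangentSpace I p) := inferInstanceAs (FiniteDimensional ℝ E)
  let b := stdOrthonormalBasis ℝ (TangentSpace I p)
  have hs : ∀ j, ∃ s : Π x : M, TangentSpace I x, CMDiff ∞ (T% s) ∧ s p = b j := fun j =>
    exists_smooth_field (I := I) p (b j)
  choose s hs1 hs2 using hs
  have hf : ∀ j, ∃ f : M → ℝ, CMDiff ∞ f ∧ f p = 0 ∧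
      ∀ w : TangentSpace I p, d% f p w = inner ℝ (b j) (cov Y0 p w) := by
    intro j
    let L : E →ₗ[ℝ] ℝ :=
      { toFun := fun w => inner ℝ (b j) (cov Y0 p w)
        map_add' := fun w w' => by
          have : cov Y0 p (w + w' : E) = cov Y0 p w + cov Y0 p w' := map_add (cov Y0 p) w w'
          rw [this, inner_add_right]
        map_smul' := fun c w => by
          have : cov Y0 p (c • w : E) = c • cov Y0 p w := map_smul (cov Y0 p) c w
          rw [this, inner_smul_right]
          rfl }
    obtain ⟨f, h1, h2, h3⟩ := exists_fun_diff (I := I) p (LinearMap.toContinuousLinearMap L)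
    exact ⟨f, h1, h2, fun w => h3 w⟩
  choose f hf1 hf2 hf3 using hf
  refine ⟨fun y => Y0 y - ∑ j, f j y • s j y, sm_sub hY0 (sm_sum _ fun j =>
    sm_smul (hf1 j) (hs1 j)), ?_, ?_⟩
  · simp [hf2, hp]
  · intro w
    rw [cov_sub' cov hY0 (sm_sum _ fun j => sm_smul (hf1 j) (hs1 j)),
      cov_sum' cov _ fun j => sm_smul (hf1 j) (hs1 j)]
    have e : ∀ j, cov (fun y => f j y • s j y) p w =
        (inner ℝ (b j) (cov Y0 p w) : ℝ) • b j := by
      intro j
      rw [cov_smul' cov (hf1 j) (hs1 j), hf2, hf3, hs2]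
      simp
    simp only [e]
    have h2 := b.sum_repr (cov Y0 p w)
    simp only [b.repr_apply_apply] at h2
    rw [h2, sub_self]

end Riem

end Pool.Agent.L5helper93.Geo
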