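import Mathlib
import Pool.Agent.L5helper93.Geo.Fields

/-!
# Local orthonormal frames which are parallel at a point
-/

open Bundle Manifold ContDiff VectorField Filter
open scoped Topology

set_option linter.unusedSectionVars false
set_option linter.unusedVariables false
set_option linter.unusedSimpArgs false

noncomputable section

namespace Pool.Agent.L5helper93.Geo

open Pool.Agent.Results.MP_b296c2_gt.Riemannian

theorem exists_phi : ∃ φ : ℝ → ℝ, ContDiff ℝ ∞ φ ∧ φ 1 = 1 ∧
    ∀ᶠ s in 𝓝 (1 : ℝ), φ s * φ s * s = 1 := by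
  let χ : ContDiffBump (1 : ℝ) := ⟨1 / 4, 1 / 2, by norm_num, by norm_num⟩
  let g : ℝ → ℝ := fun s => χ s * s + (1 - χ s)
  have hg : ContDiff ℝ ∞ g := (χ.contDiff.mul contDiff_id).add (contDiff_const.sub χ.contDiff)
  have hpos : ∀ s, 0 < g s := by
    intro s
    by_cases hs : s ∈ Metric.ball (1 : ℝ) (1 / 2)
    · have h1 : 0 < χ s := χ.pos_of_mem_ball hs
      have h2 : χ s ≤ 1 := χ.le_one
      have h3 : 0 < s := by
        rw [Metric.mem_ball, Real.dist_eq, abs_lt] at hs
        linarith [hs.1]
      have := mul_pos h1 h3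
      simp only [g]
      linarith
    · have h1 : χ s = 0 := χ.zero_of_le_dist (by
        rw [Metric.mem_ball] at hs
        push Not at hs
        exact hs)
      simp only [g, h1]
      norm_num
  refine ⟨fun s => (Real.sqrt (g s))⁻¹, ?_, ?_, ?_⟩
  · exact (hg.sqrt fun s => (hpos s).ne').inv fun s => (Real.sqrt_pos.2 (hpos s)).ne'
  · have h1 : χ 1 = 1 := χ.one_of_mem_closedBall (Metric.mem_closedBall_self (by norm_num))
    simp [g, h1]
  · filter_upwards [χ.eventuallyEq_one] with s hs
    have h1 : g s = s := by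
      simp only [g, hs]
      simp
    have h2 := hpos s
    rw [h1] at h2 ⊢
    have h3 : Real.sqrt s ≠ 0 := (Real.sqrt_pos.2 h2).ne'
    have h4 : Real.sqrt s * Real.sqrt s = s := Real.mul_self_sqrt h2.le
    rw [← mul_inv, h4]
    exact inv_mul_cancel₀ h2.ne'

variable {E : Type*} [NormedAddCommGroup E] [NormedSpace ℝ E] [FiniteDimensional ℝ E]
  {H : Type*} [TopologicalSpace H] {I : ModelWithCorners ℝ E H}
  {M : Type*} [TopologicalSpace M] [ChartedSpace H M] [IsManifold I ∞ M]

theorem d_comp_zero {φ : ℝ → ℝ} (hφ : ContDiff ℝ ∞ φ) {f : M → ℝ} (hf : CMDiff ∞ f) {p : M}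
    {v : TangentSpace I p} (h : d% f p v = 0) : d% (fun y => φ (f y)) p v = 0 := by
  have h1 : MDiffAt f p := fdiff hf p
  have h2 : MDiffAt φ (f p) := (hφ.contMDiff.mdifferentiable (by simp)) (f p)
  have h3 := mvfderiv_comp_apply (g := φ) (f := f) p h2 h1 v
  have e : (fun y => φ (f y)) = φ ∘ f := rfl
  rw [e, h3]
  have h4 : (mfderiv I 𝓘(ℝ, ℝ) f p) v = 0 := h
  rw [h4]
  exact map_zero _

section Riem

variable [RiemannianBundle (fun x : M => TangentSpace I x)]
  [IsContMDiffRiemannianBundle I ∞ E (fun x : M => TangentSpace I x)]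
  [T2Space M] [SigmaCompactSpace M]
  {cov : CovariantDerivative I E (TangentSpace I : M → Type _)}

theorem exists_on_frame (h : IsMetric cov) (p : M) : ∀ (n : ℕ) (v : Fin n → TangentSpace I p),
    (∀ i j, inner ℝ (v i) (v j) = if i = j then (1 : ℝ) else 0) →
    ∃ e : Fin n → Π x : M, TangentSpace I x, (∀ i, CMDiff ∞ (T% (e i))) ∧ (∀ i, e i p = v i) ∧
      (∀ i (w : TangentSpace I p), cov (e i) p w = 0) ∧
      ∀ᶠ x in 𝓝 p, ∀ i j, inner ℝ (e i x) (e j x) = if i = j then (1 : ℝ) else 0 := by
  intro n
  induction n with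
  | zero =>
    intro v hv
    exact ⟨fun i => i.elim0, fun i => i.elim0, fun i => i.elim0, fun i => i.elim0,
      Filter.Eventually.of_forall fun x i => i.elim0⟩
  | succ n ih =>
    intro v hv
    obtain ⟨e, he1, he2, he3, he4⟩ := ih (fun i => v i.castSucc) (fun i j => by
      rw [hv]
      by_cases hij : i = j
      · simp [hij]
      · simp [hij])
    obtain ⟨Y, hY1, hY2, hY3⟩ := exists_adapted cov p (v (Fin.last n))
    have hin : ∀ i, CMDiff ∞ (fun y => inner ℝ (Y y) (e i y)) := fun i => smooth_inner hY1 (he1 i)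
    let Z : Π x : M, TangentSpace I x := fun y => Y y - ∑ i, inner ℝ (Y y) (e i y) • e i y
    have hZ1 : CMDiff ∞ (T% Z) := sm_sub hY1 (sm_sum _ fun i => sm_smul (hin i) (he1 i))
    have hYp : ∀ i, inner ℝ (Y p) (e i p) = (0 : ℝ) := by
      intro i
      rw [hY2, he2, hv, if_neg]
      exact (Fin.castSucc_lt_last i).ne'
    have hZ2 : Z p = v (Fin.last n) := by
      simp only [Z, hYp, zero_smul, Finset.sum_const_zero, sub_zero]
      exact hY2
    have hZ3 : ∀ w : TangentSpace I p, cov Z p w = 0 := by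
      intro w
      simp only [Z]
      rw [cov_sub' cov hY1 (sm_sum _ fun i => sm_smul (hin i) (he1 i)),
        cov_sum' cov _ fun i => sm_smul (hin i) (he1 i), hY3, zero_sub, neg_eq_zero]
      refine Finset.sum_eq_zero fun i _ => ?_
      rw [cov_smul' cov (hin i) (he1 i), dinner h hY1 (he1 i), hY3, he3, hYp]
      simp
    have hZ4 : ∀ᶠ x in 𝓝 p, ∀ j, inner ℝ (Z x) (e j x) = (0 : ℝ) := by
      filter_upwards [he4] with x hx j
      simp only [Z]
      rw [inner_sub_left, sum_inner]
      have : ∀ i, inner ℝ (inner ℝ (Y x) (e i x) • e i x) (e j x) =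
          (inner ℝ (Y x) (e i x) : ℝ) * (if j = i then (1 : ℝ) else 0) := by
        intro i
        rw [real_inner_smul_left, hx]
        by_cases hij : i = j
        · simp [hij]
        · simp [hij, Ne.symm hij]
      simp only [this]
      simp
    have hq : CMDiff ∞ (fun y => inner ℝ (Z y) (Z y)) := smooth_inner hZ1 hZ1
    have hq1 : inner ℝ (Z p) (Z p) = (1 : ℝ) := by
      rw [hZ2, hv]; simp
    obtain ⟨φ, hφ1, hφ2, hφ3⟩ := exists_phi
    have hφq : CMDiff ∞ (fun y => φ (inner ℝ (Z y) (Z y))) := hφ1.contMDiff.comp hq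
    let W : Π x : M, TangentSpace I x := fun y => φ (inner ℝ (Z y) (Z y)) • Z y
    have hW1 : CMDiff ∞ (T% W) := sm_smul hφq hZ1
    have hW2 : W p = v (Fin.last n) := by
      simp only [W]
      rw [hq1, hφ2, one_smul, hZ2]
    have hdq : ∀ w : TangentSpace I p, d% (fun y => inner ℝ (Z y) (Z y)) p w = 0 := by
      intro w
      rw [dinner h hZ1 hZ1, hZ3]
      simp
    have hW3 : ∀ w : TangentSpace I p, cov W p w = 0 := by
      intro w
      simp only [W]
      rw [cov_smul' cov hφq hZ1, hZ3, d_comp_zero hφ1 hq (hdq w)]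
      simp
    have hW4 : ∀ᶠ x in 𝓝 p, (∀ j, inner ℝ (W x) (e j x) = (0 : ℝ)) ∧
        inner ℝ (W x) (W x) = (1 : ℝ) := by
      have hc : Tendsto (fun y => inner ℝ (Z y) (Z y)) (𝓝 p) (𝓝 (1 : ℝ)) := by
        have := hq.continuous.continuousAt (x := p)
        unfold ContinuousAt at this
        beta_reduce at this
        rwa [hq1] at this
      filter_upwards [hZ4, hc.eventually hφ3] with x h1 h2
      refine ⟨fun j => ?_, ?_⟩
      · simp only [W]
        rw [real_inner_smul_left, h1, mul_zero]
      · simp only [W]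
        rw [real_inner_smul_left, real_inner_smul_right, ← mul_assoc]
        exact h2
    refine ⟨Fin.lastCases W e, ?_, ?_, ?_, ?_⟩
    · intro i
      refine Fin.lastCases ?_ (fun i => ?_) i
      · simpa using hW1
      · simpa using he1 i
    · intro i
      refine Fin.lastCases ?_ (fun i => ?_) i
      · simpa using hW2
      · simpa using he2 i
    · intro i
      refine Fin.lastCases ?_ (fun i => ?_) i
      · simpa using hW3
      · simpa using he3 i
    · filter_upwards [he4, hW4] with x h1 h2 i j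
      refine Fin.lastCases ?_ (fun i => ?_) i <;> refine Fin.lastCases ?_ (fun j => ?_) j
      · simp only [Fin.lastCases_last, if_true]
        exact h2.2
      · simp only [Fin.lastCases_last, Fin.lastCases_castSucc]
        rw [h2.1 j, if_neg]
        exact (Fin.castSucc_lt_last j).ne'
      · simp only [Fin.lastCases_last, Fin.lastCases_castSucc]
        rw [real_inner_comm, h2.1 i, if_neg]
        exact (Fin.castSucc_lt_last i).ne
      · simp only [Fin.lastCases_castSucc, h1 i j]
        by_cases hij : i = j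
        · simp [hij]
        · simp [hij]

end Riem

end Pool.Agent.L5helper93.Geo
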