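import Mathlib
import Pool.Agent.L5helper93.Geo.Frame

/-!
# First derivatives of the curvature tensor
-/

open Bundle Manifold ContDiff VectorField Filter
open scoped Topology

set_option linter.unusedSectionVars false
set_option linter.unusedVariables false
set_option linter.unusedSimpArgs false

noncomputable section

namespace Pool.Agent.L5helper93.Geo

open Pool.Agent.Results.MP_b296c2_gt.Riemannian

variable {E : Type*} [NormedAddCommGroup E] [NormedSpace ℝ E] [FiniteDimensional ℝ E]
  {H : Type*} [TopologicalSpace H] {I : ModelWithCorners ℝ E H}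
  {M : Type*} [TopologicalSpace M] [ChartedSpace H M] [IsManifold I ∞ M]
  [RiemannianBundle (fun x : M => TangentSpace I x)]
  [IsContMDiffRiemannianBundle I ∞ E (fun x : M => TangentSpace I x)]
  [T2Space M] [SigmaCompactSpace M] [Nontrivial E]
  {cov : CovariantDerivative I E (TangentSpace I : M → Type _)}

/-- The curvature applied to vector fields. -/
def RF (R : CurvField I M) (X Y Z : Π x : M, TangentSpace I x) : Π x : M, TangentSpace I x :=
  fun x => R x (X x) (Y x) (Z x)

/-- The covariant derivative of the curvature tensor, evaluated on vector fields. -/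
def DR (cov : CovariantDerivative I E (TangentSpace I : M → Type _)) (R : CurvField I M)
    (V X Y Z : Π x : M, TangentSpace I x) : Π x : M, TangentSpace I x :=
  fun x => cov (RF R X Y Z) x (V x) - R x (cov X x (V x)) (Y x) (Z x) -
    R x (X x) (cov Y x (V x)) (Z x) - R x (X x) (Y x) (cov Z x (V x))

section

variable (h : IsLeviCivita cov) {R : CurvField I M} (hR : IsRiemannTensor cov R)
  {V X Y Z W U : Π x : M, TangentSpace I x} (hV : CMDiff ∞ (T% V)) (hX : CMDiff ∞ (T% X))
  (hY : CMDiff ∞ (T% Y)) (hZ : CMDiff ∞ (T% Z)) (hW : CMDiff ∞ (T% W)) (hU : CMDiff ∞ (T% U))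

include h in
theorem sm_nabla (hX : CMDiff ∞ (T% X)) (hY : CMDiff ∞ (T% Y)) :
    CMDiff ∞ (T% (nabla cov X Y)) := by
  have := h.smooth
  exact smooth_nabla cov hX hY

include h hR hX hY hZ in
theorem RF_eq : RF R X Y Z = fun x => nabla cov X (nabla cov Y Z) x -
    nabla cov Y (nabla cov X Z) x - nabla cov (mlieBracket I X Y) Z x := by
  ext1 x
  exact hR hX hY hZ x

include h hR hX hY hZ in
theorem sm_RF : CMDiff ∞ (T% (RF R X Y Z)) := by
  rw [RF_eq h hR hX hY hZ]
  exact sm_sub (sm_sub (sm_nabla h hX (sm_nabla h hY hZ)) (sm_nabla h hY (sm_nabla h hX hZ)))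
    (sm_nabla h (smooth_bracket hX hY) hZ)

theorem DR_eq : DR cov R V X Y Z = fun x => nabla cov V (RF R X Y Z) x -
    RF R (nabla cov V X) Y Z x - RF R X (nabla cov V Y) Z x - RF R X Y (nabla cov V Z) x := rfl

include h hR hV hX hY hZ in
theorem sm_DR : CMDiff ∞ (T% (DR cov R V X Y Z)) := by
  rw [DR_eq]
  exact sm_sub (sm_sub (sm_sub (sm_nabla h hV (sm_RF h hR hX hY hZ))
    (sm_RF h hR (sm_nabla h hV hX) hY hZ)) (sm_RF h hR hX (sm_nabla h hV hY) hZ))
    (sm_RF h hR hX hY (sm_nabla h hV hZ))

/-- The torsion-free identity. -/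
theorem tf (h : IsLeviCivita cov) (hX : CMDiff ∞ (T% X)) (hY : CMDiff ∞ (T% Y)) (x : M) :
    cov Y x (X x) - cov X x (Y x) = mlieBracket I X Y x := h.torsionFree hX hY x

include h hR hX hY hZ hW in
/-- The second Bianchi identity. -/
theorem bianchi2 (x : M) : DR cov R X Y Z W x + DR cov R Y Z X W x + DR cov R Z X Y W x = 0 := by
  have hmin : IsManifold I (minSmoothness ℝ 3) M := by
    simp only [minSmoothness_of_isRCLikeNormedField]
    infer_instance
  have hc := isCurvatureTensor h hR x
  -- the third order part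
  have key : ∀ {A B C : Π x : M, TangentSpace I x}, CMDiff ∞ (T% A) → CMDiff ∞ (T% B) →
      CMDiff ∞ (T% C) → cov (RF R B C W) x (A x) - R x (B x) (C x) (cov W x (A x)) =
      (cov (nabla cov B (nabla cov C W)) x (A x) - cov (nabla cov C (nabla cov B W)) x (A x) -
        cov (nabla cov C (nabla cov A W)) x (B x) + cov (nabla cov B (nabla cov A W)) x (C x)) -
      R x (A x) (mlieBracket I B C x) (W x) - cov W x (mlieBracket I A (mlieBracket I B C) x) := by
    intro A B C hA hB hC
    have e1 : cov (RF R B C W) x (A x) = cov (nabla cov B (nabla cov C W)) x (A x) -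
        cov (nabla cov C (nabla cov B W)) x (A x) -
        cov (nabla cov (mlieBracket I B C) W) x (A x) := by
      rw [RF_eq h hR hB hC hW]
      rw [cov_sub' cov (sm_sub (sm_nabla h hB (sm_nabla h hC hW))
        (sm_nabla h hC (sm_nabla h hB hW))) (sm_nabla h (smooth_bracket hB hC) hW),
        cov_sub' cov (sm_nabla h hB (sm_nabla h hC hW)) (sm_nabla h hC (sm_nabla h hB hW))]
    have e2 : R x (B x) (C x) (cov W x (A x)) = cov (nabla cov C (nabla cov A W)) x (B x) -
        cov (nabla cov B (nabla cov A W)) x (C x) - cov (nabla cov A W) x (mlieBracket I B C x) :=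
      hR hB hC (sm_nabla h hA hW) x
    have e3 : R x (A x) (mlieBracket I B C x) (W x) =
        cov (nabla cov (mlieBracket I B C) W) x (A x) -
        cov (nabla cov A W) x (mlieBracket I B C x) -
        cov W x (mlieBracket I A (mlieBracket I B C) x) :=
      hR hA (smooth_bracket hB hC) hW x
    rw [e1, e2, e3]
    module
  have k1 := key hX hY hZ
  have k2 := key hY hZ hX
  have k3 := key hZ hX hY
  -- torsion
  have t1 := tf h hX hY x
  have t2 := tf h hY hZ x
  have t3 := tf h hZ hX x
  -- Jacobi
  have hJ := leibniz_identity_mlieBracket_apply (I := I) (U := X) (V := Y) (W := Z) (x := x)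
    ((hX x).of_le (by simpa using two_le_infty)) ((hY x).of_le (by simpa using two_le_infty))
    ((hZ x).of_le (by simpa using two_le_infty))
  have g1 : mlieBracket I Y (mlieBracket I Z X) x = - mlieBracket I Y (mlieBracket I X Z) x := by
    rw [mlieBracket_swap (V := Z) (W := X)]
    have := mlieBracket_const_smul_right (I := I) (V := Y) (W := mlieBracket I X Z) (x := x)
      (c := (-1 : ℝ)) (mdiffAt (smooth_bracket hX hZ) x)
    simpa using this
  have g2 : mlieBracket I Z (mlieBracket I X Y) x = - mlieBracket I (mlieBracket I X Y) Z x := by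
    rw [mlieBracket_swap_apply]
  have hjac : cov W x (mlieBracket I X (mlieBracket I Y Z) x) +
      cov W x (mlieBracket I Y (mlieBracket I Z X) x) +
      cov W x (mlieBracket I Z (mlieBracket I X Y) x) = 0 := by
    rw [← map_add, ← map_add, g1, g2, hJ]
    have : mlieBracket I (mlieBracket I X Y) Z x + mlieBracket I Y (mlieBracket I X Z) x +
      - mlieBracket I Y (mlieBracket I X Z) x + - mlieBracket I (mlieBracket I X Y) Z x = 0 := by
      abel
    rw [this, map_zero]
  have r1 : R x (cov Y x (X x)) (Z x) (W x) - R x (cov X x (Y x)) (Z x) (W x) =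
      R x (mlieBracket I X Y x) (Z x) (W x) := by
    rw [← t1, map_sub]; rfl
  have r2 : R x (cov Z x (Y x)) (X x) (W x) - R x (cov Y x (Z x)) (X x) (W x) =
      R x (mlieBracket I Y Z x) (X x) (W x) := by
    rw [← t2, map_sub]; rfl
  have r3 : R x (cov X x (Z x)) (Y x) (W x) - R x (cov Z x (X x)) (Y x) (W x) =
      R x (mlieBracket I Z X x) (Y x) (W x) := by
    rw [← t3, map_sub]; rfl
  have a1 := hc.antisymm (Y x) (cov Z x (X x)) (W x)
  have a2 := hc.antisymm (Z x) (cov X x (Y x)) (W x)
  have a3 := hc.antisymm (X x) (cov Y x (Z x)) (W x)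
  have b1 := hc.antisymm (X x) (mlieBracket I Y Z x) (W x)
  have b2 := hc.antisymm (Y x) (mlieBracket I Z X x) (W x)
  have b3 := hc.antisymm (Z x) (mlieBracket I X Y x) (W x)
  have d1 : DR cov R X Y Z W x = (cov (RF R Y Z W) x (X x) - R x (Y x) (Z x) (cov W x (X x))) -
      R x (cov Y x (X x)) (Z x) (W x) - R x (Y x) (cov Z x (X x)) (W x) := by
    unfold DR; abel
  have d2 : DR cov R Y Z X W x = (cov (RF R Z X W) x (Y x) - R x (Z x) (X x) (cov W x (Y x))) -
      R x (cov Z x (Y x)) (X x) (W x) - R x (Z x) (cov X x (Y x)) (W x) := by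
    unfold DR; abel
  have d3 : DR cov R Z X Y W x = (cov (RF R X Y W) x (Z x) - R x (X x) (Y x) (cov W x (Z x))) -
      R x (cov X x (Z x)) (Y x) (W x) - R x (X x) (cov Y x (Z x)) (W x) := by
    unfold DR; abel
  rw [d1, d2, d3, k1, k2, k3, a1, a2, a3, b1, b2, b3, ← r1, ← r2, ← r3]
  have hj2 := hjac
  rw [add_assoc, add_eq_zero_iff_eq_neg] at hj2
  rw [hj2]
  abel

end

end Pool.Agent.L5helper93.Geo
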