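import Mathlib
import Pool.Agent.L5helper93.Geo.Curv

/-!
# Second derivatives of the curvature tensor in an adapted frame
-/

open Bundle Manifold ContDiff VectorField Filter
open scoped Topology

set_option linter.unusedSectionVars false
set_option linter.unusedVariables false
set_option linter.unusedSimpArgs false

noncomputable section

namespace Pool.Agent.L5helper93.Geo

open Pool.Agent.Results.MP_b296c2_gt.Riemannian

variable {E : Type*} [NormedAddCommGroup E] [NormedSpace ℝ E] [FiniteDimensional ℝ E]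
  {H : Type*} [TopologicalSpace H] {I : ModelWithCorners ℝ E H}
  {M : Type*} [TopologicalSpace M] [ChartedSpace H M] [IsManifold I ∞ M]
  [RiemannianBundle (fun x : M => TangentSpace I x)]
  [IsContMDiffRiemannianBundle I ∞ E (fun x : M => TangentSpace I x)]
  [T2Space M] [SigmaCompactSpace M] [Nontrivial E]
  {cov : CovariantDerivative I E (TangentSpace I : M → Type _)}

/-- The curvature tensor with four arguments, on vector fields. -/
def TF (R : CurvField I M) (X Y Z W : Π x : M, TangentSpace I x) : M → ℝ :=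
  fun x => inner ℝ (RF R X Y Z x) (W x)

/-- The covariant derivative of the curvature tensor with four arguments, on vector fields. -/
def GF (cov : CovariantDerivative I E (TangentSpace I : M → Type _)) (R : CurvField I M)
    (V X Y Z W : Π x : M, TangentSpace I x) : M → ℝ :=
  fun x => inner ℝ (DR cov R V X Y Z x) (W x)

section

variable (h : IsLeviCivita cov) {R : CurvField I M} (hR : IsRiemannTensor cov R)
  {V X Y Z W U : Π x : M, TangentSpace I x} (hV : CMDiff ∞ (T% V)) (hX : CMDiff ∞ (T% X))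
  (hY : CMDiff ∞ (T% Y)) (hZ : CMDiff ∞ (T% Z)) (hW : CMDiff ∞ (T% W)) (hU : CMDiff ∞ (T% U))

include h hR

include hX hY hZ hW in
theorem sm_TF : CMDiff ∞ (TF R X Y Z W) := smooth_inner (sm_RF h hR hX hY hZ) hW

include hV hX hY hZ hW in
theorem sm_GF : CMDiff ∞ (GF cov R V X Y Z W) := smooth_inner (sm_DR h hR hV hX hY hZ) hW

theorem TF_a1 (X Y Z W : Π x : M, TangentSpace I x) (x : M) :
    TF R X Y Z W x = - TF R Y X Z W x := by
  have hc := isCurvatureTensor h hR x
  unfold TF RF
  rw [hc.antisymm, inner_neg_left]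

theorem TF_a2 (X Y Z W : Π x : M, TangentSpace I x) (x : M) :
    TF R X Y Z W x = - TF R X Y W Z x := by
  have hc := isCurvatureTensor h hR x
  unfold TF RF
  rw [hc.skew, real_inner_comm]

theorem TF_bi (X Y Z W : Π x : M, TangentSpace I x) (x : M) :
    TF R X Y Z W x + TF R Y Z X W x + TF R Z X Y W x = 0 := by
  have hc := isCurvatureTensor h hR x
  unfold TF RF
  rw [← inner_add_left, ← inner_add_left, hc.bianchi, inner_zero_left]

theorem TF_pair (X Y Z W : Π x : M, TangentSpace I x) (x : M) :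
    TF R X Y Z W x = TF R Z W X Y x := by
  have hc := isCurvatureTensor h hR x
  unfold TF RF
  exact hc.pair _ _ _ _

include hX hY hZ hW in
theorem dTF (x : M) (v : TangentSpace I x) : d% (TF R X Y Z W) x v =
    inner ℝ (cov (RF R X Y Z) x v) (W x) + inner ℝ (R x (X x) (Y x) (Z x)) (cov W x v) :=
  dinner h.metric (sm_RF h hR hX hY hZ) hW x v

include hX hY hZ hW in
theorem dTF_field (x : M) : d% (TF R X Y Z W) x (V x) = GF cov R V X Y Z W x +
    TF R (nabla cov V X) Y Z W x + TF R X (nabla cov V Y) Z W x + TF R X Y (nabla cov V Z) W x +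
    TF R X Y Z (nabla cov V W) x := by
  rw [dTF h hR hX hY hZ hW]
  unfold GF TF RF DR nabla
  simp only [inner_sub_left]
  unfold RF
  ring

include hX hY hZ hW

theorem dTF_zero4 {p : M} (hp : W p = 0) (v : TangentSpace I p) :
    d% (TF R X Y Z W) p v = inner ℝ (R p (X p) (Y p) (Z p)) (cov W p v) := by
  rw [dTF h hR hX hY hZ hW, hp, inner_zero_right, zero_add]

theorem dTF_zero3 {p : M} (hp : Z p = 0) (v : TangentSpace I p) :
    d% (TF R X Y Z W) p v = inner ℝ (R p (X p) (Y p) (cov Z p v)) (W p) := by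
  have e : TF R X Y Z W = fun x => - TF R X Y W Z x := by
    ext x; exact TF_a2 h hR X Y Z W x
  have hc := isCurvatureTensor h hR p
  rw [e, d_neg, dTF_zero4 h hR hX hY hW hZ hp, hc.skew, real_inner_comm]
  ring

theorem dTF_zero1 {p : M} (hp : X p = 0) (v : TangentSpace I p) :
    d% (TF R X Y Z W) p v = inner ℝ (R p (cov X p v) (Y p) (Z p)) (W p) := by
  have e : TF R X Y Z W = TF R Z W X Y := by
    ext x; exact TF_pair h hR X Y Z W x
  have hc := isCurvatureTensor h hR p
  rw [e, dTF_zero3 h hR hZ hW hX hY hp]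
  exact hc.pair _ _ _ _

theorem dTF_zero2 {p : M} (hp : Y p = 0) (v : TangentSpace I p) :
    d% (TF R X Y Z W) p v = inner ℝ (R p (X p) (cov Y p v) (Z p)) (W p) := by
  have e : TF R X Y Z W = TF R Z W X Y := by
    ext x; exact TF_pair h hR X Y Z W x
  have hc := isCurvatureTensor h hR p
  rw [e, dTF_zero4 h hR hZ hW hX hY hp]
  exact hc.pair _ _ _ _

end

section

variable (h : IsLeviCivita cov) {R : CurvField I M} (hR : IsRiemannTensor cov R)
  {V X Y Z W U : Π x : M, TangentSpace I x} (hV : CMDiff ∞ (T% V)) (hX : CMDiff ∞ (T% X))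
  (hY : CMDiff ∞ (T% Y)) (hZ : CMDiff ∞ (T% Z)) (hW : CMDiff ∞ (T% W)) (hU : CMDiff ∞ (T% U))

include h hR hV hX hY hZ hW

theorem GF_a1 (x : M) : GF cov R V X Y Z W x = - GF cov R V Y X Z W x := by
  have e1 := dTF_field (V := V) h hR hX hY hZ hW x
  have e2 := dTF_field (V := V) h hR hY hX hZ hW x
  have e : TF R X Y Z W = fun x => - TF R Y X Z W x := by
    ext x; exact TF_a1 h hR X Y Z W x
  rw [e, d_neg, e2] at e1
  have f1 := TF_a1 h hR (nabla cov V X) Y Z W x
  have f2 := TF_a1 h hR X (nabla cov V Y) Z W x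
  have f3 := TF_a1 h hR X Y (nabla cov V Z) W x
  have f4 := TF_a1 h hR X Y Z (nabla cov V W) x
  linarith

theorem GF_a2 (x : M) : GF cov R V X Y Z W x = - GF cov R V X Y W Z x := by
  have e1 := dTF_field (V := V) h hR hX hY hZ hW x
  have e2 := dTF_field (V := V) h hR hX hY hW hZ x
  have e : TF R X Y Z W = fun x => - TF R X Y W Z x := by
    ext x; exact TF_a2 h hR X Y Z W x
  rw [e, d_neg, e2] at e1
  have f1 := TF_a2 h hR (nabla cov V X) Y Z W x
  have f2 := TF_a2 h hR X (nabla cov V Y) Z W x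
  have f3 := TF_a2 h hR X Y (nabla cov V Z) W x
  have f4 := TF_a2 h hR X Y Z (nabla cov V W) x
  linarith

theorem GF_bi (x : M) :
    GF cov R V X Y Z W x + GF cov R V Y Z X W x + GF cov R V Z X Y W x = 0 := by
  have e1 := dTF_field (V := V) h hR hX hY hZ hW x
  have e2 := dTF_field (V := V) h hR hY hZ hX hW x
  have e3 := dTF_field (V := V) h hR hZ hX hY hW x
  have hs : (fun x => (TF R X Y Z W x + TF R Y Z X W x) + TF R Z X Y W x) = fun _ => (0 : ℝ) := by
    ext x; exact TF_bi h hR X Y Z W x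
  have hd : d% (fun x => (TF R X Y Z W x + TF R Y Z X W x) + TF R Z X Y W x) x (V x) = 0 := by
    rw [hs, mvfderiv_const]
    rfl
  have hq : CMDiff ∞ (fun x => TF R X Y Z W x + TF R Y Z X W x) :=
    (sm_TF h hR hX hY hZ hW).add (sm_TF h hR hY hZ hX hW)
  rw [d_add hq (sm_TF h hR hZ hX hY hW),
    d_add (sm_TF h hR hX hY hZ hW) (sm_TF h hR hY hZ hX hW), e1, e2, e3] at hd
  have f1 := TF_bi h hR (nabla cov V X) Y Z W x
  have f2 := TF_bi h hR X (nabla cov V Y) Z W x
  have f3 := TF_bi h hR X Y (nabla cov V Z) W x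
  have f4 := TF_bi h hR X Y Z (nabla cov V W) x
  linarith

include hU in
theorem GF_b2 (x : M) :
    GF cov R V X Y Z W x + GF cov R X Y V Z W x + GF cov R Y V X Z W x = 0 := by
  have := bianchi2 h hR hV hX hY hZ x
  unfold GF
  rw [← inner_add_left, ← inner_add_left, this, inner_zero_left]

end

end Pool.Agent.L5helper93.Geo
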