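import Mathlib
import Pool.Agent.L5helper93.Geo.Second
import Pool.Agent.L5helper93.Ein.Lap

/-!
# Second derivatives of the curvature components in an adapted frame
-/

open Bundle Manifold ContDiff VectorField Filter
open scoped Topology

set_option linter.unusedSectionVars false
set_option linter.unusedVariables false
set_option linter.unusedSimpArgs false

noncomputable section

namespace Pool.Agent.L5helper93.Geo

open Pool.Agent.Results.MP_b296c2_gt.Riemannian
open Pool.Agent.L5helper93.Ein

theorem on_expand {V : Type*} [NormedAddCommGroup V] [InnerProductSpace ℝ V]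
    [FiniteDimensional ℝ V] {n : ℕ} (hn : Module.finrank ℝ V = n) (w : Fin n → V)
    (hw : ∀ i j, inner ℝ (w i) (w j) = if i = j then (1 : ℝ) else 0) (v : V) :
    v = ∑ s, (inner ℝ v (w s) : ℝ) • w s := by
  have ho : Orthonormal ℝ w := orthonormal_iff_ite.2 hw
  have hc : Fintype.card (Fin n) = Module.finrank ℝ V := by simp [hn]
  rcases Nat.eq_zero_or_pos n with h0 | h0
  · subst h0
    have : Subsingleton V := Module.finrank_zero_iff.1 hn
    exact Subsingleton.elim _ _
  have : Nonempty (Fin n) := ⟨⟨0, h0⟩⟩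
  let b := (basisOfOrthonormalOfCardEqFinrank ho hc).toOrthonormalBasis (by
    rw [coe_basisOfOrthonormalOfCardEqFinrank]; exact ho)
  have hb : ∀ i, b i = w i := by
    intro i
    simp [b]
  have h2 := b.sum_repr v
  simp only [b.repr_apply_apply, hb] at h2
  conv_lhs => rw [← h2]
  refine Finset.sum_congr rfl fun s _ => ?_
  rw [real_inner_comm]

variable {E : Type*} [NormedAddCommGroup E] [NormedSpace ℝ E] [FiniteDimensional ℝ E]
  {H : Type*} [TopologicalSpace H] {I : ModelWithCorners ℝ E H}
  {M : Type*} [TopologicalSpace M] [ChartedSpace H M] [IsManifold I ∞ M]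
  [RiemannianBundle (fun x : M => TangentSpace I x)]
  [IsContMDiffRiemannianBundle I ∞ E (fun x : M => TangentSpace I x)]
  [T2Space M] [SigmaCompactSpace M] [Nontrivial E]
  {cov : CovariantDerivative I E (TangentSpace I : M → Type _)}

/-- A frame which is orthonormal near `p` and parallel at `p`. -/
structure Adapted (cov : CovariantDerivative I E (TangentSpace I : M → Type _)) (p : M) {n : ℕ}
    (e : Fin n → Π x : M, TangentSpace I x) : Prop where
  sm : ∀ i, CMDiff ∞ (T% (e i))
  par : ∀ i (w : TangentSpace I p), cov (e i) p w = 0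
  on : ∀ᶠ x in 𝓝 p, ∀ i j, inner ℝ (e i x) (e j x) = if i = j then (1 : ℝ) else 0

/-- Curvature components. -/
def Af (R : CurvField I M) (p : M) {n : ℕ} (e : Fin n → Π x : M, TangentSpace I x)
    (k l m q : Fin n) : ℝ := TF R (e k) (e l) (e q) (e m) p

/-- Second derivatives of the frame. -/
def Sf (cov : CovariantDerivative I E (TangentSpace I : M → Type _)) (p : M) {n : ℕ}
    (e : Fin n → Π x : M, TangentSpace I x) (i j k : Fin n) : TangentSpace I p :=
  cov (nabla cov (e j) (e k)) p (e i p)

/-- Their components. -/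
def sg (cov : CovariantDerivative I E (TangentSpace I : M → Type _)) (p : M) {n : ℕ}
    (e : Fin n → Π x : M, TangentSpace I x) (i j k s : Fin n) : ℝ :=
  inner ℝ (Sf cov p e i j k) (e s p)

/-- Components of the second derivative of the curvature tensor. -/
def Df (cov : CovariantDerivative I E (TangentSpace I : M → Type _)) (R : CurvField I M) (p : M)
    {n : ℕ} (e : Fin n → Π x : M, TangentSpace I x) (i j k l m q : Fin n) : ℝ :=
  d% (GF cov R (e j) (e k) (e l) (e q) (e m)) p (e i p)

/-- Second derivatives of the curvature components. -/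
def Hf (R : CurvField I M) (p : M) {n : ℕ} (e : Fin n → Π x : M, TangentSpace I x)
    (i j k l m q : Fin n) : ℝ :=
  d% (fun x => d% (TF R (e k) (e l) (e q) (e m)) x (e j x)) p (e i p)

variable (h : IsLeviCivita cov) {R : CurvField I M} (hR : IsRiemannTensor cov R)
  {p : M} {n : ℕ} {e : Fin n → Π x : M, TangentSpace I x} (ha : Adapted cov p e)
  (hn : Module.finrank ℝ E = n)

theorem Adapted.onp (ha : Adapted cov p e) (i j : Fin n) :
    inner ℝ (e i p) (e j p) = if i = j then (1 : ℝ) else 0 := ha.on.self_of_nhds i j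

theorem Adapted.expand (ha : Adapted cov p e) (hn : Module.finrank ℝ E = n)
    (v : TangentSpace I p) : v = ∑ s, (inner ℝ v (e s p) : ℝ) • e s p := by
  have hfd : FiniteDimensional ℝ (TangentSpace I p) := inferInstanceAs (FiniteDimensional ℝ E)
  exact on_expand (V := TangentSpace I p) hn (fun s => e s p) ha.onp v

include h hR ha

theorem smH (j k l q m : Fin n) :
    CMDiff ∞ (fun x => d% (TF R (e k) (e l) (e q) (e m)) x (e j x)) := by
  have e0 : (fun x => d% (TF R (e k) (e l) (e q) (e m)) x (e j x)) = fun x =>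
      GF cov R (e j) (e k) (e l) (e q) (e m) x +
      TF R (nabla cov (e j) (e k)) (e l) (e q) (e m) x +
      TF R (e k) (nabla cov (e j) (e l)) (e q) (e m) x +
      TF R (e k) (e l) (nabla cov (e j) (e q)) (e m) x +
      TF R (e k) (e l) (e q) (nabla cov (e j) (e m)) x := by
    ext x
    exact dTF_field h hR (ha.sm k) (ha.sm l) (ha.sm q) (ha.sm m) x
  rw [e0]
  have s := fun a b => sm_nabla h (ha.sm a) (ha.sm b)
  exact ((((sm_GF h hR (ha.sm j) (ha.sm k) (ha.sm l) (ha.sm q) (ha.sm m)).add
    (sm_TF h hR (s j k) (ha.sm l) (ha.sm q) (ha.sm m))).add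
    (sm_TF h hR (ha.sm k) (s j l) (ha.sm q) (ha.sm m))).add
    (sm_TF h hR (ha.sm k) (ha.sm l) (s j q) (ha.sm m))).add
    (sm_TF h hR (ha.sm k) (ha.sm l) (ha.sm q) (s j m))

include hn in
theorem hess_eq (i j k l m q : Fin n) : Hf R p e i j k l m q =
    Df cov R p e i j k l m q + ∑ s, (sg cov p e i j k s * Af R p e s l m q +
      sg cov p e i j l s * Af R p e k s m q + sg cov p e i j m s * Af R p e k l s q +
      sg cov p e i j q s * Af R p e k l m s) := by
  have e0 : (fun x => d% (TF R (e k) (e l) (e q) (e m)) x (e j x)) = fun x =>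
      GF cov R (e j) (e k) (e l) (e q) (e m) x +
      TF R (nabla cov (e j) (e k)) (e l) (e q) (e m) x +
      TF R (e k) (nabla cov (e j) (e l)) (e q) (e m) x +
      TF R (e k) (e l) (nabla cov (e j) (e q)) (e m) x +
      TF R (e k) (e l) (e q) (nabla cov (e j) (e m)) x := by
    ext x
    exact dTF_field h hR (ha.sm k) (ha.sm l) (ha.sm q) (ha.sm m) x
  have s := fun a b => sm_nabla h (ha.sm a) (ha.sm b)
  have m0 := sm_GF h hR (ha.sm j) (ha.sm k) (ha.sm l) (ha.sm q) (ha.sm m)
  have m1 := sm_TF h hR (s j k) (ha.sm l) (ha.sm q) (ha.sm m)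
  have m2 := sm_TF h hR (ha.sm k) (s j l) (ha.sm q) (ha.sm m)
  have m3 := sm_TF h hR (ha.sm k) (ha.sm l) (s j q) (ha.sm m)
  have m4 := sm_TF h hR (ha.sm k) (ha.sm l) (ha.sm q) (s j m)
  have n1 : CMDiff ∞ (fun x => GF cov R (e j) (e k) (e l) (e q) (e m) x +
      TF R (nabla cov (e j) (e k)) (e l) (e q) (e m) x) := m0.add m1
  have n2 : CMDiff ∞ (fun x => GF cov R (e j) (e k) (e l) (e q) (e m) x +
      TF R (nabla cov (e j) (e k)) (e l) (e q) (e m) x +
      TF R (e k) (nabla cov (e j) (e l)) (e q) (e m) x) := n1.add m2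
  have n3 : CMDiff ∞ (fun x => GF cov R (e j) (e k) (e l) (e q) (e m) x +
      TF R (nabla cov (e j) (e k)) (e l) (e q) (e m) x +
      TF R (e k) (nabla cov (e j) (e l)) (e q) (e m) x +
      TF R (e k) (e l) (nabla cov (e j) (e q)) (e m) x) := n2.add m3
  have z : ∀ a b, nabla cov (e a) (e b) p = 0 := fun a b => ha.par b _
  unfold Hf
  rw [e0, d_add n3 m4, d_add n2 m3, d_add n1 m2, d_add m0 m1,
    dTF_zero1 h hR (s j k) (ha.sm l) (ha.sm q) (ha.sm m) (z j k),
    dTF_zero2 h hR (ha.sm k) (s j l) (ha.sm q) (ha.sm m) (z j l),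
    dTF_zero3 h hR (ha.sm k) (ha.sm l) (s j q) (ha.sm m) (z j q),
    dTF_zero4 h hR (ha.sm k) (ha.sm l) (ha.sm q) (s j m) (z j m)]
  have x1 : inner ℝ (R p (cov (nabla cov (e j) (e k)) p (e i p)) (e l p) (e q p)) (e m p) =
      ∑ s, sg cov p e i j k s * Af R p e s l m q := by
    conv_lhs => rw [ha.expand hn (cov (nabla cov (e j) (e k)) p (e i p))]
    simp only [map_sum, map_smul, LinearMap.sum_apply, LinearMap.smul_apply, sum_inner,
      real_inner_smul_left]
    rfl
  have x2 : inner ℝ (R p (e k p) (cov (nabla cov (e j) (e l)) p (e i p)) (e q p)) (e m p) =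
      ∑ s, sg cov p e i j l s * Af R p e k s m q := by
    conv_lhs => rw [ha.expand hn (cov (nabla cov (e j) (e l)) p (e i p))]
    simp only [map_sum, map_smul, LinearMap.sum_apply, LinearMap.smul_apply, sum_inner,
      real_inner_smul_left]
    rfl
  have x3 : inner ℝ (R p (e k p) (e l p) (cov (nabla cov (e j) (e q)) p (e i p))) (e m p) =
      ∑ s, sg cov p e i j q s * Af R p e k l m s := by
    conv_lhs => rw [ha.expand hn (cov (nabla cov (e j) (e q)) p (e i p))]
    simp only [map_sum, map_smul, LinearMap.sum_apply, LinearMap.smul_apply, sum_inner,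
      real_inner_smul_left]
    rfl
  have x4 : inner ℝ (R p (e k p) (e l p) (e q p)) (cov (nabla cov (e j) (e m)) p (e i p)) =
      ∑ s, sg cov p e i j m s * Af R p e k l s q := by
    conv_lhs => rw [ha.expand hn (cov (nabla cov (e j) (e m)) p (e i p))]
    simp only [inner_sum, real_inner_smul_right]
    rfl
  rw [x1, x2, x3, x4]
  simp only [Finset.sum_add_distrib]
  unfold Df
  ring

omit hR in
/-- Second derivatives of the frame are infinitesimal rotations. -/
theorem sg_skew (i j k s : Fin n) : sg cov p e i j k s = - sg cov p e i j s k := by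
  have hev : ∀ᶠ x in 𝓝 p, d% (fun y => inner ℝ (e k y) (e s y)) x (e j x) = 0 := by
    filter_upwards [ha.on.eventually_nhds] with x hx
    rw [d_zero_of_eventually (c := if k = s then (1 : ℝ) else 0) (hx.mono fun y hy => hy k s)]
    rfl
  have hz := d_zero_of_eventually (I := I) hev
  have hz2 : d% (fun x => d% (fun y => inner ℝ (e k y) (e s y)) x (e j x)) p (e i p) = 0 := by
    rw [hz]; rfl
  have e0 : (fun x => d% (fun y => inner ℝ (e k y) (e s y)) x (e j x)) = fun x =>
      inner ℝ (nabla cov (e j) (e k) x) (e s x) + inner ℝ (e k x) (nabla cov (e j) (e s) x) := by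
    ext x
    exact dinner h.metric (ha.sm k) (ha.sm s) x (e j x)
  have m1 := smooth_inner (sm_nabla h (ha.sm j) (ha.sm k)) (ha.sm s)
  have m2 := smooth_inner (ha.sm k) (sm_nabla h (ha.sm j) (ha.sm s))
  rw [e0, d_add m1 m2, dinner h.metric (sm_nabla h (ha.sm j) (ha.sm k)) (ha.sm s),
    dinner h.metric (ha.sm k) (sm_nabla h (ha.sm j) (ha.sm s))] at hz2
  simp only [ha.par, inner_zero_right, inner_zero_left, add_zero, zero_add] at hz2
  unfold sg Sf
  have hc := real_inner_comm (e k p) (cov (nabla cov (e j) (e s)) p (e i p))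
  linarith

theorem Af_curv : IsCurv (Af R p e) where
  a1 a b c d := TF_a1 h hR _ _ _ _ p
  a2 a b c d := TF_a2 h hR _ _ _ _ p
  bi a b c d := by
    have := TF_bi h hR (e a) (e b) (e c) (e d) p
    unfold Af
    rw [TF_a2 h hR (e a), TF_a2 h hR (e b), TF_a2 h hR (e c)]
    linarith

theorem Df_curv (i j : Fin n) : IsCurv (Df cov R p e i j) where
  a1 a b c d := by
    unfold Df
    have e1 : GF cov R (e j) (e a) (e b) (e d) (e c) =
        fun x => - GF cov R (e j) (e b) (e a) (e d) (e c) x := by
      ext x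
      exact GF_a1 h hR (ha.sm _) (ha.sm _) (ha.sm _) (ha.sm _) (ha.sm _) x
    rw [e1, d_neg]
  a2 a b c d := by
    unfold Df
    have e1 : GF cov R (e j) (e a) (e b) (e d) (e c) =
        fun x => - GF cov R (e j) (e a) (e b) (e c) (e d) x := by
      ext x
      exact GF_a2 h hR (ha.sm _) (ha.sm _) (ha.sm _) (ha.sm _) (ha.sm _) x
    rw [e1, d_neg]
  bi a b c d := by
    unfold Df
    have m0 := fun x y z w => sm_GF h hR (ha.sm j) (ha.sm x) (ha.sm y) (ha.sm z) (ha.sm w)
    have m1 : CMDiff ∞ (fun x => GF cov R (e j) (e a) (e b) (e d) (e c) x +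
      GF cov R (e j) (e b) (e c) (e d) (e a) x) := (m0 a b d c).add (m0 b c d a)
    rw [← d_add (m0 a b d c) (m0 b c d a), ← d_add m1 (m0 c a d b)]
    have e1 : (fun x => GF cov R (e j) (e a) (e b) (e d) (e c) x +
        GF cov R (e j) (e b) (e c) (e d) (e a) x + GF cov R (e j) (e c) (e a) (e d) (e b) x) =
        fun _ => (0 : ℝ) := by
      ext x
      have b1 := GF_bi h hR (ha.sm j) (ha.sm a) (ha.sm b) (ha.sm c) (ha.sm d) x
      have b2 := GF_a2 h hR (ha.sm j) (ha.sm a) (ha.sm b) (ha.sm d) (ha.sm c) x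
      have b3 := GF_a2 h hR (ha.sm j) (ha.sm b) (ha.sm c) (ha.sm d) (ha.sm a) x
      have b4 := GF_a2 h hR (ha.sm j) (ha.sm c) (ha.sm a) (ha.sm d) (ha.sm b) x
      linarith
    rw [e1, mvfderiv_const]
    rfl

theorem Df_b2 (i j k l m q : Fin n) : Df cov R p e i j k l m q + Df cov R p e i k l j m q +
    Df cov R p e i l j k m q = 0 := by
  unfold Df
  have m0 := fun v x y z w => sm_GF h hR (ha.sm v) (ha.sm x) (ha.sm y) (ha.sm z) (ha.sm w)
  have m1 : CMDiff ∞ (fun x => GF cov R (e j) (e k) (e l) (e q) (e m) x +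
      GF cov R (e k) (e l) (e j) (e q) (e m) x) := (m0 j k l q m).add (m0 k l j q m)
  rw [← d_add (m0 j k l q m) (m0 k l j q m), ← d_add m1 (m0 l j k q m)]
  have e1 : (fun x => GF cov R (e j) (e k) (e l) (e q) (e m) x +
      GF cov R (e k) (e l) (e j) (e q) (e m) x + GF cov R (e l) (e j) (e k) (e q) (e m) x) =
      fun _ => (0 : ℝ) := by
    ext x
    exact GF_b2 h hR (ha.sm j) (ha.sm k) (ha.sm l) (ha.sm q) (ha.sm m) (ha.sm m) x
  rw [e1, mvfderiv_const]
  rfl

include hn in
/-- The Ricci identity. -/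
theorem Df_comm (i j k l m q : Fin n) : Df cov R p e i j k l m q - Df cov R p e j i k l m q =
    rid (Af R p e) i j k l m q := by
  have hbr : mlieBracket I (e i) (e j) p = 0 := by
    rw [← tf h (ha.sm i) (ha.sm j) p, ha.par, ha.par, sub_self]
  have hH : Hf R p e i j k l m q = Hf R p e j i k l m q := by
    have := comm_fun (sm_TF h hR (ha.sm k) (ha.sm l) (ha.sm q) (ha.sm m)) (ha.sm i) (ha.sm j)
      (smH h hR ha i k l q m) (smH h hR ha j k l q m) p
    rw [hbr, map_zero] at this
    unfold Hf
    linarith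
  have hS : ∀ a b, sg cov p e i j a b - sg cov p e j i a b = - Af R p e i j a b := by
    intro a b
    have h1 : R p (e i p) (e j p) (e a p) = Sf cov p e i j a - Sf cov p e j i a := by
      rw [hR (ha.sm i) (ha.sm j) (ha.sm a) p]
      unfold curv Sf
      rw [hbr, map_zero, sub_zero]
    have h2 := TF_a2 h hR (e i) (e j) (e a) (e b) p
    have h3 : TF R (e i) (e j) (e a) (e b) p = sg cov p e i j a b - sg cov p e j i a b := by
      unfold TF RF sg
      rw [h1, inner_sub_left]
    unfold Af
    linarith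
  rw [hess_eq h hR ha hn, hess_eq h hR ha hn] at hH
  have key : Df cov R p e i j k l m q - Df cov R p e j i k l m q =
      ∑ s, (- (sg cov p e i j k s - sg cov p e j i k s) * Af R p e s l m q
        - (sg cov p e i j l s - sg cov p e j i l s) * Af R p e k s m q
        - (sg cov p e i j m s - sg cov p e j i m s) * Af R p e k l s q
        - (sg cov p e i j q s - sg cov p e j i q s) * Af R p e k l m s) := by
    have e2 : ∑ s, (- (sg cov p e i j k s - sg cov p e j i k s) * Af R p e s l m q
        - (sg cov p e i j l s - sg cov p e j i l s) * Af R p e k s m q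
        - (sg cov p e i j m s - sg cov p e j i m s) * Af R p e k l s q
        - (sg cov p e i j q s - sg cov p e j i q s) * Af R p e k l m s) =
        ∑ s, (sg cov p e j i k s * Af R p e s l m q +
      sg cov p e j i l s * Af R p e k s m q + sg cov p e j i m s * Af R p e k l s q +
      sg cov p e j i q s * Af R p e k l m s) - ∑ s, (sg cov p e i j k s * Af R p e s l m q +
      sg cov p e i j l s * Af R p e k s m q + sg cov p e i j m s * Af R p e k l s q +
      sg cov p e i j q s * Af R p e k l m s) := by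
      rw [← Finset.sum_sub_distrib]
      refine Finset.sum_congr rfl fun s _ => ?_
      ring
    rw [e2]
    linarith
  rw [key]
  unfold rid
  refine Finset.sum_congr rfl fun s _ => ?_
  rw [hS, hS, hS, hS]
  ring

include hn in
/-- The trace of the second derivative of the curvature of an Einstein metric vanishes. -/
theorem Df_trace {c : ℝ}
    (hE : ∀ᶠ x in 𝓝 p, ∀ a b, ∑ k, TF R (e a) (e k) (e k) (e b) x = c * if a = b then 1 else 0)
    (i j a b : Fin n) : ∑ k, Df cov R p e i j a k b k = 0 := by
  have hT : ∀ k, CMDiff ∞ (TF R (e a) (e k) (e k) (e b)) := fun k =>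
    sm_TF h hR (ha.sm a) (ha.sm k) (ha.sm k) (ha.sm b)
  have hev : ∀ᶠ x in 𝓝 p, ∑ k, d% (TF R (e a) (e k) (e k) (e b)) x (e j x) = 0 := by
    filter_upwards [hE.eventually_nhds] with x hx
    rw [← d_sum Finset.univ fun k _ => hT k]
    rw [d_zero_of_eventually (c := c * if a = b then (1 : ℝ) else 0)
      (hx.mono fun y hy => hy a b)]
    rfl
  have hz := d_zero_of_eventually (I := I) hev
  have hH : ∑ k, Hf R p e i j a k b k = 0 := by
    have h1 : d% (fun x => ∑ k, d% (TF R (e a) (e k) (e k) (e b)) x (e j x)) p (e i p) =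
        ∑ k, Hf R p e i j a k b k := by
      rw [d_sum Finset.univ fun k _ => smH h hR ha j a k k b]
      rfl
    rw [← h1, hz]
    rfl
  simp only [hess_eq h hR ha hn] at hH
  have hEp := hE.self_of_nhds
  have hE' : ∀ a b, ∑ k, Af R p e a k b k = c * if a = b then 1 else 0 := fun a b => hEp a b
  rw [Finset.sum_add_distrib] at hH
  have z1 : ∑ k, ∑ s, sg cov p e i j a s * Af R p e s k b k = c * sg cov p e i j a b := by
    rw [Finset.sum_comm]
    simp only [← Finset.mul_sum, hE']
    simp [mul_comm]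
  have z3 : ∑ k, ∑ s, sg cov p e i j b s * Af R p e a k s k = c * sg cov p e i j b a := by
    rw [Finset.sum_comm]
    simp only [← Finset.mul_sum, hE']
    simp [mul_comm]
  have z2 : ∑ k, ∑ s, sg cov p e i j k s * Af R p e a s b k =
      - ∑ k, ∑ s, sg cov p e i j k s * Af R p e a k b s := by
    rw [Finset.sum_comm, ← Finset.sum_neg_distrib]
    refine Finset.sum_congr rfl fun k _ => ?_
    rw [← Finset.sum_neg_distrib]
    refine Finset.sum_congr rfl fun s _ => ?_
    rw [sg_skew h ha i j k s]
    ring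
  have z5 := sg_skew h ha i j a b
  simp only [Finset.sum_add_distrib] at hH
  rw [z1, z2, z3, z5] at hH
  linarith

end Pool.Agent.L5helper93.Geo
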