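import Mathlib
import Pool.Agent.L5helper93.Geo.Hess

/-!
# The maximum principle for the norm of the curvature tensor
-/

open Bundle Manifold ContDiff VectorField Filter
open scoped Topology

set_option linter.unusedSectionVars false
set_option linter.unusedVariables false
set_option linter.unusedSimpArgs false

noncomputable section

namespace Pool.Agent.L5helper93.Geo

open Pool.Agent.Results.MP_b296c2_gt Pool.Agent.Results.MP_b296c2_gt.Riemannian
open Pool.Agent.L5helper93.Ein

section Lin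

variable {V : Type*} [NormedAddCommGroup V] [InnerProductSpace ℝ V]

/-- The sum of the squares of the components of the curvature tensor. -/
def S4 {n : ℕ} (R : V →ₗ[ℝ] V →ₗ[ℝ] V →ₗ[ℝ] V) (b1 b2 b3 b4 : Fin n → V) : ℝ :=
  ∑ k, ∑ l, ∑ q, ∑ m, (inner ℝ (R (b1 k) (b2 l) (b3 q)) (b4 m)) ^ 2

variable {n : ℕ} {R : V →ₗ[ℝ] V →ₗ[ℝ] V →ₗ[ℝ] V}

theorem S4_last (b1 b2 b3 : Fin n → V) (b b' : OrthonormalBasis (Fin n) ℝ V) :
    S4 R b1 b2 b3 b = S4 R b1 b2 b3 b' := by
  unfold S4
  simp only [OrthonormalBasis.sum_sq_inner_left]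

theorem S4_swap (h : Pointwise.IsCurvatureTensor R) (b1 b2 b3 b4 : Fin n → V) :
    S4 R b1 b2 b3 b4 = S4 R b1 b2 b4 b3 := by
  unfold S4
  refine Finset.sum_congr rfl fun k _ => Finset.sum_congr rfl fun l _ => ?_
  rw [Finset.sum_comm]
  refine Finset.sum_congr rfl fun q _ => Finset.sum_congr rfl fun m _ => ?_
  rw [h.skew, real_inner_comm, neg_sq]

theorem S4_pair (h : Pointwise.IsCurvatureTensor R) (b1 b2 b3 b4 : Fin n → V) :
    S4 R b1 b2 b3 b4 = S4 R b3 b4 b1 b2 := by
  unfold S4
  have e1 : ∀ k l, ∑ q, ∑ m, (inner ℝ (R (b1 k) (b2 l) (b3 q)) (b4 m) : ℝ) ^ 2 =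
      ∑ x : Fin n × Fin n, (inner ℝ (R (b1 k) (b2 l) (b3 x.1)) (b4 x.2) : ℝ) ^ 2 := by
    intro k l
    rw [Fintype.sum_prod_type]
  have e2 : ∀ k l, ∑ q, ∑ m, (inner ℝ (R (b3 k) (b4 l) (b1 q)) (b2 m) : ℝ) ^ 2 =
      ∑ x : Fin n × Fin n, (inner ℝ (R (b3 k) (b4 l) (b1 x.1)) (b2 x.2) : ℝ) ^ 2 := by
    intro k l
    rw [Fintype.sum_prod_type]
  simp only [e1, e2]
  rw [← Fintype.sum_prod_type' (f := fun k l => ∑ x : Fin n × Fin n,
    (inner ℝ (R (b1 k) (b2 l) (b3 x.1)) (b4 x.2) : ℝ) ^ 2),
    ← Fintype.sum_prod_type' (f := fun k l => ∑ x : Fin n × Fin n,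
    (inner ℝ (R (b3 k) (b4 l) (b1 x.1)) (b2 x.2) : ℝ) ^ 2), Finset.sum_comm]
  refine Finset.sum_congr rfl fun x _ => Finset.sum_congr rfl fun y _ => ?_
  rw [h.pair]

theorem S4_indep (h : Pointwise.IsCurvatureTensor R) (b b' : OrthonormalBasis (Fin n) ℝ V) :
    S4 R b b b b = S4 R b' b' b' b' := by
  rw [S4_last b b b b b', S4_swap h b b b b', S4_last b b b' b b', S4_pair h b b b' b',
    S4_last b' b' b b b', S4_swap h b' b' b b', S4_last b' b' b' b b']

/-- The algebraic cancellation of the rotation of the frame. -/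
theorem rot_zero {n : ℕ} (A : Fin n → Fin n → Fin n → Fin n → ℝ) (g : Fin n → Fin n → ℝ)
    (hg : ∀ i j, g i j = - g j i) :
    ∑ k, ∑ l, ∑ m, ∑ q, A k l m q * ∑ s, (g k s * A s l m q + g l s * A k s m q +
      g m s * A k l s q + g q s * A k l m s) = 0 := by
  have key : ∀ f : Fin n → Fin n → ℝ, (∀ i j, f i j = - f j i) → ∑ i, ∑ j, f i j = 0 := by
    intro f hf
    have : ∑ i, ∑ j, f i j = - ∑ i, ∑ j, f i j := by
      conv_lhs => rw [Finset.sum_comm]
      rw [← Finset.sum_neg_distrib]
      refine Finset.sum_congr rfl fun i _ => ?_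
      rw [← Finset.sum_neg_distrib]
      exact Finset.sum_congr rfl fun j _ => hf j i
    linarith
  have e1 : ∑ k, ∑ l, ∑ m, ∑ q, A k l m q * ∑ s, g k s * A s l m q = 0 := by
    have : ∑ k, ∑ l, ∑ m, ∑ q, A k l m q * ∑ s, g k s * A s l m q =
        ∑ k, ∑ s, ∑ l, ∑ m, ∑ q, A k l m q * (g k s * A s l m q) := by
      refine Finset.sum_congr rfl fun k _ => ?_
      conv_rhs => rw [Finset.sum_comm]
      refine Finset.sum_congr rfl fun l _ => ?_
      conv_rhs => rw [Finset.sum_comm]
      refine Finset.sum_congr rfl fun m _ => ?_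
      conv_rhs => rw [Finset.sum_comm]
      refine Finset.sum_congr rfl fun q _ => ?_
      rw [Finset.mul_sum]
    rw [this]
    refine key _ fun k s => ?_
    simp only [← Finset.sum_neg_distrib]
    refine Finset.sum_congr rfl fun l _ => Finset.sum_congr rfl fun m _ =>
      Finset.sum_congr rfl fun q _ => ?_
    rw [hg k s]
    ring
  have e2 : ∑ k, ∑ l, ∑ m, ∑ q, A k l m q * ∑ s, g l s * A k s m q = 0 := by
    refine Finset.sum_eq_zero fun k _ => ?_
    have : ∑ l, ∑ m, ∑ q, A k l m q * ∑ s, g l s * A k s m q =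
        ∑ l, ∑ s, ∑ m, ∑ q, A k l m q * (g l s * A k s m q) := by
      refine Finset.sum_congr rfl fun l _ => ?_
      conv_rhs => rw [Finset.sum_comm]
      refine Finset.sum_congr rfl fun m _ => ?_
      conv_rhs => rw [Finset.sum_comm]
      refine Finset.sum_congr rfl fun q _ => ?_
      rw [Finset.mul_sum]
    rw [this]
    refine key _ fun l s => ?_
    simp only [← Finset.sum_neg_distrib]
    refine Finset.sum_congr rfl fun m _ => Finset.sum_congr rfl fun q _ => ?_
    rw [hg l s]
    ring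
  have e3 : ∑ k, ∑ l, ∑ m, ∑ q, A k l m q * ∑ s, g m s * A k l s q = 0 := by
    refine Finset.sum_eq_zero fun k _ => Finset.sum_eq_zero fun l _ => ?_
    have : ∑ m, ∑ q, A k l m q * ∑ s, g m s * A k l s q =
        ∑ m, ∑ s, ∑ q, A k l m q * (g m s * A k l s q) := by
      refine Finset.sum_congr rfl fun m _ => ?_
      conv_rhs => rw [Finset.sum_comm]
      refine Finset.sum_congr rfl fun q _ => ?_
      rw [Finset.mul_sum]
    rw [this]
    refine key _ fun m s => ?_
    simp only [← Finset.sum_neg_distrib]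
    refine Finset.sum_congr rfl fun q _ => ?_
    rw [hg m s]
    ring
  have e4 : ∑ k, ∑ l, ∑ m, ∑ q, A k l m q * ∑ s, g q s * A k l m s = 0 := by
    refine Finset.sum_eq_zero fun k _ => Finset.sum_eq_zero fun l _ =>
      Finset.sum_eq_zero fun m _ => ?_
    have : ∑ q, A k l m q * ∑ s, g q s * A k l m s =
        ∑ q, ∑ s, A k l m q * (g q s * A k l m s) := by
      refine Finset.sum_congr rfl fun q _ => ?_
      rw [Finset.mul_sum]
    rw [this]
    refine key _ fun q s => ?_
    rw [hg q s]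
    ring
  have : ∀ k l m q, A k l m q * ∑ s, (g k s * A s l m q + g l s * A k s m q +
      g m s * A k l s q + g q s * A k l m s) = A k l m q * ∑ s, g k s * A s l m q +
      A k l m q * ∑ s, g l s * A k s m q + A k l m q * ∑ s, g m s * A k l s q +
      A k l m q * ∑ s, g q s * A k l m s := by
    intro k l m q
    simp only [Finset.sum_add_distrib]
    ring
  simp only [this]
  simp only [Finset.sum_add_distrib, Finset.mul_sum] at e1 e2 e3 e4 ⊢
  rw [e1, e2, e3, e4]
  norm_num


end Lin

variable {E : Type*} [NormedAddCommGroup E] [NormedSpace ℝ E] [FiniteDimensional ℝ E]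
  {H : Type*} [TopologicalSpace H] {I : ModelWithCorners ℝ E H}
  {M : Type*} [TopologicalSpace M] [ChartedSpace H M] [IsManifold I ∞ M]
  [RiemannianBundle (fun x : M => TangentSpace I x)]
  [IsContMDiffRiemannianBundle I ∞ E (fun x : M => TangentSpace I x)]
  [T2Space M] [SigmaCompactSpace M] [Nontrivial E]
  {cov : CovariantDerivative I E (TangentSpace I : M → Type _)}

/-- An orthonormal basis of the tangent space out of an orthonormal family of `n` vectors. -/
theorem exists_onb {n : ℕ} (hn : Module.finrank ℝ E = n) (x : M) (w : Fin n → TangentSpace I x)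
    (hw : ∀ i j, inner ℝ (w i) (w j) = if i = j then (1 : ℝ) else 0) :
    ∃ b : OrthonormalBasis (Fin n) ℝ (TangentSpace I x), ∀ i, b i = w i := by
  have hfd : FiniteDimensional ℝ (TangentSpace I x) := inferInstanceAs (FiniteDimensional ℝ E)
  have ho : Orthonormal ℝ w := orthonormal_iff_ite.2 hw
  have hn' : Module.finrank ℝ (TangentSpace I x) = n := hn
  have hc : Fintype.card (Fin n) = Module.finrank ℝ (TangentSpace I x) := by simp [hn']
  have hpos : 0 < n := by
    rw [← hn]; exact Module.finrank_pos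
  have : Nonempty (Fin n) := ⟨⟨0, hpos⟩⟩
  let b := (basisOfOrthonormalOfCardEqFinrank ho hc).toOrthonormalBasis (by
    rw [coe_basisOfOrthonormalOfCardEqFinrank]; exact ho)
  refine ⟨b, fun i => ?_⟩
  simp [b]

/-- The standard orthonormal basis of the tangent space. -/
def onb {n : ℕ} (hn : Module.finrank ℝ E = n) (x : M) :
    OrthonormalBasis (Fin n) ℝ (TangentSpace I x) :=
  have hfd : FiniteDimensional ℝ (TangentSpace I x) := inferInstanceAs (FiniteDimensional ℝ E)
  have hn' : Module.finrank ℝ (TangentSpace I x) = n := hn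
  (stdOrthonormalBasis ℝ (TangentSpace I x)).reindex (finCongr hn')

/-- The squared norm of the curvature tensor. -/
def nR {n : ℕ} (hn : Module.finrank ℝ E = n) (R : CurvField I M) (x : M) : ℝ :=
  S4 (R x) (onb hn x) (onb hn x) (onb hn x) (onb hn x)

section

variable (h : IsLeviCivita cov) {R : CurvField I M} (hR : IsRiemannTensor cov R)
  {p : M} {n : ℕ} {e : Fin n → Π x : M, TangentSpace I x}
  (hn : Module.finrank ℝ E = n)

include h hR

theorem nR_eq {x : M} (w : Fin n → TangentSpace I x)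
    (hw : ∀ i j, inner ℝ (w i) (w j) = if i = j then (1 : ℝ) else 0) :
    nR hn R x = S4 (R x) w w w w := by
  obtain ⟨b, hb⟩ := exists_onb hn x w hw
  have e1 : (b : Fin n → TangentSpace I x) = w := by
    ext i; exact hb i
  rw [← e1]
  exact S4_indep (isCurvatureTensor h hR x) _ _

theorem nR_near (ha : Adapted cov p e) : ∀ᶠ x in 𝓝 p, nR hn R x =
    ∑ k, ∑ l, ∑ q, ∑ m, (TF R (e k) (e l) (e q) (e m) x) ^ 2 := by
  filter_upwards [ha.on] with x hx
  exact nR_eq h hR hn (fun i => e i x) hx

theorem nR_cont : Continuous (nR hn R) := by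
  rw [continuous_iff_continuousAt]
  intro p
  obtain ⟨e, h1, h2, h3, h4⟩ := exists_on_frame h.metric p n (onb hn p) (by
    intro i j
    exact orthonormal_iff_ite.1 (onb hn p).orthonormal i j)
  have ha : Adapted cov p e := ⟨h1, h3, h4⟩
  have h5 := nR_near h hR hn ha
  refine ContinuousAt.congr ?_ (h5.mono fun x hx => hx.symm)
  have : Continuous (fun x => ∑ k, ∑ l, ∑ q, ∑ m, (TF R (e k) (e l) (e q) (e m) x) ^ 2) := by
    refine continuous_finsetSum _ fun k _ => continuous_finsetSum _ fun l _ =>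
      continuous_finsetSum _ fun q _ => continuous_finsetSum _ fun m _ => ?_
    exact ((sm_TF h hR (ha.sm k) (ha.sm l) (ha.sm q) (ha.sm m)).continuous).pow 2
  exact this.continuousAt

include hn in
/-- The maximum principle: at a maximum of the norm of the curvature tensor the Laplacian
expression is nonpositive. -/
theorem lap_max [BoundarylessManifold I M] {c : ℝ} (ha : Adapted cov p e)
    (hE : ∀ᶠ x in 𝓝 p, ∀ a b, ∑ k, TF R (e a) (e k) (e k) (e b) x = c * if a = b then 1 else 0)
    (hmax : IsLocalMax (nR hn R) p) :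
    2 * c * nS (Af R p e) - 8 * X3 (Af R p e) + 4 * Y3 (Af R p e) ≤ 0 := by
  have hA := Af_curv h hR ha
  have hEp := hE.self_of_nhds
  have hE' : ∀ a b, ∑ k, Af R p e a k b k = c * dl a b := by
    intro a b
    have := hEp a b
    unfold dl
    rw [← this]
    rfl
  rw [← lap_eq hA hE' (Df cov R p e) (Df_curv h hR ha) (Df_b2 h hR ha)
    (Df_trace h hR ha hn hE) (Df_comm h hR ha hn)]
  have hT : ∀ k l q m, CMDiff ∞ (TF R (e k) (e l) (e q) (e m)) := fun k l q m =>
    sm_TF h hR (ha.sm k) (ha.sm l) (ha.sm q) (ha.sm m)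
  let F : M → ℝ := fun x => ∑ k, ∑ l, ∑ q, ∑ m, Af R p e k l m q * TF R (e k) (e l) (e q) (e m) x
  have hF : CMDiff ∞ F := by
    refine contMDiff_finsetSum fun k _ => contMDiff_finsetSum fun l _ =>
      contMDiff_finsetSum fun q _ => contMDiff_finsetSum fun m _ => ?_
    exact contMDiff_const.mul (hT k l q m)
  have hnear := nR_near h hR hn ha
  have hFmax : IsLocalMax F p := by
    unfold IsLocalMax IsMaxFilter
    filter_upwards [hnear, hmax] with x hx1 hx2
    have hp := hnear.self_of_nhds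
    have h1 : F x ≤ (nR hn R p + nR hn R x) / 2 := by
      rw [hx1, hp, ← Finset.sum_add_distrib, Finset.sum_div]
      refine Finset.sum_le_sum fun k _ => ?_
      rw [← Finset.sum_add_distrib, Finset.sum_div]
      refine Finset.sum_le_sum fun l _ => ?_
      rw [← Finset.sum_add_distrib, Finset.sum_div]
      refine Finset.sum_le_sum fun q _ => ?_
      rw [← Finset.sum_add_distrib, Finset.sum_div]
      refine Finset.sum_le_sum fun m _ => ?_
      unfold Af
      nlinarith [sq_nonneg (TF R (e k) (e l) (e q) (e m) p - TF R (e k) (e l) (e q) (e m) x)]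
    have h2 : F p = nR hn R p := by
      rw [hp]
      refine Finset.sum_congr rfl fun k _ => Finset.sum_congr rfl fun l _ =>
        Finset.sum_congr rfl fun q _ => Finset.sum_congr rfl fun m _ => ?_
      unfold Af
      ring
    rw [h2]
    linarith
  have hd : ∀ i, (fun y => d% F y (e i y)) = fun y => ∑ k, ∑ l, ∑ q, ∑ m,
      Af R p e k l m q * d% (TF R (e k) (e l) (e q) (e m)) y (e i y) := by
    intro i
    ext y
    have s1 : ∀ k l q m, CMDiff ∞ (fun x => Af R p e k l m q * TF R (e k) (e l) (e q) (e m) x) :=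
      fun k l q m => contMDiff_const.mul (hT k l q m)
    have s2 : ∀ k l q, CMDiff ∞ (fun x => ∑ m, Af R p e k l m q *
      TF R (e k) (e l) (e q) (e m) x) := fun k l q => contMDiff_finsetSum fun m _ => s1 k l q m
    have s3 : ∀ k l, CMDiff ∞ (fun x => ∑ q, ∑ m, Af R p e k l m q *
      TF R (e k) (e l) (e q) (e m) x) := fun k l => contMDiff_finsetSum fun q _ => s2 k l q
    have s4 : ∀ k, CMDiff ∞ (fun x => ∑ l, ∑ q, ∑ m, Af R p e k l m q *
      TF R (e k) (e l) (e q) (e m) x) := fun k => contMDiff_finsetSum fun l _ => s3 k l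
    simp only [F]
    rw [d_sum Finset.univ fun k _ => s4 k]
    refine Finset.sum_congr rfl fun k _ => ?_
    rw [d_sum Finset.univ fun l _ => s3 k l]
    refine Finset.sum_congr rfl fun l _ => ?_
    rw [d_sum Finset.univ fun q _ => s2 k l q]
    refine Finset.sum_congr rfl fun q _ => ?_
    rw [d_sum Finset.univ fun m _ => s1 k l q m]
    refine Finset.sum_congr rfl fun m _ => ?_
    rw [d_constmul (hT k l q m)]
  have s1 : ∀ i k l q m, CMDiff ∞ (fun y => Af R p e k l m q *
      d% (TF R (e k) (e l) (e q) (e m)) y (e i y)) :=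
    fun i k l q m => contMDiff_const.mul (smH h hR ha i k l q m)
  have s2 : ∀ i k l q, CMDiff ∞ (fun y => ∑ m, Af R p e k l m q *
      d% (TF R (e k) (e l) (e q) (e m)) y (e i y)) :=
    fun i k l q => contMDiff_finsetSum fun m _ => s1 i k l q m
  have s3 : ∀ i k l, CMDiff ∞ (fun y => ∑ q, ∑ m, Af R p e k l m q *
      d% (TF R (e k) (e l) (e q) (e m)) y (e i y)) :=
    fun i k l => contMDiff_finsetSum fun q _ => s2 i k l q
  have s4 : ∀ i k, CMDiff ∞ (fun y => ∑ l, ∑ q, ∑ m, Af R p e k l m q *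
      d% (TF R (e k) (e l) (e q) (e m)) y (e i y)) :=
    fun i k => contMDiff_finsetSum fun l _ => s3 i k l
  have s5 : ∀ i, CMDiff ∞ (fun y => ∑ k, ∑ l, ∑ q, ∑ m, Af R p e k l m q *
      d% (TF R (e k) (e l) (e q) (e m)) y (e i y)) :=
    fun i => contMDiff_finsetSum fun k _ => s4 i k
  have hdd : ∀ i, d% (fun y => d% F y (e i y)) p (e i p) = ∑ k, ∑ l, ∑ q, ∑ m,
      Af R p e k l m q * Hf R p e i i k l m q := by
    intro i
    rw [hd i, d_sum Finset.univ fun k _ => s4 i k]
    refine Finset.sum_congr rfl fun k _ => ?_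
    rw [d_sum Finset.univ fun l _ => s3 i k l]
    refine Finset.sum_congr rfl fun l _ => ?_
    rw [d_sum Finset.univ fun q _ => s2 i k l q]
    refine Finset.sum_congr rfl fun q _ => ?_
    rw [d_sum Finset.univ fun m _ => s1 i k l q m]
    refine Finset.sum_congr rfl fun m _ => ?_
    rw [d_constmul (smH h hR ha i k l q m)]
    rfl
  have hle : ∀ i, ∑ k, ∑ l, ∑ m, ∑ q, Af R p e k l m q * Df cov R p e i i k l m q ≤ 0 := by
    intro i
    have h1 := second_le hF (ha.sm i) (by rw [hd i]; exact s5 i) hFmax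
    rw [hdd i] at h1
    have h2 : ∑ k, ∑ l, ∑ q, ∑ m, Af R p e k l m q * Hf R p e i i k l m q =
        ∑ k, ∑ l, ∑ m, ∑ q, Af R p e k l m q * Hf R p e i i k l m q := by
      refine Finset.sum_congr rfl fun k _ => Finset.sum_congr rfl fun l _ => ?_
      rw [Finset.sum_comm]
    have h3 : ∑ k, ∑ l, ∑ m, ∑ q, Af R p e k l m q * Hf R p e i i k l m q =
        ∑ k, ∑ l, ∑ m, ∑ q, Af R p e k l m q * Df cov R p e i i k l m q +
        ∑ k, ∑ l, ∑ m, ∑ q, Af R p e k l m q * ∑ s, (sg cov p e i i k s * Af R p e s l m q +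
      sg cov p e i i l s * Af R p e k s m q + sg cov p e i i m s * Af R p e k l s q +
      sg cov p e i i q s * Af R p e k l m s) := by
      simp only [← Finset.sum_add_distrib]
      refine Finset.sum_congr rfl fun k _ => Finset.sum_congr rfl fun l _ =>
        Finset.sum_congr rfl fun m _ => Finset.sum_congr rfl fun q _ => ?_
      rw [hess_eq h hR ha hn, mul_add]
    rw [rot_zero (Af R p e) (sg cov p e i i) (fun a b => sg_skew h ha i i a b), add_zero] at h3
    rw [← h3, ← h2]
    exact h1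
  have hfin : ∑ k, ∑ l, ∑ m, ∑ q, (∑ i, Df cov R p e i i k l m q) * Af R p e k l m q =
      ∑ i, ∑ k, ∑ l, ∑ m, ∑ q, Af R p e k l m q * Df cov R p e i i k l m q := by
    conv_rhs => rw [Finset.sum_comm]
    refine Finset.sum_congr rfl fun k _ => ?_
    conv_rhs => rw [Finset.sum_comm]
    refine Finset.sum_congr rfl fun l _ => ?_
    conv_rhs => rw [Finset.sum_comm]
    refine Finset.sum_congr rfl fun m _ => ?_
    conv_rhs => rw [Finset.sum_comm]
    refine Finset.sum_congr rfl fun q _ => ?_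
    rw [Finset.sum_mul]
    exact Finset.sum_congr rfl fun i _ => mul_comm _ _
  rw [hfin]
  exact Finset.sum_nonpos fun i _ => hle i

end

end Pool.Agent.L5helper93.Geo
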