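import Mathlib
import Pool.Agent.L5helper93.Geo.Max
import Pool.Agent.L5helper93.Ein.Hom

/-!
# Rigidity of Einstein manifolds with sectional curvature bounded above
-/

open Bundle Manifold ContDiff VectorField Filter
open scoped Topology

set_option linter.unusedSectionVars false
set_option linter.unusedVariables false
set_option linter.unusedSimpArgs false

noncomputable section

namespace Pool.Agent.L5helper93.Geo

open Pool.Agent.Results.MP_b296c2_gt Pool.Agent.Results.MP_b296c2_gt.Riemannian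
open Pool.Agent.L5helper93.Ein

section Lin

variable {V : Type*} [NormedAddCommGroup V] [InnerProductSpace ℝ V]
variable {n : ℕ} {R : V →ₗ[ℝ] V →ₗ[ℝ] V →ₗ[ℝ] V}

theorem eq_const_of_S4 (h : Pointwise.IsCurvatureTensor R) (b : OrthonormalBasis (Fin n) ℝ V)
    {κ : ℝ} (hE : ∀ u v : V, ∑ i, inner ℝ (R u (b i) (b i)) v = ((n : ℝ) - 1) * κ * inner ℝ u v)
    (hS : S4 R b b b b ≤ 2 * n * ((n : ℝ) - 1) * κ ^ 2) (u v w : V) :
    R u v w = κ • ((inner ℝ v w : ℝ) • u - (inner ℝ u w : ℝ) • v) := by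
  have hbb : ∀ i j, inner ℝ (b i) (b j) = if i = j then (1 : ℝ) else 0 :=
    fun i j => orthonormal_iff_ite.1 b.orthonormal i j
  let C : Fin n → Fin n → Fin n → Fin n → ℝ := fun k l q m =>
    (if l = q then 1 else 0) * (if k = m then 1 else 0) -
    (if k = q then 1 else 0) * (if l = m then 1 else 0)
  have hC2 : ∑ k, ∑ l, ∑ q, ∑ m, (C k l q m) ^ 2 = 2 * n * ((n : ℝ) - 1) := by
    have e1 : ∀ k l, ∑ q, ∑ m, (C k l q m) ^ 2 = 2 - 2 * (if k = l then (1 : ℝ) else 0) := by
      intro k l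
      have e2 : ∀ q m, (C k l q m) ^ 2 = (if l = q then (1 : ℝ) else 0) * (if k = m then 1 else 0) +
          (if k = q then 1 else 0) * (if l = m then 1 else 0) -
          2 * (if k = l then (1 : ℝ) else 0) * ((if k = q then 1 else 0) *
            (if l = m then 1 else 0)) := by
        intro q m
        simp only [C]
        split_ifs <;> simp_all
        all_goals norm_num
      simp only [e2, Finset.sum_sub_distrib, Finset.sum_add_distrib, ← Finset.mul_sum]
      simp only [← Finset.sum_mul, ← Finset.mul_sum]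
      simp
      norm_num
    simp only [e1, Finset.sum_sub_distrib, ← Finset.mul_sum]
    simp
    ring
  have hRC : ∑ k, ∑ l, ∑ q, ∑ m, (inner ℝ (R (b k) (b l) (b q)) (b m) : ℝ) * C k l q m =
      2 * n * ((n : ℝ) - 1) * κ := by
    have e1 : ∀ k l, ∑ q, ∑ m, (inner ℝ (R (b k) (b l) (b q)) (b m) : ℝ) * C k l q m =
        2 * inner ℝ (R (b k) (b l) (b l)) (b k) := by
      intro k l
      simp only [C, mul_sub, Finset.sum_sub_distrib]
      have s1 : ∑ q, ∑ m, (inner ℝ (R (b k) (b l) (b q)) (b m) : ℝ) *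
          ((if l = q then 1 else 0) * (if k = m then 1 else 0)) =
          inner ℝ (R (b k) (b l) (b l)) (b k) := by
        simp [Finset.sum_ite_eq]
      have s2 : ∑ q, ∑ m, (inner ℝ (R (b k) (b l) (b q)) (b m) : ℝ) *
          ((if k = q then 1 else 0) * (if l = m then 1 else 0)) =
          inner ℝ (R (b k) (b l) (b k)) (b l) := by
        simp [Finset.sum_ite_eq]
      rw [s1, s2, h.skew (b k) (b l) (b k) (b l), real_inner_comm]
      ring
    simp only [e1, ← Finset.mul_sum]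
    have e2 : ∀ k, ∑ l, inner ℝ (R (b k) (b l) (b l)) (b k) = ((n : ℝ) - 1) * κ := by
      intro k
      rw [hE, hbb]
      simp
    simp only [e2]
    simp
    ring
  have hsum : ∑ k, ∑ l, ∑ q, ∑ m, ((inner ℝ (R (b k) (b l) (b q)) (b m) : ℝ) - κ * C k l q m) ^ 2
      ≤ 0 := by
    have e1 : ∑ k, ∑ l, ∑ q, ∑ m,
        ((inner ℝ (R (b k) (b l) (b q)) (b m) : ℝ) - κ * C k l q m) ^ 2 =
        S4 R b b b b - 2 * κ * (∑ k, ∑ l, ∑ q, ∑ m,
        (inner ℝ (R (b k) (b l) (b q)) (b m) : ℝ) * C k l q m) +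
        κ ^ 2 * ∑ k, ∑ l, ∑ q, ∑ m, (C k l q m) ^ 2 := by
      unfold S4
      simp only [Finset.mul_sum, ← Finset.sum_sub_distrib, ← Finset.sum_add_distrib]
      refine Finset.sum_congr rfl fun k _ => Finset.sum_congr rfl fun l _ =>
        Finset.sum_congr rfl fun q _ => Finset.sum_congr rfl fun m _ => ?_
      ring
    rw [e1, hC2, hRC]
    linarith
  have hz : ∀ k l q m, (inner ℝ (R (b k) (b l) (b q)) (b m) : ℝ) = κ * C k l q m := by
    have n4 : ∀ k l q m, 0 ≤ ((inner ℝ (R (b k) (b l) (b q)) (b m) : ℝ) - κ * C k l q m) ^ 2 :=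
      fun _ _ _ _ => sq_nonneg _
    have n3 := fun k l q => Finset.sum_nonneg (s := Finset.univ) fun m _ => n4 k l q m
    have n2 := fun k l => Finset.sum_nonneg (s := Finset.univ) fun q _ => n3 k l q
    have n1 := fun k => Finset.sum_nonneg (s := Finset.univ) fun l _ => n2 k l
    have z0 := le_antisymm hsum (Finset.sum_nonneg fun k _ => n1 k)
    intro k l q m
    have z1 := (Finset.sum_eq_zero_iff_of_nonneg fun k _ => n1 k).1 z0 k (Finset.mem_univ _)
    have z2 := (Finset.sum_eq_zero_iff_of_nonneg fun l _ => n2 k l).1 z1 l (Finset.mem_univ _)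
    have z3 := (Finset.sum_eq_zero_iff_of_nonneg fun q _ => n3 k l q).1 z2 q (Finset.mem_univ _)
    have z4 := (Finset.sum_eq_zero_iff_of_nonneg fun m _ => n4 k l q m).1 z3 m (Finset.mem_univ _)
    have z5 := pow_eq_zero_iff (two_ne_zero) |>.1 z4
    linarith
  -- vectors
  have hvec : ∀ k l q, R (b k) (b l) (b q) = κ • ((inner ℝ (b l) (b q) : ℝ) • b k -
      (inner ℝ (b k) (b q) : ℝ) • b l) := by
    intro k l q
    refine InnerProductSpace.ext_inner_right_basis b.toBasis fun m => ?_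
    rw [OrthonormalBasis.coe_toBasis, hz, real_inner_smul_left, inner_sub_left,
      real_inner_smul_left, real_inner_smul_left, hbb, hbb, hbb, hbb]
  have hlin : R = κ • Pointwise.constCurv (E := V) := by
    refine b.toBasis.ext fun k => b.toBasis.ext fun l => b.toBasis.ext fun q => ?_
    simp only [OrthonormalBasis.coe_toBasis, LinearMap.smul_apply, Pointwise.constCurv_apply]
    exact hvec k l q
  rw [hlin]
  simp only [LinearMap.smul_apply, Pointwise.constCurv_apply]

end Lin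

section Alg

variable {ι : Type*} [Fintype ι] [DecidableEq ι]

theorem Pm_smul (r : ℝ) (A : ι → ι → ι → ι → ℝ) :
    Pm (fun a b c d => r * A a b c d) = r • Pm A := by
  ext p q
  simp [Pm]

theorem nS_smul (r : ℝ) (A : ι → ι → ι → ι → ℝ) :
    nS (fun a b c d => r * A a b c d) = r ^ 2 * nS A := by
  unfold nS
  simp only [Finset.mul_sum, mul_pow]

theorem X3_smul (r : ℝ) (A : ι → ι → ι → ι → ℝ) :
    X3 (fun a b c d => r * A a b c d) = r ^ 3 * X3 A := by
  unfold X3
  rw [Pm_smul]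
  simp only [smul_mul_assoc, mul_smul_comm, Matrix.trace_smul, smul_eq_mul]
  ring

theorem Y3_smul (r : ℝ) (A : ι → ι → ι → ι → ℝ) :
    Y3 (fun a b c d => r * A a b c d) = r ^ 3 * Y3 A := by
  unfold Y3
  rw [Pm_smul]
  simp only [smul_mul_assoc, mul_smul_comm, Matrix.trace_smul, smul_eq_mul]
  ring

theorem IsCurv_smul {r : ℝ} {A : ι → ι → ι → ι → ℝ} (h : IsCurv A) :
    IsCurv (fun a b c d => r * A a b c d) where
  a1 a b c d := by rw [h.a1]; ring
  a2 a b c d := by rw [h.a2]; ring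
  bi a b c d := by
    have := h.bi a b c d
    linear_combination r * this

end Alg

variable {E : Type*} [NormedAddCommGroup E] [NormedSpace ℝ E] [FiniteDimensional ℝ E]
  {H : Type*} [TopologicalSpace H] {I : ModelWithCorners ℝ E H}
  {M : Type*} [TopologicalSpace M] [ChartedSpace H M] [IsManifold I ∞ M]
  [RiemannianBundle (fun x : M => TangentSpace I x)]
  [IsContMDiffRiemannianBundle I ∞ E (fun x : M => TangentSpace I x)]
  [T2Space M] [SigmaCompactSpace M] [Nontrivial E]
  {cov : CovariantDerivative I E (TangentSpace I : M → Type _)}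

theorem Kf_geo {R : CurvField I M} {p : M} {m : ℕ} {e : Fin (m + 1) → Π x : M, TangentSpace I x}
    (u v : Fin (m + 1) → ℝ) :
    Kf (Af R p e) u v = inner ℝ (R p (∑ a, u a • e a p) (∑ b, v b • e b p)
      (∑ d, v d • e d p)) (∑ c, u c • e c p) := by
  simp only [map_sum, map_smul, LinearMap.sum_apply, LinearMap.smul_apply, sum_inner, inner_sum,
    real_inner_smul_left, real_inner_smul_right]
  unfold Kf Af TF RF
  have perm : ∀ f : Fin (m + 1) → Fin (m + 1) → Fin (m + 1) → Fin (m + 1) → ℝ,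
      ∑ a, ∑ b, ∑ c, ∑ d, f a b c d = ∑ c, ∑ d, ∑ b, ∑ a, f a b c d := by
    intro f
    calc ∑ a, ∑ b, ∑ c, ∑ d, f a b c d = ∑ a, ∑ c, ∑ b, ∑ d, f a b c d :=
          Finset.sum_congr rfl fun a _ => Finset.sum_comm
      _ = ∑ c, ∑ a, ∑ b, ∑ d, f a b c d := Finset.sum_comm
      _ = ∑ c, ∑ a, ∑ d, ∑ b, f a b c d :=
          Finset.sum_congr rfl fun c _ => Finset.sum_congr rfl fun a _ => Finset.sum_comm
      _ = ∑ c, ∑ d, ∑ a, ∑ b, f a b c d := Finset.sum_congr rfl fun c _ => Finset.sum_comm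
      _ = ∑ c, ∑ d, ∑ b, ∑ a, f a b c d :=
          Finset.sum_congr rfl fun c _ => Finset.sum_congr rfl fun d _ => Finset.sum_comm
  rw [perm]
  refine Finset.sum_congr rfl fun c _ => Finset.sum_congr rfl fun d _ => ?_
  simp only [Finset.mul_sum]
  refine Finset.sum_congr rfl fun b _ => Finset.sum_congr rfl fun a _ => ?_
  ring

/-- Rigidity: on a closed Einstein manifold of dimension `n ≥ 5` with Einstein constant
`(n-1) κ`, `κ > 0`, all of whose sectional curvatures are at most `(11n-10)/(7n-10) κ`, the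
sectional curvature is constant. -/
theorem rigid [BoundarylessManifold I M] [CompactSpace M] {n : ℕ}
    (hn : Module.finrank ℝ E = n) (h5 : 5 ≤ n) (h : IsLeviCivita cov) {R : CurvField I M}
    (hR : IsRiemannTensor cov R) {κ : ℝ} (hκ : 0 < κ)
    (hE : ∀ (x : M) (b : OrthonormalBasis (Fin n) ℝ (TangentSpace I x)) (u v : TangentSpace I x),
      ∑ i, inner ℝ (R x u (b i) (b i)) v = ((n : ℝ) - 1) * κ * inner ℝ u v)
    (hsec : ∀ (x : M) (u v : TangentSpace I x), inner ℝ u u = (1 : ℝ) → inner ℝ v v = (1 : ℝ) →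
      inner ℝ u v = (0 : ℝ) →
      inner ℝ (R x u v v) u ≤ (11 * (n : ℝ) - 10) / (7 * (n : ℝ) - 10) * κ)
    (x : M) (u v w : TangentSpace I x) :
    R x u v w = κ • ((inner ℝ v w : ℝ) • u - (inner ℝ u w : ℝ) • v) := by
  obtain ⟨m, rfl⟩ : ∃ m, n = m + 1 := ⟨n - 1, by omega⟩
  have hm : 4 ≤ m := by omega
  have hm' : (4 : ℝ) ≤ m := by exact_mod_cast hm
  obtain ⟨p, -, hp⟩ := (isCompact_univ (X := M)).exists_isMaxOn ⟨x, Set.mem_univ _⟩
    (nR_cont h hR hn).continuousOn
  have hmax : ∀ y, nR hn R y ≤ nR hn R p := fun y => hp (Set.mem_univ y)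
  obtain ⟨e, h1, h2, h3, h4⟩ := exists_on_frame h.metric p (m + 1) (onb hn p) (by
    intro i j
    exact orthonormal_iff_ite.1 (onb hn p).orthonormal i j)
  have ha : Adapted cov p e := ⟨h1, h3, h4⟩
  have hEe : ∀ᶠ y in 𝓝 p, ∀ a b, ∑ k, TF R (e a) (e k) (e k) (e b) y =
      ((m : ℝ) * κ) * if a = b then 1 else 0 := by
    filter_upwards [ha.on] with y hy a b
    obtain ⟨bb, hbb⟩ := exists_onb hn y (fun i => e i y) hy
    have := hE y bb (e a y) (e b y)
    simp only [hbb] at this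
    rw [hy] at this
    unfold TF RF
    rw [this]
    push_cast
    ring
  have hlap := lap_max h hR hn ha hEe (Filter.Eventually.of_forall hmax)
  have hA := Af_curv h hR ha
  set A0 := Af R p e with hA0
  have hEin : IsEin (fun a b c d => κ⁻¹ * A0 a b c d) := by
    intro a b
    have h6 := hEe.self_of_nhds a b
    rw [← Finset.mul_sum]
    have h7 : ∑ i, A0 a i b i = ((m : ℝ) * κ) * if a = b then 1 else 0 := h6
    rw [h7]
    unfold dl
    simp only [Fintype.card_fin]
    push_cast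
    field_simp
    ring
  have hSec : SecLE (fun a b c d => κ⁻¹ * A0 a b c d)
      (1 + 4 * ((m : ℝ) + 1) / (7 * (m : ℝ) - 3)) := by
    intro u v hu hv huv
    have e1 : Kf (fun a b c d => κ⁻¹ * A0 a b c d) u v = κ⁻¹ * Kf A0 u v := by
      unfold Kf
      simp only [Finset.mul_sum, mul_assoc]
    rw [e1, Kf_geo]
    have e2 : ∀ a b : Fin (m + 1) → ℝ, inner ℝ (∑ i, a i • e i p) (∑ j, b j • e j p) =
        ∑ i, a i * b i := by
      intro a b
      simp only [sum_inner, inner_sum, real_inner_smul_left, real_inner_smul_right, ha.onp]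
      simp [mul_comm]
    have h6 := hsec p (∑ i, u i • e i p) (∑ i, v i • e i p)
      (by rw [e2, ← hu]; exact Finset.sum_congr rfl fun i _ => (sq (u i)).symm)
      (by rw [e2, ← hv]; exact Finset.sum_congr rfl fun i _ => (sq (v i)).symm)
      (by rw [e2, huv])
    have h7 : (11 * ((m + 1 : ℕ) : ℝ) - 10) / (7 * ((m + 1 : ℕ) : ℝ) - 10) =
        1 + 4 * ((m : ℝ) + 1) / (7 * (m : ℝ) - 3) := by
      push_cast
      have h8 : 7 * ((m : ℝ) + 1) - 10 = 7 * (m : ℝ) - 3 := by ring
      have h9 : (7 * (m : ℝ) - 3) ≠ 0 := by nlinarith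
      rw [h8, eq_comm]
      nth_rewrite 1 [← div_self h9]
      rw [← add_div]
      congr 1
      ring
    rw [h7] at h6
    calc κ⁻¹ * _ ≤ κ⁻¹ * ((1 + 4 * ((m : ℝ) + 1) / (7 * (m : ℝ) - 3)) * κ) :=
          mul_le_mul_of_nonneg_left h6 (inv_nonneg.2 hκ.le)
      _ = _ := by field_simp
  have ht : 4 * ((m : ℝ) + 1) / (7 * (m : ℝ) - 3) * (7 * (m : ℝ) - 3) = 4 * ((m : ℝ) + 1) := by
    have h9 : (7 * (m : ℝ) - 3) ≠ 0 := by nlinarith
    exact div_mul_cancel₀ _ h9
  have hq := Qp_lower (IsCurv_smul hA) hEin hm ht hSec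
  have hQ : Qp (fun a b c d => κ⁻¹ * A0 a b c d) = κ⁻¹ ^ 3 *
      (2 * ((m : ℝ) * κ) * nS A0 - 8 * X3 A0 + 4 * Y3 A0) := by
    unfold Qp
    rw [nS_smul, X3_smul, Y3_smul]
    simp only [Fintype.card_fin]
    push_cast
    field_simp
    ring
  have hQle : Qp (fun a b c d => κ⁻¹ * A0 a b c d) ≤ 0 := by
    rw [hQ]
    exact mul_nonpos_of_nonneg_of_nonpos (by positivity) hlap
  rw [nS_smul] at hq
  have hnS : nS A0 ≤ 2 * ((m : ℝ) + 1) * m * κ ^ 2 := by
    have h10 : κ⁻¹ ^ 2 * nS A0 ≤ 2 * ((m : ℝ) + 1) * m := by linarith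
    have h11 : 0 < κ ^ 2 := by positivity
    have h12 := mul_le_mul_of_nonneg_right h10 h11.le
    have h13 : κ⁻¹ ^ 2 * nS A0 * κ ^ 2 = nS A0 := by field_simp
    linarith
  have hnp : nR hn R p = nS A0 := by
    rw [(nR_near h hR hn ha).self_of_nhds]
    unfold nS
    refine Finset.sum_congr rfl fun k _ => Finset.sum_congr rfl fun l _ => ?_
    rw [Finset.sum_comm]
    rfl
  have hx : S4 (R x) (onb hn x) (onb hn x) (onb hn x) (onb hn x) ≤
      2 * ((m + 1 : ℕ) : ℝ) * (((m + 1 : ℕ) : ℝ) - 1) * κ ^ 2 := by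
    have := hmax x
    unfold nR at this hnp
    rw [hnp] at this
    push_cast
    refine this.trans (hnS.trans (le_of_eq ?_))
    ring
  exact eq_const_of_S4 (isCurvatureTensor h hR x) (onb hn x) (hE x (onb hn x)) hx u v w

end Pool.Agent.L5helper93.Geo
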