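import Mathlib
import Pool.Agent.L5helper93.Geo.Max

/-!
# The Laplacian and the strong maximum principle
-/

open Bundle Manifold ContDiff VectorField Filter
open scoped Topology

set_option linter.unusedSectionVars false
set_option linter.unusedVariables false
set_option linter.unusedSimpArgs false

noncomputable section

namespace Pool.Agent.L5helper93.Geo

open Pool.Agent.Results.MP_b296c2_gt Pool.Agent.Results.MP_b296c2_gt.Riemannian

section Basic

variable {E : Type*} [NormedAddCommGroup E] [NormedSpace ℝ E] [FiniteDimensional ℝ E]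
  {H : Type*} [TopologicalSpace H] {I : ModelWithCorners ℝ E H}
  {M : Type*} [TopologicalSpace M] [ChartedSpace H M] [IsManifold I ∞ M]

theorem smooth_d {f : M → ℝ} {X : Π x : M, TangentSpace I x} (hf : CMDiff ∞ f)
    (hX : CMDiff ∞ (T% X)) : CMDiff ∞ (fun y => d% f y (X y)) := by
  have h1 := hf.contMDiff_tangentMap (m := ∞) le_rfl
  have h2 := h1.comp hX
  exact (contMDiff_snd_tangentBundle_modelSpace ℝ 𝓘(ℝ, ℝ)).comp h2

theorem d_comp {φ : ℝ → ℝ} (hφ : ContDiff ℝ ∞ φ) {f : M → ℝ} (hf : CMDiff ∞ f) (p : M)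
    (v : TangentSpace I p) : d% (fun y => φ (f y)) p v = deriv φ (f p) * d% f p v := by
  have h1 : MDiffAt f p := fdiff hf p
  have h2 : MDiffAt φ (f p) := (hφ.contMDiff.mdifferentiable (by simp)) (f p)
  have h3 := mvfderiv_comp_apply (g := φ) (f := f) p h2 h1 v
  have e : (fun y => φ (f y)) = φ ∘ f := rfl
  rw [e, h3]
  have h4 : HasFDerivAt φ (fderiv ℝ φ (f p)) (f p) :=
    ((hφ.differentiable (by simp)) (f p)).hasFDerivAt
  have h5 : ∀ t : ℝ, fderiv ℝ φ (f p) t = deriv φ (f p) * t := by
    intro t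
    rw [fderiv_eq_smul_deriv, smul_eq_mul, mul_comm]
  have h6 : (mvfderiv 𝓘(ℝ, ℝ) φ (f p)) = fderiv ℝ φ (f p) := by
    unfold mvfderiv
    rw [mfderiv_eq_fderiv]
    rfl
  rw [h6]
  exact h5 _

end Basic

/-- Compactness: a negative continuous function on a compact set stays negative after adding a
small multiple of another one. -/
theorem small_add {X : Type*} [TopologicalSpace X] {C : Set X} (hC : IsCompact C) {u w : X → ℝ}
    (hu : Continuous u) (hw : Continuous w) (hneg : ∀ x ∈ C, u x < 0) :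
    ∃ ε : ℝ, 0 < ε ∧ ∀ x ∈ C, u x + ε * w x < 0 := by
  rcases C.eq_empty_or_nonempty with h0 | h0
  · exact ⟨1, one_pos, by simp [h0]⟩
  · obtain ⟨x1, hx1, hx1'⟩ := hC.exists_isMaxOn h0 hu.continuousOn
    obtain ⟨x2, hx2, hx2'⟩ := hC.exists_isMaxOn h0 hw.continuousOn
    have hn := hneg x1 hx1
    set W := |w x2| + 1 with hW
    have hWpos : 0 < W := by positivity
    refine ⟨- u x1 / (2 * W), div_pos (by linarith) (by positivity), ?_⟩
    intro x hx
    have a1 : u x ≤ u x1 := hx1' hx
    have a2 : w x ≤ w x2 := hx2' hx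
    have a3 : w x ≤ W := a2.trans ((le_abs_self _).trans (by linarith))
    have a4 : - u x1 / (2 * W) * w x ≤ - u x1 / (2 * W) * W :=
      mul_le_mul_of_nonneg_left a3 (div_pos (by linarith) (by positivity)).le
    have a5 : - u x1 / (2 * W) * W = - u x1 / 2 := by
      field_simp
    linarith

variable {E : Type*} [NormedAddCommGroup E] [NormedSpace ℝ E] [FiniteDimensional ℝ E]
  {H : Type*} [TopologicalSpace H] {I : ModelWithCorners ℝ E H}
  {M : Type*} [TopologicalSpace M] [ChartedSpace H M] [IsManifold I ∞ M]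
  [RiemannianBundle (fun x : M => TangentSpace I x)]
  [IsContMDiffRiemannianBundle I ∞ E (fun x : M => TangentSpace I x)]
  [T2Space M] [SigmaCompactSpace M] [Nontrivial E]
  {cov : CovariantDerivative I E (TangentSpace I : M → Type _)}

/-- The gradient of `f` computed in a frame. -/
def gradF {n : ℕ} (f : M → ℝ) (e : Fin n → Π x : M, TangentSpace I x) :
    Π x : M, TangentSpace I x := fun y => ∑ j, (d% f y (e j y) : ℝ) • e j y

theorem sm_gradF {n : ℕ} {f : M → ℝ} {e : Fin n → Π x : M, TangentSpace I x}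
    (hf : CMDiff ∞ f) (he : ∀ i, CMDiff ∞ (T% (e i))) : CMDiff ∞ (T% (gradF f e)) :=
  sm_sum _ fun j => sm_smul (smooth_d hf (he j)) (he j)

theorem grad_inner {n : ℕ} (hn : Module.finrank ℝ E = n) (f : M → ℝ)
    {e : Fin n → Π x : M, TangentSpace I x} {x : M}
    (ho : ∀ i j, inner ℝ (e i x) (e j x) = if i = j then (1 : ℝ) else 0)
    (v : TangentSpace I x) : inner ℝ (gradF f e x) v = d% f x v := by
  have hfd : FiniteDimensional ℝ (TangentSpace I x) := inferInstanceAs (FiniteDimensional ℝ E)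
  have h1 := on_expand (V := TangentSpace I x) hn (fun s => e s x) ho v
  have h2 : d% f x v = ∑ s, (inner ℝ v (e s x) : ℝ) * d% f x (e s x) := by
    conv_lhs => rw [h1]
    rw [map_sum]
    refine Finset.sum_congr rfl fun s _ => ?_
    rw [map_smul, smul_eq_mul]
  rw [h2]
  unfold gradF
  rw [sum_inner]
  refine Finset.sum_congr rfl fun s _ => ?_
  rw [real_inner_smul_left, real_inner_comm v]
  ring

/-- The trace of the Hessian in an adapted frame is a smooth expression in any frame. -/
theorem lap_eq_trace {n : ℕ} (hn : Module.finrank ℝ E = n) (h : IsLeviCivita cov) {f : M → ℝ}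
    (hf : CMDiff ∞ f) {e e' : Fin n → Π x : M, TangentSpace I x} (he : ∀ i, CMDiff ∞ (T% (e i)))
    {z : M} (ho : ∀ᶠ x in 𝓝 z, ∀ i j, inner ℝ (e i x) (e j x) = if i = j then (1 : ℝ) else 0)
    (ha : Adapted cov z e') :
    ∑ i, d% (fun y => d% f y (e' i y)) z (e' i z) =
      ∑ i, inner ℝ (nabla cov (e i) (gradF f e) z) (e i z) := by
  have hg := sm_gradF hf he
  have h1 : ∀ i, d% (fun y => d% f y (e' i y)) z (e' i z) =
      inner ℝ (cov (gradF f e) z (e' i z)) (e' i z) := by
    intro i
    have h2 : (fun y => d% f y (e' i y)) =ᶠ[𝓝 z] fun y => inner ℝ (gradF f e y) (e' i y) := by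
      filter_upwards [ho] with y hy
      exact (grad_inner hn f hy _).symm
    rw [d_congr h2, dinner h.metric hg (ha.sm i), ha.par, inner_zero_right, add_zero]
  rw [Finset.sum_congr rfl fun i _ => h1 i]
  obtain ⟨b', hb'⟩ := exists_onb hn z (fun i => e' i z) ha.onp
  obtain ⟨b, hb⟩ := exists_onb hn z (fun i => e i z) ho.self_of_nhds
  have hfd : FiniteDimensional ℝ (TangentSpace I z) := inferInstanceAs (FiniteDimensional ℝ E)
  let L : TangentSpace I z →ₗ[ℝ] TangentSpace I z :=
    { toFun := fun v => cov (gradF f e) z v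
      map_add' := fun v w => map_add _ v w
      map_smul' := fun c v => map_smul _ c v }
  have t1 := LinearMap.trace_eq_sum_inner L b
  have t2 := LinearMap.trace_eq_sum_inner L b'
  have t3 : ∑ i, inner ℝ (b' i) (L (b' i)) = ∑ i, inner ℝ (b i) (L (b i)) := t2.symm.trans t1
  have t4 : ∀ i, inner ℝ (cov (gradF f e) z (e' i z)) (e' i z) = inner ℝ (b' i) (L (b' i)) := by
    intro i
    rw [real_inner_comm, hb']
    rfl
  have t5 : ∀ i, inner ℝ (nabla cov (e i) (gradF f e) z) (e i z) = inner ℝ (b i) (L (b i)) := by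
    intro i
    rw [real_inner_comm, hb]
    rfl
  rw [Finset.sum_congr rfl fun i _ => t4 i, Finset.sum_congr rfl fun i _ => t5 i]
  exact t3

theorem norm_grad {n : ℕ} (hn : Module.finrank ℝ E = n) {f : M → ℝ}
    {e e' : Fin n → Π x : M, TangentSpace I x} {z : M}
    (ho : ∀ i j, inner ℝ (e i z) (e j z) = if i = j then (1 : ℝ) else 0)
    (ho' : ∀ i j, inner ℝ (e' i z) (e' j z) = if i = j then (1 : ℝ) else 0) :
    ∑ i, (d% f z (e' i z)) ^ 2 = inner ℝ (gradF f e z) (gradF f e z) := by
  obtain ⟨b', hb'⟩ := exists_onb hn z (fun i => e' i z) ho'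
  have h1 : ∀ i, d% f z (e' i z) = inner ℝ (gradF f e z) (b' i) := by
    intro i
    rw [hb']
    exact (grad_inner hn f ho _).symm
  rw [Finset.sum_congr rfl fun i _ => by rw [h1 i], OrthonormalBasis.sum_sq_inner_left,
    real_inner_self_eq_norm_sq]

/-- The local part of the strong maximum principle. -/
theorem hopf_local [BoundarylessManifold I M] [CompactSpace M] {n : ℕ}
    (hn : Module.finrank ℝ E = n) (h : IsLeviCivita cov) {f ρ : M → ℝ} (hf : CMDiff ∞ f)
    (hρ : CMDiff ∞ ρ) {p : M} (hmax : ∀ x, f x ≤ f p)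
    (hlap : ∀ (z : M) (e : Fin n → Π x : M, TangentSpace I x), Adapted cov z e →
      0 ≤ ∑ i, d% (fun y => d% f y (e i y)) z (e i z))
    (hd : d% ρ p ≠ 0) (ht : ∀ᶠ x in 𝓝 p, x ≠ p → ρ x ≤ ρ p → f x < f p) : False := by
  obtain ⟨e, h1, h2, h3, h4⟩ := exists_on_frame h.metric p n (onb hn p) (by
    intro i j
    exact orthonormal_iff_ite.1 (onb hn p).orthonormal i j)
  have ha : Adapted cov p e := ⟨h1, h3, h4⟩
  have hg : CMDiff ∞ (T% (gradF ρ e)) := sm_gradF hρ h1
  let a : M → ℝ := fun z => inner ℝ (gradF ρ e z) (gradF ρ e z)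
  let b : M → ℝ := fun z => ∑ i, inner ℝ (nabla cov (e i) (gradF ρ e) z) (e i z)
  have hac : Continuous a := (smooth_inner hg hg).continuous
  have hbc : Continuous b := by
    refine continuous_finsetSum _ fun i _ => ?_
    exact (smooth_inner (sm_nabla h (h1 i) hg) (h1 i)).continuous
  have hapos : 0 < a p := by
    by_contra hcon
    have h0 : gradF ρ e p = 0 := by
      have hle : inner ℝ (gradF ρ e p) (gradF ρ e p) ≤ (0 : ℝ) := not_lt.1 hcon
      have heq := le_antisymm hle real_inner_self_nonneg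
      exact inner_self_eq_zero.1 heq
    apply hd
    ext v
    rw [← grad_inner hn ρ ha.onp v, h0, inner_zero_left]
    rfl
  set m0 := a p / 2 with hm0
  set M0 := |b p| + 1 with hM0
  have hm0pos : 0 < m0 := by positivity
  have hM0pos : 0 < M0 := by positivity
  set α := M0 / m0 with hα
  have hαpos : 0 < α := by positivity
  have hαm : α * m0 = M0 := div_mul_cancel₀ _ hm0pos.ne'
  have hU : ∀ᶠ x in 𝓝 p, (∀ᶠ y in 𝓝 x, ∀ i j, inner ℝ (e i y) (e j y) =
      if i = j then (1 : ℝ) else 0) ∧ m0 < a x ∧ b x < M0 ∧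
      (x ≠ p → ρ x ≤ ρ p → f x < f p) := by
    have u2 : ∀ᶠ x in 𝓝 p, m0 < a x := hac.continuousAt.eventually (lt_mem_nhds (by
      rw [hm0]; linarith))
    have u3 : ∀ᶠ x in 𝓝 p, b x < M0 := hbc.continuousAt.eventually (gt_mem_nhds (by
      rw [hM0]
      have := le_abs_self (b p)
      linarith))
    filter_upwards [h4.eventually_nhds, u2, u3, ht] with x a1 a2 a3 a4
    exact ⟨a1, a2, a3, a4⟩
  obtain ⟨K, ⟨hKn, hKc⟩, hK⟩ := (compact_basis_nhds p).mem_iff.1 hU
  have hKcl : IsClosed K := hKc.isClosed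
  let ex : M → ℝ := fun x => Real.exp (-α * (ρ x - ρ p))
  have hψ : ContDiff ℝ ∞ (fun s : ℝ => Real.exp (-α * (s - ρ p))) := by fun_prop
  have hψd : ∀ s : ℝ, deriv (fun s : ℝ => Real.exp (-α * (s - ρ p))) s =
      -α * Real.exp (-α * (s - ρ p)) := by
    intro s
    have : HasDerivAt (fun s : ℝ => Real.exp (-α * (s - ρ p)))
        (Real.exp (-α * (s - ρ p)) * (-α * 1)) s :=
      (((hasDerivAt_id s).sub_const (ρ p)).const_mul (-α)).exp
    rw [this.deriv]
    ring
  have hex : CMDiff ∞ ex := hψ.contMDiff.comp hρ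
  have hexd : ∀ (x : M) (v : TangentSpace I x), d% ex x v = -α * ex x * d% ρ x v := by
    intro x v
    have := d_comp hψ hρ x v
    rw [hψd] at this
    exact this
  -- the frontier
  have hpf : p ∉ frontier K := by
    rw [frontier, Set.mem_sdiff, not_and, not_not]
    intro _
    exact mem_interior_iff_mem_nhds.2 hKn
  have hfc : IsCompact (frontier K) := hKc.of_isClosed_subset isClosed_frontier
    hKcl.frontier_subset
  have hCc : IsCompact (frontier K ∩ {x | ρ x ≤ ρ p}) :=
    hfc.inter_right (isClosed_le hρ.continuous continuous_const)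
  obtain ⟨ε, hε, hεC⟩ := small_add hCc (u := fun x => f x - f p) (w := fun x => ex x - 1)
    (hf.continuous.sub continuous_const) (hex.continuous.sub continuous_const) (by
      rintro x ⟨hx1, hx2⟩
      have hxK : x ∈ K := hKcl.frontier_subset hx1
      have hxp : x ≠ p := fun h0 => hpf (h0 ▸ hx1)
      have := (hK hxK).2.2.2 hxp hx2
      linarith)
  have hfront : ∀ x ∈ frontier K, f x + ε * ex x < f p + ε * ex p := by
    intro x hx
    have hexp : ex p = 1 := by simp [ex]
    rw [hexp]
    by_cases hc : ρ x ≤ ρ p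
    · have := hεC x ⟨hx, hc⟩
      linarith
    · push Not at hc
      have h5 : ex x < 1 := by
        have h7 : -α * (ρ x - ρ p) < 0 := by nlinarith
        calc ex x = Real.exp (-α * (ρ x - ρ p)) := rfl
          _ < Real.exp 0 := Real.exp_lt_exp.2 h7
          _ = 1 := Real.exp_zero
      have h6 := hmax x
      nlinarith
  let F : M → ℝ := fun x => f x + ε * ex x
  have hεex : CMDiff ∞ (fun x => ε * ex x) := contMDiff_const.mul hex
  have hF : CMDiff ∞ F := hf.add hεex
  obtain ⟨z, hzK, hz⟩ := hKc.exists_isMaxOn ⟨p, mem_of_mem_nhds hKn⟩ hF.continuous.continuousOn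
  have hzp : F p ≤ F z := hz (mem_of_mem_nhds hKn)
  have hzi : z ∈ interior K := by
    by_contra hcon
    have : z ∈ frontier K := by
      rw [frontier, hKcl.closure_eq]
      exact ⟨hzK, hcon⟩
    exact absurd (hfront z this) (not_lt.2 hzp)
  have hloc : IsLocalMax F z := hz.isLocalMax (mem_interior_iff_mem_nhds.1 hzi)
  obtain ⟨hz1, hz2, hz3, -⟩ := hK hzK
  obtain ⟨e', k1, k2, k3, k4⟩ := exists_on_frame h.metric z n (onb hn z) (by
    intro i j
    exact orthonormal_iff_ite.1 (onb hn z).orthonormal i j)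
  have ha' : Adapted cov z e' := ⟨k1, k3, k4⟩
  have hFd : ∀ i, d% (fun y => d% F y (e' i y)) z (e' i z) =
      d% (fun y => d% f y (e' i y)) z (e' i z) + ε * (α * ex z * (α * (d% ρ z (e' i z)) ^ 2 -
        d% (fun y => d% ρ y (e' i y)) z (e' i z))) := by
    intro i
    have r1 := smooth_d hf (k1 i)
    have r2 := smooth_d hρ (k1 i)
    have r3 : CMDiff ∞ (fun y => ex y * d% ρ y (e' i y)) := hex.mul r2
    have r4 : CMDiff ∞ (fun y => (ε * -α) * (ex y * d% ρ y (e' i y))) := contMDiff_const.mul r3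
    have e1 : (fun y => d% F y (e' i y)) = fun y => d% f y (e' i y) +
        (ε * -α) * (ex y * d% ρ y (e' i y)) := by
      ext y
      simp only [F]
      rw [d_add hf hεex, d_constmul hex, hexd]
      ring
    rw [e1, d_add r1 r4, d_constmul r3, d_mul hex r2, hexd]
    ring
  have hsum : ∑ i, d% (fun y => d% F y (e' i y)) z (e' i z) ≤ 0 := by
    refine Finset.sum_nonpos fun i _ => ?_
    exact second_le hF (k1 i) (smooth_d hF (k1 i)) hloc
  simp only [hFd, Finset.sum_add_distrib, ← Finset.mul_sum, Finset.sum_sub_distrib] at hsum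
  have hl1 := hlap z e' ha'
  have hl2 := lap_eq_trace hn h hρ h1 hz1 ha'
  have hl3 := norm_grad (f := ρ) hn hz1.self_of_nhds ha'.onp
  rw [hl2, hl3] at hsum
  have hexz : 0 < ex z := Real.exp_pos _
  have hpos : 0 < α * a z - b z := by
    have : α * m0 < α * a z := mul_lt_mul_of_pos_left hz2 hαpos
    linarith
  have : 0 < ε * (α * ex z * (α * a z - b z)) := by positivity
  linarith

end Pool.Agent.L5helper93.Geo
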