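import Mathlib
import Pool.Agent.L5helper93.Geo.Lap

/-!
# Touching balls and the strong maximum principle on a closed connected manifold
-/

open Bundle Manifold ContDiff VectorField Filter
open scoped Topology

set_option linter.unusedSectionVars false
set_option linter.unusedVariables false
set_option linter.unusedSimpArgs false

noncomputable section

namespace Pool.Agent.L5helper93.Geo

open Pool.Agent.Results.MP_b296c2_gt Pool.Agent.Results.MP_b296c2_gt.Riemannian

/-- The touching ball in Euclidean space. -/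
theorem touch_ball {F : Type*} [NormedAddCommGroup F] [InnerProductSpace ℝ F] {C : Set F}
    (hC : IsCompact C) {y q : F} (hy : y ∈ C) (hq : q ∉ C) :
    ∃ w ∈ C, 0 < dist q w ∧ dist q w ≤ dist q y ∧ ∃ q' : F, q' ≠ w ∧
      ∀ a, dist a q' ≤ dist w q' → a ∈ C → a = w := by
  obtain ⟨w, hw, hw2⟩ := hC.exists_infDist_eq_dist ⟨y, hy⟩ q
  have hpos : 0 < dist q w := dist_pos.2 fun h => hq (h ▸ hw)
  have hle : dist q w ≤ dist q y := by
    rw [← hw2]; exact Metric.infDist_le_dist_of_mem hy
  refine ⟨w, hw, hpos, hle, (1 / 2 : ℝ) • (q + w), ?_, ?_⟩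
  · intro h0
    have h1 : q = w := by
      have h2 : (2 : ℝ) • ((1 / 2 : ℝ) • (q + w)) = (2 : ℝ) • w := by rw [h0]
      rw [smul_smul, two_smul] at h2
      norm_num at h2
      exact h2
    rw [h1, dist_self] at hpos
    exact lt_irrefl _ hpos
  · intro a ha haC
    have h1 : dist q w ≤ dist q a := by
      rw [← hw2]; exact Metric.infDist_le_dist_of_mem haC
    rw [dist_eq_norm, dist_eq_norm] at ha h1
    -- vectors
    set u : F := a - (1 / 2 : ℝ) • (q + w) with hu
    set b : F := w - (1 / 2 : ℝ) • (q + w) with hb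
    have e1 : q - w = -((2 : ℝ) • b) := by rw [hb]; module
    have e2 : q - a = -(u + b) := by rw [hb, hu]; module
    rw [e1, e2, norm_neg, norm_neg, norm_smul] at h1
    norm_num at h1
    have h2 : ‖u - b‖ ^ 2 ≤ 0 := by
      have p1 := parallelogram_law_with_norm ℝ u b
      have p2 : ‖u‖ ^ 2 ≤ ‖b‖ ^ 2 := pow_le_pow_left₀ (norm_nonneg _) ha 2
      have p3 : (2 * ‖b‖) ^ 2 ≤ ‖u + b‖ ^ 2 := pow_le_pow_left₀ (by positivity) h1 2
      nlinarith
    have h3 : ‖u - b‖ = 0 := by
      have := le_antisymm h2 (sq_nonneg _)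
      exact pow_eq_zero_iff (two_ne_zero) |>.1 this
    have h4 : u = b := sub_eq_zero.1 (norm_eq_zero.1 h3)
    have h5 : a - w = u - b := by rw [hu, hb]; abel
    rw [h4, sub_self] at h5
    exact sub_eq_zero.1 h5

variable {E : Type*} [NormedAddCommGroup E] [NormedSpace ℝ E] [FiniteDimensional ℝ E]
  {H : Type*} [TopologicalSpace H] {I : ModelWithCorners ℝ E H}
  {M : Type*} [TopologicalSpace M] [ChartedSpace H M] [IsManifold I ∞ M]

/-- A smooth function measuring the squared distance in a chart. -/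
theorem exists_rho [T2Space M] {y p : M} (hp : p ∈ (chartAt H y).source)
    (q : EuclideanSpace ℝ (Fin (Module.finrank ℝ E))) (hq : q ≠ toEuclidean (extChartAt I y p)) :
    ∃ ρ : M → ℝ, CMDiff ∞ ρ ∧ d% ρ p ≠ 0 ∧
      ∀ᶠ x in 𝓝 p, ρ x = ‖toEuclidean (extChartAt I y x) - q‖ ^ 2 := by
  obtain ⟨χ, -, hχ⟩ := (SmoothBumpFunction.nhds_basis_tsupport (I := I) p).mem_iff.1
    ((chartAt H y).open_source.mem_nhds hp)
  let N : E → ℝ := fun z => ‖toEuclidean z - q‖ ^ 2
  have hN : ContDiff ℝ ∞ N := by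
    have h1 : ContDiff ℝ ∞ (fun z : E => toEuclidean z - q) :=
      (toEuclidean (E := E)).contDiff.sub contDiff_const
    exact h1.norm_sq ℝ
  let g : M → ℝ := fun x => N (extChartAt I y x)
  have hg : ContMDiffOn I 𝓘(ℝ, ℝ) ∞ g (chartAt H y).source :=
    hN.contMDiff.comp_contMDiffOn contMDiffOn_extChartAt
  let ρ : M → ℝ := fun x => χ x * g x
  have hρ : CMDiff ∞ ρ := by
    refine contMDiff_of_tsupport fun x hx => ?_
    have hx1 : x ∈ tsupport χ := closure_mono (Function.support_mul_subset_left _ _) hx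
    have hx2 : x ∈ (chartAt H y).source := hχ hx1
    exact (χ.contMDiff x).mul (hg.contMDiffAt ((chartAt H y).open_source.mem_nhds hx2))
  have hev : ρ =ᶠ[𝓝 p] g := by
    filter_upwards [χ.eventuallyEq_one] with x hx
    simp only [ρ]
    rw [hx]
    simp
  refine ⟨ρ, hρ, ?_, hev⟩
  rw [d_congr hev]
  intro h0
  have hp' : p ∈ (extChartAt I y).source := by rwa [extChartAt_source]
  have h1 : HasMFDerivAt I 𝓘(ℝ, E) (extChartAt I y) p (mfderiv I 𝓘(ℝ, E) (extChartAt I y) p) :=
    (mdifferentiableAt_extChartAt hp).hasMFDerivAt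
  set z := extChartAt I y p with hz
  let DN : E →L[ℝ] ℝ := 2 • (innerSL ℝ (toEuclidean z - q)).comp
      ((toEuclidean (E := E)) : E →L[ℝ] EuclideanSpace ℝ (Fin (Module.finrank ℝ E)))
  have h2 : HasFDerivAt N DN z :=
    (((toEuclidean (E := E)).hasFDerivAt (x := z)).sub_const q).norm_sq
  have h2' : HasMFDerivAt 𝓘(ℝ, E) 𝓘(ℝ, ℝ) N z DN := h2.hasMFDerivAt
  have h3 := (h2'.comp p h1).mfderiv
  have h3' : mfderiv I 𝓘(ℝ, ℝ) g p = DN.comp (mfderiv I 𝓘(ℝ, E) (extChartAt I y) p) := h3
  obtain ⟨L, hL⟩ := isInvertible_mfderiv_extChartAt (I := I) hp'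
  obtain ⟨v, hv⟩ : ∃ v : TangentSpace I p, (mfderiv I 𝓘(ℝ, E) (extChartAt I y) p) v =
      (toEuclidean (E := E)).symm (toEuclidean z - q) := by
    refine ⟨L.symm ((toEuclidean (E := E)).symm (toEuclidean z - q)), ?_⟩
    rw [← hL]
    exact L.apply_symm_apply _
  have h7 : DN ((toEuclidean (E := E)).symm (toEuclidean z - q)) =
      2 * ‖toEuclidean z - q‖ ^ 2 := by
    have h8 : DN ((toEuclidean (E := E)).symm (toEuclidean z - q)) =
        2 • inner ℝ (toEuclidean z - q)
          (toEuclidean ((toEuclidean (E := E)).symm (toEuclidean z - q))) := rfl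
    rw [h8, ContinuousLinearEquiv.apply_symm_apply, real_inner_self_eq_norm_sq, two_nsmul]
    ring
  have h4 : d% g p v = 2 * ‖toEuclidean z - q‖ ^ 2 := by
    unfold mvfderiv
    rw [ContinuousLinearMap.comp_apply, h3']
    exact (congrArg DN hv).trans h7
  rw [h0] at h4
  have h5 : (0 : ℝ) = 2 * ‖toEuclidean z - q‖ ^ 2 := h4
  have h6 : 0 < ‖toEuclidean z - q‖ := norm_pos_iff.2 (sub_ne_zero.2 (Ne.symm hq))
  nlinarith

theorem touching [T2Space M] [PreconnectedSpace M] [BoundarylessManifold I M] {f : M → ℝ}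
    (hf : Continuous f) {c : ℝ} (hle : ∀ x, f x ≤ c) {x0 x1 : M} (h0 : f x0 = c)
    (h1 : f x1 ≠ c) : ∃ (p : M) (ρ : M → ℝ), f p = c ∧ CMDiff ∞ ρ ∧ d% ρ p ≠ 0 ∧
      ∀ᶠ x in 𝓝 p, x ≠ p → ρ x ≤ ρ p → f x < c := by
  set A : Set M := {x | f x = c} with hA
  have hAc : IsClosed A := isClosed_eq hf continuous_const
  obtain ⟨y, hyA, hyn⟩ : ∃ y ∈ A, A ∉ 𝓝 y := by
    by_contra hcon
    push Not at hcon
    have hop : IsOpen A := isOpen_iff_mem_nhds.2 hcon
    rcases isClopen_iff.1 ⟨hAc, hop⟩ with h2 | h2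
    · have : x0 ∈ A := h0
      rw [h2] at this
      exact this
    · have : x1 ∈ A := by rw [h2]; trivial
      exact h1 this
  let T := toEuclidean (E := E)
  let ψ : M → EuclideanSpace ℝ (Fin (Module.finrank ℝ E)) := fun x => T (extChartAt I y x)
  let inv : EuclideanSpace ℝ (Fin (Module.finrank ℝ E)) → M := fun w =>
    (extChartAt I y).symm (T.symm w)
  have hint : extChartAt I y y ∈ interior (extChartAt I y).target :=
    ModelWithCorners.isInteriorPoint_iff.1 BoundarylessManifold.isInteriorPoint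
  have hnh : T.symm ⁻¹' (extChartAt I y).target ∈ 𝓝 (ψ y) := by
    refine T.symm.continuous.continuousAt.preimage_mem_nhds ?_
    have : T.symm (ψ y) = extChartAt I y y := T.symm_apply_apply _
    rw [this]
    exact mem_interior_iff_mem_nhds.1 hint
  obtain ⟨r, hr, hrs⟩ := Metric.mem_nhds_iff.1 hnh
  -- the closed set in the chart
  have hinvc : ContinuousOn inv (Metric.ball (ψ y) r) := by
    refine (continuousOn_extChartAt_symm (I := I) y).comp T.symm.continuous.continuousOn ?_
    intro w hw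
    exact hrs hw
  have hψinv : ∀ w ∈ Metric.ball (ψ y) r, ψ (inv w) = w := by
    intro w hw
    simp only [ψ, inv]
    rw [(extChartAt I y).right_inv (hrs hw)]
    exact T.apply_symm_apply _
  have hinvψ : ∀ x ∈ (chartAt H y).source, inv (ψ x) = x := by
    intro x hx
    simp only [ψ, inv]
    rw [T.symm_apply_apply]
    exact (extChartAt I y).left_inv (by rwa [extChartAt_source])
  have hinvs : ∀ w ∈ Metric.ball (ψ y) r, inv w ∈ (chartAt H y).source := by
    intro w hw
    have := (extChartAt I y).map_target (hrs hw)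
    rwa [extChartAt_source] at this
  set C : Set (EuclideanSpace ℝ (Fin (Module.finrank ℝ E))) :=
    Metric.closedBall (ψ y) (r / 2) ∩ {w | f (inv w) = c} with hC
  have hsub : Metric.closedBall (ψ y) (r / 2) ⊆ Metric.ball (ψ y) r :=
    Metric.closedBall_subset_ball (by linarith)
  have hCc : IsCompact C := by
    refine IsCompact.of_isClosed_subset (isCompact_closedBall (ψ y) (r / 2)) ?_
      Set.inter_subset_left
    have h2 : ContinuousOn (fun w => f (inv w)) (Metric.closedBall (ψ y) (r / 2)) :=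
      hf.comp_continuousOn (hinvc.mono hsub)
    exact h2.preimage_isClosed_of_isClosed Metric.isClosed_closedBall (isClosed_singleton (x := c))
  have hyC : ψ y ∈ C := by
    refine ⟨Metric.mem_closedBall_self (by linarith), ?_⟩
    change f (inv (ψ y)) = c
    rw [hinvψ y (mem_chart_source H y)]
    exact hyA
  have hψc : ContinuousAt ψ y := T.continuous.continuousAt.comp (continuousAt_extChartAt y)
  obtain ⟨x', hx's, hx'b, hx'A⟩ : ∃ x', x' ∈ (chartAt H y).source ∧
      ψ x' ∈ Metric.ball (ψ y) (r / 4) ∧ x' ∉ A := by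
    by_contra hcon
    push Not at hcon
    apply hyn
    filter_upwards [(chartAt H y).open_source.mem_nhds (mem_chart_source H y),
      hψc.preimage_mem_nhds (Metric.ball_mem_nhds _ (by linarith : 0 < r / 4))] with x a1 a2
    exact hcon x a1 a2
  have hqC : ψ x' ∉ C := by
    rintro ⟨-, h2⟩
    change f (inv (ψ x')) = c at h2
    rw [hinvψ x' hx's] at h2
    exact hx'A h2
  obtain ⟨w, hwC, hw1, hw2, q, hq, hqt⟩ := touch_ball hCc hyC hqC
  have hwb : w ∈ Metric.ball (ψ y) (r / 2) := by
    rw [Metric.mem_ball]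
    have h2 := dist_triangle w (ψ x') (ψ y)
    rw [dist_comm w (ψ x')] at h2
    have h3 := Metric.mem_ball.1 hx'b
    linarith
  have hwr : w ∈ Metric.ball (ψ y) r := hsub (Metric.ball_subset_closedBall hwb)
  set p := inv w with hp
  have hps : p ∈ (chartAt H y).source := hinvs w hwr
  have hψp : ψ p = w := hψinv w hwr
  obtain ⟨ρ, hρ1, hρ2, hρ3⟩ := exists_rho (I := I) hps q (by
    intro h2
    exact hq (h2.trans hψp))
  refine ⟨p, ρ, hwC.2, hρ1, hρ2, ?_⟩
  have hψcp : ContinuousAt ψ p := by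
    refine T.continuous.continuousAt.comp ?_
    exact continuousAt_extChartAt' (by rwa [extChartAt_source])
  have hnb : ψ ⁻¹' (Metric.ball (ψ y) (r / 2)) ∈ 𝓝 p :=
    hψcp.preimage_mem_nhds (Metric.isOpen_ball.mem_nhds (by rw [hψp]; exact hwb))
  filter_upwards [hρ3, hnb, (chartAt H y).open_source.mem_nhds hps] with x a1 a2 a3 hxp hxρ
  rw [a1, hρ3.self_of_nhds] at hxρ
  refine lt_of_le_of_ne (hle x) fun hfx => hxp ?_
  have h2 : dist (ψ x) q ≤ dist w q := by
    rw [dist_eq_norm, dist_eq_norm, ← hψp]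
    exact le_of_sq_le_sq hxρ (norm_nonneg _)
  have h3 : ψ x ∈ C := by
    refine ⟨Metric.ball_subset_closedBall a2, ?_⟩
    change f (inv (ψ x)) = c
    rw [hinvψ x a3]
    exact hfx
  have h4 := hqt (ψ x) h2 h3
  rw [← hinvψ x a3, h4]

/-- The strong maximum principle: a smooth function with nonnegative Laplacian on a closed
connected Riemannian manifold is constant. -/
theorem strong_max [T2Space M] [SigmaCompactSpace M] [Nontrivial E]
    [RiemannianBundle (fun x : M => TangentSpace I x)]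
    [IsContMDiffRiemannianBundle I ∞ E (fun x : M => TangentSpace I x)]
    {cov : CovariantDerivative I E (TangentSpace I : M → Type _)}
    [PreconnectedSpace M] [BoundarylessManifold I M] [CompactSpace M] {n : ℕ}
    (hn : Module.finrank ℝ E = n) (h : IsLeviCivita cov) {f : M → ℝ} (hf : CMDiff ∞ f)
    (hlap : ∀ (z : M) (e : Fin n → Π x : M, TangentSpace I x), Adapted cov z e →
      0 ≤ ∑ i, d% (fun y => d% f y (e i y)) z (e i z)) (x y : M) : f x = f y := by
  obtain ⟨x0, -, hx0⟩ := (isCompact_univ (X := M)).exists_isMaxOn ⟨x, Set.mem_univ _⟩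
    hf.continuous.continuousOn
  have hle : ∀ z, f z ≤ f x0 := fun z => hx0 (Set.mem_univ z)
  have key : ∀ z, f z = f x0 := by
    intro z
    by_contra hcon
    obtain ⟨p, ρ, h1, h2, h3, h4⟩ := touching (I := I) hf.continuous hle rfl hcon
    refine hopf_local hn h hf h2 (fun w => by rw [h1]; exact hle w) hlap h3 ?_
    filter_upwards [h4] with w hw a b
    rw [h1]
    exact hw a b
  rw [key x, key y]

end Pool.Agent.L5helper93.Geo
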