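import Mathlib
import Pool.Agent.L5helper93.Geo.Touch

/-!
# The Laplacian of the squared norm of the curvature tensor
-/

open Bundle Manifold ContDiff VectorField Filter
open scoped Topology

set_option linter.unusedSectionVars false
set_option linter.unusedVariables false
set_option linter.unusedSimpArgs false

noncomputable section

namespace Pool.Agent.L5helper93.Geo

open Pool.Agent.Results.MP_b296c2_gt Pool.Agent.Results.MP_b296c2_gt.Riemannian
open Pool.Agent.L5helper93.Ein

variable {E : Type*} [NormedAddCommGroup E] [NormedSpace ℝ E] [FiniteDimensional ℝ E]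
  {H : Type*} [TopologicalSpace H] {I : ModelWithCorners ℝ E H}
  {M : Type*} [TopologicalSpace M] [ChartedSpace H M] [IsManifold I ∞ M]
  [RiemannianBundle (fun x : M => TangentSpace I x)]
  [IsContMDiffRiemannianBundle I ∞ E (fun x : M => TangentSpace I x)]
  [T2Space M] [SigmaCompactSpace M] [Nontrivial E]
  {cov : CovariantDerivative I E (TangentSpace I : M → Type _)}

section Tensor

variable (h : IsLeviCivita cov) {R : CurvField I M} (hR : IsRiemannTensor cov R)
  {V X Y Z W X' : Π x : M, TangentSpace I x} (hV : CMDiff ∞ (T% V)) (hX : CMDiff ∞ (T% X))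
  (hY : CMDiff ∞ (T% Y)) (hZ : CMDiff ∞ (T% Z)) (hW : CMDiff ∞ (T% W))
  (hX' : CMDiff ∞ (T% X'))

include h hR

include hX hY hZ hW hX' in
theorem GF_congr1 {z : M} (hz : X z = X' z) :
    GF cov R V X Y Z W z = GF cov R V X' Y Z W z := by
  have e1 := dTF_field (V := V) h hR hX hY hZ hW z
  have e2 := dTF_field (V := V) h hR hX' hY hZ hW z
  have hs := sm_sub hX hX'
  have e3 : (fun x => TF R X Y Z W x - TF R X' Y Z W x) = TF R (fun y => X y - X' y) Y Z W := by
    ext x
    unfold TF RF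
    rw [map_sub, LinearMap.sub_apply, LinearMap.sub_apply, inner_sub_left]
  have e4 := d_sub (sm_TF h hR hX hY hZ hW) (sm_TF h hR hX' hY hZ hW) z (V z)
  rw [e3, dTF_zero1 h hR hs hY hZ hW (by rw [hz, sub_self]), cov_sub' cov hX hX', map_sub,
    LinearMap.sub_apply, LinearMap.sub_apply, inner_sub_left] at e4
  have c1 : TF R X (nabla cov V Y) Z W z = TF R X' (nabla cov V Y) Z W z := by
    unfold TF RF; rw [hz]
  have c2 : TF R X Y (nabla cov V Z) W z = TF R X' Y (nabla cov V Z) W z := by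
    unfold TF RF; rw [hz]
  have c3 : TF R X Y Z (nabla cov V W) z = TF R X' Y Z (nabla cov V W) z := by
    unfold TF RF; rw [hz]
  have c4 : TF R (nabla cov V X) Y Z W z = inner ℝ (R z (cov X z (V z)) (Y z) (Z z)) (W z) := rfl
  have c5 : TF R (nabla cov V X') Y Z W z = inner ℝ (R z (cov X' z (V z)) (Y z) (Z z)) (W z) :=
    rfl
  linarith

include hV hX hY hZ hW in
theorem GF_pair (z : M) : GF cov R V X Y Z W z = GF cov R V Z W X Y z := by
  have e1 := dTF_field (V := V) h hR hX hY hZ hW z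
  have e2 := dTF_field (V := V) h hR hZ hW hX hY z
  have e3 : TF R X Y Z W = TF R Z W X Y := by
    ext x; exact TF_pair h hR X Y Z W x
  rw [e3, e2] at e1
  have f1 := TF_pair h hR (nabla cov V X) Y Z W z
  have f2 := TF_pair h hR X (nabla cov V Y) Z W z
  have f3 := TF_pair h hR X Y (nabla cov V Z) W z
  have f4 := TF_pair h hR X Y Z (nabla cov V W) z
  linarith

end Tensor

section

variable (h : IsLeviCivita cov) {R : CurvField I M} (hR : IsRiemannTensor cov R)
  {z : M} {n : ℕ} {e : Fin n → Π x : M, TangentSpace I x} (ha : Adapted cov z e)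
  (hn : Module.finrank ℝ E = n)

/-- The constant coefficient extension of a tangent vector in a frame. -/
def cext (e : Fin n → Π x : M, TangentSpace I x) (c : Fin n → ℝ) : Π x : M, TangentSpace I x :=
  fun y => ∑ k, c k • e k y

include ha in
theorem sm_cext (c : Fin n → ℝ) : CMDiff ∞ (T% (cext e c)) :=
  sm_sum _ fun k => sm_smul (f := fun _ => c k) contMDiff_const (ha.sm k)

include ha in
theorem cext_par (c : Fin n → ℝ) (w : TangentSpace I z) : cov (cext e c) z w = 0 := by
  unfold cext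
  rw [cov_sum' cov _ fun k => sm_smul (f := fun _ => c k) contMDiff_const (ha.sm k)]
  refine Finset.sum_eq_zero fun k _ => ?_
  rw [cov_smul' cov (f := fun _ => c k) contMDiff_const (ha.sm k), ha.par, mvfderiv_const]
  simp

include h hR ha

/-- A four-linear expansion. -/
theorem GF_cext (V : Π x : M, TangentSpace I x)
    (h0 : ∀ k l q m, GF cov R V (e k) (e l) (e q) (e m) z = 0) (a b c d : Fin n → ℝ) :
    GF cov R V (cext e a) (cext e b) (cext e c) (cext e d) z = 0 := by
  have sa := sm_cext ha a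
  have sb := sm_cext ha b
  have sc := sm_cext ha c
  have sd := sm_cext ha d
  have zero : ∀ (X Y Z W : Π x : M, TangentSpace I x), (X z = 0 ∨ Y z = 0 ∨ Z z = 0 ∨ W z = 0) →
      TF R X Y Z W z = 0 := by
    intro X Y Z W h1
    unfold TF RF
    rcases h1 with h1 | h1 | h1 | h1 <;> rw [h1] <;> simp
  have e1 := dTF_field (V := V) h hR sa sb sc sd z
  rw [zero (nabla cov V (cext e a)) _ _ _ (Or.inl (cext_par ha a _)),
    zero _ (nabla cov V (cext e b)) _ _ (Or.inr (Or.inl (cext_par ha b _))),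
    zero _ _ (nabla cov V (cext e c)) _ (Or.inr (Or.inr (Or.inl (cext_par ha c _)))),
    zero _ _ _ (nabla cov V (cext e d)) (Or.inr (Or.inr (Or.inr (cext_par ha d _))))] at e1
  have e2 : TF R (cext e a) (cext e b) (cext e c) (cext e d) = fun y => ∑ k, ∑ l, ∑ q, ∑ m,
      (a k * b l * c q * d m) * TF R (e k) (e l) (e q) (e m) y := by
    ext y
    unfold TF RF cext
    simp only [map_sum, map_smul, LinearMap.sum_apply, LinearMap.smul_apply, sum_inner, inner_sum,
      real_inner_smul_left, real_inner_smul_right]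
    have perm : ∀ f : Fin n → Fin n → Fin n → Fin n → ℝ,
        ∑ m, ∑ q, ∑ l, ∑ k, f k l q m = ∑ k, ∑ l, ∑ q, ∑ m, f k l q m := by
      intro f
      calc ∑ m, ∑ q, ∑ l, ∑ k, f k l q m = ∑ m, ∑ q, ∑ k, ∑ l, f k l q m :=
            Finset.sum_congr rfl fun m _ => Finset.sum_congr rfl fun q _ => Finset.sum_comm
        _ = ∑ m, ∑ k, ∑ q, ∑ l, f k l q m := Finset.sum_congr rfl fun m _ => Finset.sum_comm
        _ = ∑ k, ∑ m, ∑ q, ∑ l, f k l q m := Finset.sum_comm
        _ = ∑ k, ∑ m, ∑ l, ∑ q, f k l q m :=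
            Finset.sum_congr rfl fun k _ => Finset.sum_congr rfl fun m _ => Finset.sum_comm
        _ = ∑ k, ∑ l, ∑ m, ∑ q, f k l q m := Finset.sum_congr rfl fun k _ => Finset.sum_comm
        _ = ∑ k, ∑ l, ∑ q, ∑ m, f k l q m :=
            Finset.sum_congr rfl fun k _ => Finset.sum_congr rfl fun l _ => Finset.sum_comm
    rw [← perm]
    simp only [Finset.mul_sum]
    refine Finset.sum_congr rfl fun m _ => Finset.sum_congr rfl fun q _ =>
      Finset.sum_congr rfl fun l _ => Finset.sum_congr rfl fun k _ => ?_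
    ring
  have hT : ∀ k l q m, CMDiff ∞ (TF R (e k) (e l) (e q) (e m)) := fun k l q m =>
    sm_TF h hR (ha.sm k) (ha.sm l) (ha.sm q) (ha.sm m)
  have s1 : ∀ k l q m, CMDiff ∞ (fun x => (a k * b l * c q * d m) *
      TF R (e k) (e l) (e q) (e m) x) := fun k l q m => contMDiff_const.mul (hT k l q m)
  have s2 : ∀ k l q, CMDiff ∞ (fun x => ∑ m, (a k * b l * c q * d m) *
      TF R (e k) (e l) (e q) (e m) x) := fun k l q => contMDiff_finsetSum fun m _ => s1 k l q m
  have s3 : ∀ k l, CMDiff ∞ (fun x => ∑ q, ∑ m, (a k * b l * c q * d m) *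
      TF R (e k) (e l) (e q) (e m) x) := fun k l => contMDiff_finsetSum fun q _ => s2 k l q
  have s4 : ∀ k, CMDiff ∞ (fun x => ∑ l, ∑ q, ∑ m, (a k * b l * c q * d m) *
      TF R (e k) (e l) (e q) (e m) x) := fun k => contMDiff_finsetSum fun l _ => s3 k l
  have e3 : d% (TF R (cext e a) (cext e b) (cext e c) (cext e d)) z (V z) = 0 := by
    rw [e2, d_sum Finset.univ fun k _ => s4 k]
    refine Finset.sum_eq_zero fun k _ => ?_
    rw [d_sum Finset.univ fun l _ => s3 k l]
    refine Finset.sum_eq_zero fun l _ => ?_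
    rw [d_sum Finset.univ fun q _ => s2 k l q]
    refine Finset.sum_eq_zero fun q _ => ?_
    rw [d_sum Finset.univ fun m _ => s1 k l q m]
    refine Finset.sum_eq_zero fun m _ => ?_
    rw [d_constmul (hT k l q m), dTF_field h hR (ha.sm k) (ha.sm l) (ha.sm q) (ha.sm m), h0,
      zero (nabla cov V (e k)) _ _ _ (Or.inl (ha.par k _)),
      zero _ (nabla cov V (e l)) _ _ (Or.inr (Or.inl (ha.par l _))),
      zero _ _ (nabla cov V (e q)) _ (Or.inr (Or.inr (Or.inl (ha.par q _)))),
      zero _ _ _ (nabla cov V (e m)) (Or.inr (Or.inr (Or.inr (ha.par m _))))]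
    ring
  linarith

include hn in
/-- The covariant derivative of the curvature vanishes once its frame components do. -/
theorem GF_vanish {V X Y Z W : Π x : M, TangentSpace I x} (hV : CMDiff ∞ (T% V))
    (hX : CMDiff ∞ (T% X)) (hY : CMDiff ∞ (T% Y)) (hZ : CMDiff ∞ (T% Z)) (hW : CMDiff ∞ (T% W))
    (h0 : ∀ k l q m, GF cov R V (e k) (e l) (e q) (e m) z = 0) : GF cov R V X Y Z W z = 0 := by
  have hc : ∀ v : TangentSpace I z, v = cext e (fun k => inner ℝ v (e k z)) z := fun v =>
    ha.expand hn v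
  set X' := cext e (fun k => inner ℝ (X z) (e k z)) with hX'
  set Y' := cext e (fun k => inner ℝ (Y z) (e k z)) with hY'
  set Z' := cext e (fun k => inner ℝ (Z z) (e k z)) with hZ'
  set W' := cext e (fun k => inner ℝ (W z) (e k z)) with hW'
  have sX : CMDiff ∞ (T% X') := sm_cext ha _
  have sY : CMDiff ∞ (T% Y') := sm_cext ha _
  have sZ : CMDiff ∞ (T% Z') := sm_cext ha _
  have sW : CMDiff ∞ (T% W') := sm_cext ha _
  rw [GF_congr1 h hR hX hY hZ hW sX (hc (X z)), GF_a1 h hR hV sX hY hZ hW,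
    GF_congr1 h hR hY sX hZ hW sY (hc (Y z)), ← GF_a1 h hR hV sX sY hZ hW,
    GF_pair h hR hV sX sY hZ hW, GF_congr1 h hR hZ hW sX sY sZ (hc (Z z)),
    GF_a1 h hR hV sZ hW sX sY, GF_congr1 h hR hW sZ sX sY sW (hc (W z)),
    ← GF_a1 h hR hV sZ sW sX sY, ← GF_pair h hR hV sX sY sZ sW]
  exact GF_cext h hR ha V h0 _ _ _ _

include hn in
theorem DR_vanish {V X Y Z : Π x : M, TangentSpace I x} (hV : CMDiff ∞ (T% V))
    (hX : CMDiff ∞ (T% X)) (hY : CMDiff ∞ (T% Y)) (hZ : CMDiff ∞ (T% Z))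
    (h0 : ∀ i k l q m, GF cov R (e i) (e k) (e l) (e q) (e m) z = 0) :
    DR cov R V X Y Z z = 0 := by
  -- linear in `V`
  have hlin : ∀ i, DR cov R (e i) X Y Z z = 0 := by
    intro i
    apply ext_inner_right ℝ
    intro w
    obtain ⟨W, hW, rfl⟩ := exists_smooth_field (I := I) z w
    rw [inner_zero_left]
    exact GF_vanish h hR ha hn (ha.sm i) hX hY hZ hW (fun k l q m => h0 i k l q m)
  have hexp := ha.expand hn (V z)
  have e1 : DR cov R V X Y Z z = ∑ i, (inner ℝ (V z) (e i z) : ℝ) • DR cov R (e i) X Y Z z := by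
    unfold DR
    conv_lhs => rw [hexp]
    simp only [map_sum, map_smul, LinearMap.sum_apply, LinearMap.smul_apply, smul_sub,
      Finset.sum_sub_distrib]
  rw [e1]
  exact Finset.sum_eq_zero fun i _ => by rw [hlin, smul_zero]

end

section

variable (h : IsLeviCivita cov) {R : CurvField I M} (hR : IsRiemannTensor cov R)
  {n : ℕ} (hn : Module.finrank ℝ E = n)

include h hR

theorem smooth_nR : CMDiff ∞ (nR hn R) := by
  intro p
  obtain ⟨e, h1, h2, h3, h4⟩ := exists_on_frame h.metric p n (onb hn p) (by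
    intro i j
    exact orthonormal_iff_ite.1 (onb hn p).orthonormal i j)
  have ha : Adapted cov p e := ⟨h1, h3, h4⟩
  have h5 := nR_near h hR hn ha
  have : CMDiff ∞ (fun x => ∑ k, ∑ l, ∑ q, ∑ m, (TF R (e k) (e l) (e q) (e m) x) ^ 2) := by
    refine contMDiff_finsetSum fun k _ => contMDiff_finsetSum fun l _ =>
      contMDiff_finsetSum fun q _ => contMDiff_finsetSum fun m _ => ?_
    exact (sm_TF h hR (ha.sm k) (ha.sm l) (ha.sm q) (ha.sm m)).pow 2
  exact (this p).congr_of_eventuallyEq h5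

theorem nR_lap {c : ℝ} {z : M} {e : Fin n → Π x : M, TangentSpace I x} (ha : Adapted cov z e)
    (hE : ∀ᶠ x in 𝓝 z, ∀ a b, ∑ k, TF R (e a) (e k) (e k) (e b) x = c * if a = b then 1 else 0) :
    ∑ i, d% (fun y => d% (nR hn R) y (e i y)) z (e i z) =
      2 * ∑ i, ∑ k, ∑ l, ∑ q, ∑ m, (GF cov R (e i) (e k) (e l) (e q) (e m) z) ^ 2 +
      2 * (2 * c * nS (Af R z e) - 8 * X3 (Af R z e) + 4 * Y3 (Af R z e)) := by
  have hA := Af_curv h hR ha
  have hEp := hE.self_of_nhds
  have hE' : ∀ a b, ∑ k, Af R z e a k b k = c * dl a b := by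
    intro a b
    have := hEp a b
    unfold dl
    rw [← this]
    rfl
  rw [← lap_eq hA hE' (Df cov R z e) (Df_curv h hR ha) (Df_b2 h hR ha)
    (Df_trace h hR ha hn hE) (Df_comm h hR ha hn)]
  have hT : ∀ k l q m, CMDiff ∞ (TF R (e k) (e l) (e q) (e m)) := fun k l q m =>
    sm_TF h hR (ha.sm k) (ha.sm l) (ha.sm q) (ha.sm m)
  have hT2 : ∀ k l q m, CMDiff ∞ (fun x => TF R (e k) (e l) (e q) (e m) x ^ 2) :=
    fun k l q m => (hT k l q m).pow 2
  have hnear := nR_near h hR hn ha
  -- first derivative near `z`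
  have hd : ∀ i, (fun y => d% (nR hn R) y (e i y)) =ᶠ[𝓝 z] fun y => ∑ k, ∑ l, ∑ q, ∑ m,
      2 * (TF R (e k) (e l) (e q) (e m) y * d% (TF R (e k) (e l) (e q) (e m)) y (e i y)) := by
    intro i
    filter_upwards [hnear.eventually_nhds] with y hy
    rw [d_congr hy]
    have s2 : ∀ k l q, CMDiff ∞ (fun x => ∑ m, TF R (e k) (e l) (e q) (e m) x ^ 2) :=
      fun k l q => contMDiff_finsetSum fun m _ => hT2 k l q m
    have s3 : ∀ k l, CMDiff ∞ (fun x => ∑ q, ∑ m, TF R (e k) (e l) (e q) (e m) x ^ 2) :=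
      fun k l => contMDiff_finsetSum fun q _ => s2 k l q
    have s4 : ∀ k, CMDiff ∞ (fun x => ∑ l, ∑ q, ∑ m, TF R (e k) (e l) (e q) (e m) x ^ 2) :=
      fun k => contMDiff_finsetSum fun l _ => s3 k l
    rw [d_sum Finset.univ fun k _ => s4 k]
    refine Finset.sum_congr rfl fun k _ => ?_
    rw [d_sum Finset.univ fun l _ => s3 k l]
    refine Finset.sum_congr rfl fun l _ => ?_
    rw [d_sum Finset.univ fun q _ => s2 k l q]
    refine Finset.sum_congr rfl fun q _ => ?_
    rw [d_sum Finset.univ fun m _ => hT2 k l q m]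
    refine Finset.sum_congr rfl fun m _ => ?_
    have e1 : (fun x => TF R (e k) (e l) (e q) (e m) x ^ 2) =
        fun x => TF R (e k) (e l) (e q) (e m) x * TF R (e k) (e l) (e q) (e m) x := by
      ext x; ring
    rw [e1, d_mul (hT k l q m) (hT k l q m)]
    ring
  have sd : ∀ i k l q m, CMDiff ∞ (fun y => d% (TF R (e k) (e l) (e q) (e m)) y (e i y)) :=
    fun i k l q m => smooth_d (hT k l q m) (ha.sm i)
  have s0 : ∀ i k l q m, CMDiff ∞ (fun y => TF R (e k) (e l) (e q) (e m) y *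
      d% (TF R (e k) (e l) (e q) (e m)) y (e i y)) := fun i k l q m =>
    (hT k l q m).mul (sd i k l q m)
  have s1 : ∀ i k l q m, CMDiff ∞ (fun y => 2 * (TF R (e k) (e l) (e q) (e m) y *
      d% (TF R (e k) (e l) (e q) (e m)) y (e i y))) := fun i k l q m =>
    contMDiff_const.mul (s0 i k l q m)
  have s2 : ∀ i k l q, CMDiff ∞ (fun y => ∑ m, 2 * (TF R (e k) (e l) (e q) (e m) y *
      d% (TF R (e k) (e l) (e q) (e m)) y (e i y))) :=
    fun i k l q => contMDiff_finsetSum fun m _ => s1 i k l q m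
  have s3 : ∀ i k l, CMDiff ∞ (fun y => ∑ q, ∑ m, 2 * (TF R (e k) (e l) (e q) (e m) y *
      d% (TF R (e k) (e l) (e q) (e m)) y (e i y))) :=
    fun i k l => contMDiff_finsetSum fun q _ => s2 i k l q
  have s4 : ∀ i k, CMDiff ∞ (fun y => ∑ l, ∑ q, ∑ m, 2 * (TF R (e k) (e l) (e q) (e m) y *
      d% (TF R (e k) (e l) (e q) (e m)) y (e i y))) :=
    fun i k => contMDiff_finsetSum fun l _ => s3 i k l
  have zero : ∀ (X Y Z W : Π x : M, TangentSpace I x), (X z = 0 ∨ Y z = 0 ∨ Z z = 0 ∨ W z = 0) →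
      TF R X Y Z W z = 0 := by
    intro X Y Z W h1
    unfold TF RF
    rcases h1 with h1 | h1 | h1 | h1 <;> rw [h1] <;> simp
  have hGF : ∀ i k l q m, d% (TF R (e k) (e l) (e q) (e m)) z (e i z) =
      GF cov R (e i) (e k) (e l) (e q) (e m) z := by
    intro i k l q m
    rw [dTF_field h hR (ha.sm k) (ha.sm l) (ha.sm q) (ha.sm m),
      zero (nabla cov (e i) (e k)) _ _ _ (Or.inl (ha.par k _)),
      zero _ (nabla cov (e i) (e l)) _ _ (Or.inr (Or.inl (ha.par l _))),
      zero _ _ (nabla cov (e i) (e q)) _ (Or.inr (Or.inr (Or.inl (ha.par q _)))),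
      zero _ _ _ (nabla cov (e i) (e m)) (Or.inr (Or.inr (Or.inr (ha.par m _))))]
    ring
  have hdd : ∀ i, d% (fun y => d% (nR hn R) y (e i y)) z (e i z) =
      2 * ∑ k, ∑ l, ∑ q, ∑ m, (GF cov R (e i) (e k) (e l) (e q) (e m) z) ^ 2 +
      2 * ∑ k, ∑ l, ∑ q, ∑ m, Af R z e k l m q * Hf R z e i i k l m q := by
    intro i
    rw [d_congr (hd i), d_sum Finset.univ fun k _ => s4 i k]
    simp only [Finset.mul_sum, ← Finset.sum_add_distrib]
    refine Finset.sum_congr rfl fun k _ => ?_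
    rw [d_sum Finset.univ fun l _ => s3 i k l]
    refine Finset.sum_congr rfl fun l _ => ?_
    rw [d_sum Finset.univ fun q _ => s2 i k l q]
    refine Finset.sum_congr rfl fun q _ => ?_
    rw [d_sum Finset.univ fun m _ => s1 i k l q m]
    refine Finset.sum_congr rfl fun m _ => ?_
    rw [d_constmul (s0 i k l q m), d_mul (hT k l q m) (sd i k l q m), hGF]
    unfold Af Hf
    ring
  have hrot : ∀ i, ∑ k, ∑ l, ∑ q, ∑ m, Af R z e k l m q * Hf R z e i i k l m q =
      ∑ k, ∑ l, ∑ m, ∑ q, Af R z e k l m q * Df cov R z e i i k l m q := by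
    intro i
    have h2 : ∑ k, ∑ l, ∑ q, ∑ m, Af R z e k l m q * Hf R z e i i k l m q =
        ∑ k, ∑ l, ∑ m, ∑ q, Af R z e k l m q * Hf R z e i i k l m q := by
      refine Finset.sum_congr rfl fun k _ => Finset.sum_congr rfl fun l _ => ?_
      rw [Finset.sum_comm]
    have h3 : ∑ k, ∑ l, ∑ m, ∑ q, Af R z e k l m q * Hf R z e i i k l m q =
        ∑ k, ∑ l, ∑ m, ∑ q, Af R z e k l m q * Df cov R z e i i k l m q +
        ∑ k, ∑ l, ∑ m, ∑ q, Af R z e k l m q * ∑ s, (sg cov z e i i k s * Af R z e s l m q +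
      sg cov z e i i l s * Af R z e k s m q + sg cov z e i i m s * Af R z e k l s q +
      sg cov z e i i q s * Af R z e k l m s) := by
      simp only [← Finset.sum_add_distrib]
      refine Finset.sum_congr rfl fun k _ => Finset.sum_congr rfl fun l _ =>
        Finset.sum_congr rfl fun m _ => Finset.sum_congr rfl fun q _ => ?_
      rw [hess_eq h hR ha hn, mul_add]
    rw [rot_zero (Af R z e) (sg cov z e i i) (fun a b => sg_skew h ha i i a b), add_zero] at h3
    rw [h2, h3]
  have hfin : ∑ k, ∑ l, ∑ m, ∑ q, (∑ i, Df cov R z e i i k l m q) * Af R z e k l m q =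
      ∑ i, ∑ k, ∑ l, ∑ m, ∑ q, Af R z e k l m q * Df cov R z e i i k l m q := by
    conv_rhs => rw [Finset.sum_comm]
    refine Finset.sum_congr rfl fun k _ => ?_
    conv_rhs => rw [Finset.sum_comm]
    refine Finset.sum_congr rfl fun l _ => ?_
    conv_rhs => rw [Finset.sum_comm]
    refine Finset.sum_congr rfl fun m _ => ?_
    conv_rhs => rw [Finset.sum_comm]
    refine Finset.sum_congr rfl fun q _ => ?_
    rw [Finset.sum_mul]
    exact Finset.sum_congr rfl fun i _ => mul_comm _ _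
  rw [hfin, Finset.sum_congr rfl fun i _ => hdd i, Finset.sum_add_distrib, ← Finset.mul_sum,
    ← Finset.mul_sum, Finset.sum_congr rfl fun i _ => hrot i]

end

end Pool.Agent.L5helper93.Geo
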