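import Mathlib
import Pool.Agent.L5helper93.Geo.Norm
import Pool.Agent.L5helper93.Geo.Touch
import Pool.Agent.L5helper93.Ein.Form

/-!
# Two-forms on a Riemannian manifold: the Bochner formula
-/

open Bundle Manifold ContDiff VectorField Filter
open scoped Topology

set_option linter.unusedSectionVars false
set_option linter.unusedVariables false
set_option linter.unusedSimpArgs false

noncomputable section

namespace Pool.Agent.L5helper93.Geo

open Pool.Agent.Results.MP_b296c2_gt.Riemannian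
open Pool.Agent.L5helper93.Ein

variable {E : Type*} [NormedAddCommGroup E] [NormedSpace ℝ E] [FiniteDimensional ℝ E]
  {H : Type*} [TopologicalSpace H] {I : ModelWithCorners ℝ E H}
  {M : Type*} [TopologicalSpace M] [ChartedSpace H M] [IsManifold I ∞ M]

/-- A field of bilinear forms on the tangent spaces. -/
abbrev BilField (I : ModelWithCorners ℝ E H) (M : Type*) [TopologicalSpace M]
    [ChartedSpace H M] : Type _ := Π x : M, TangentSpace I x →ₗ[ℝ] TangentSpace I x →ₗ[ℝ] ℝ

/-- A smooth two-form. -/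
structure IsForm (θ : BilField I M) : Prop where
  alt : ∀ x u, θ x u u = 0
  sm : ∀ ⦃X Y : Π x : M, TangentSpace I x⦄, CMDiff ∞ (T% X) → CMDiff ∞ (T% Y) →
    CMDiff ∞ (fun x => θ x (X x) (Y x))

/-- The form on vector fields. -/
def OF (θ : BilField I M) (X Y : Π x : M, TangentSpace I x) : M → ℝ := fun x => θ x (X x) (Y x)

/-- The covariant derivative of the form on vector fields. -/
def DO (cov : CovariantDerivative I E (TangentSpace I : M → Type _)) (θ : BilField I M)
    (V X Y : Π x : M, TangentSpace I x) : M → ℝ :=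
  fun x => d% (OF θ X Y) x (V x) - θ x (cov X x (V x)) (Y x) - θ x (X x) (cov Y x (V x))

theorem IsForm.skew {θ : BilField I M} (hθ : IsForm θ) (x : M) (u v : TangentSpace I x) :
    θ x u v = - θ x v u := by
  have h1 := hθ.alt x (u + v)
  simp only [map_add, LinearMap.add_apply, hθ.alt] at h1
  linarith

theorem OF_skew {θ : BilField I M} (hθ : IsForm θ) (X Y : Π x : M, TangentSpace I x) :
    OF θ X Y = fun x => - OF θ Y X x := by
  ext x
  exact hθ.skew x _ _

variable [RiemannianBundle (fun x : M => TangentSpace I x)]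
  [IsContMDiffRiemannianBundle I ∞ E (fun x : M => TangentSpace I x)]
  [T2Space M] [SigmaCompactSpace M] [Nontrivial E]
  {cov : CovariantDerivative I E (TangentSpace I : M → Type _)}

section

variable (h : IsLeviCivita cov) {θ : BilField I M} (hθ : IsForm θ)
  {V X Y Z W U : Π x : M, TangentSpace I x} (hV : CMDiff ∞ (T% V)) (hX : CMDiff ∞ (T% X))
  (hY : CMDiff ∞ (T% Y)) (hZ : CMDiff ∞ (T% Z)) (hW : CMDiff ∞ (T% W)) (hU : CMDiff ∞ (T% U))
  {p : M} {n : ℕ} {e : Fin n → Π x : M, TangentSpace I x} (ha : Adapted cov p e)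
  (hn : Module.finrank ℝ E = n)

include hθ

include h hV hX hY in
theorem sm_DO : CMDiff ∞ (DO cov θ V X Y) := by
  have h1 : CMDiff ∞ (fun x => d% (OF θ X Y) x (V x)) := smooth_d (hθ.sm hX hY) hV
  have h2 : CMDiff ∞ (fun x => θ x (nabla cov V X x) (Y x)) := hθ.sm (sm_nabla h hV hX) hY
  have h3 : CMDiff ∞ (fun x => θ x (X x) (nabla cov V Y x)) := hθ.sm hX (sm_nabla h hV hY)
  exact (h1.sub h2).sub h3

theorem DO_skew (x : M) : DO cov θ V X Y x = - DO cov θ V Y X x := by
  unfold DO
  rw [OF_skew hθ X Y, d_neg, hθ.skew x (cov X x (V x)), hθ.skew x (X x)]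
  ring

include h ha hn hX hY in
/-- Expansion of the derivative in the first argument. -/
theorem dO_expand (v : TangentSpace I p) : d% (OF θ X Y) p v =
    ∑ k, (inner ℝ (X p) (e k p) : ℝ) * d% (OF θ (e k) Y) p v + θ p (cov X p v) (Y p) := by
  have hev : OF θ X Y =ᶠ[𝓝 p] fun x => ∑ k, (inner ℝ (X x) (e k x) : ℝ) * OF θ (e k) Y x := by
    filter_upwards [ha.on] with x hx
    have hfd : FiniteDimensional ℝ (TangentSpace I x) := inferInstanceAs (FiniteDimensional ℝ E)
    have h1 := on_expand (V := TangentSpace I x) hn (fun s => e s x) hx (X x)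
    unfold OF
    conv_lhs => rw [h1]
    simp only [map_sum, map_smul, LinearMap.sum_apply, LinearMap.smul_apply, smul_eq_mul]
  have hi : ∀ k, CMDiff ∞ (fun x => (inner ℝ (X x) (e k x) : ℝ)) := fun k =>
    smooth_inner hX (ha.sm k)
  have ho : ∀ k, CMDiff ∞ (OF θ (e k) Y) := fun k => hθ.sm (ha.sm k) hY
  have hio : ∀ k, CMDiff ∞ (fun x => (inner ℝ (X x) (e k x) : ℝ) * OF θ (e k) Y x) := fun k =>
    (hi k).mul (ho k)
  rw [d_congr hev, d_sum Finset.univ fun k _ => hio k]
  have h2 : ∀ k, d% (fun x => (inner ℝ (X x) (e k x) : ℝ) * OF θ (e k) Y x) p v =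
      inner ℝ (X p) (e k p) * d% (OF θ (e k) Y) p v +
      (inner ℝ (cov X p v) (e k p) : ℝ) * θ p (e k p) (Y p) := by
    intro k
    rw [d_mul (hi k) (ho k), dinner h.metric hX (ha.sm k), ha.par, inner_zero_right, add_zero]
    unfold OF
    ring
  simp only [h2, Finset.sum_add_distrib]
  congr 1
  conv_rhs => rw [ha.expand hn (cov X p v)]
  simp only [map_sum, map_smul, LinearMap.sum_apply, LinearMap.smul_apply, smul_eq_mul]

include h ha hn hX hY in
theorem dO_zero1 (hp : X p = 0) (v : TangentSpace I p) :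
    d% (OF θ X Y) p v = θ p (cov X p v) (Y p) := by
  rw [dO_expand h hθ hX hY ha hn, hp]
  simp

include h ha hn hX hY in
theorem dO_zero2 (hp : Y p = 0) (v : TangentSpace I p) :
    d% (OF θ X Y) p v = θ p (X p) (cov Y p v) := by
  rw [OF_skew hθ X Y, d_neg, dO_zero1 h hθ hY hX ha hn hp, hθ.skew p (X p)]

include h ha hn hX hY in
/-- Expansion of the covariant derivative in the first argument. -/
theorem DO_expand : DO cov θ V X Y p = ∑ k, (inner ℝ (X p) (e k p) : ℝ) *
    DO cov θ V (e k) Y p := by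
  have h1 := dO_expand h hθ hX hY ha hn (V p)
  unfold DO
  rw [h1]
  have h2 : θ p (X p) (cov Y p (V p)) = ∑ k, (inner ℝ (X p) (e k p) : ℝ) *
      θ p (e k p) (cov Y p (V p)) := by
    conv_lhs => rw [ha.expand hn (X p)]
    simp only [map_sum, map_smul, LinearMap.sum_apply, LinearMap.smul_apply, smul_eq_mul]
  rw [h2]
  simp only [ha.par, map_zero, LinearMap.zero_apply, sub_zero, mul_sub, Finset.sum_sub_distrib]
  ring

include h ha hn hX hY hV in
/-- The covariant derivative of the form vanishes once its frame components do. -/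
theorem DO_vanish (h0 : ∀ i k l, DO cov θ (e i) (e k) (e l) p = 0) : DO cov θ V X Y p = 0 := by
  have h1 : ∀ i, DO cov θ (e i) X Y p = 0 := by
    intro i
    rw [DO_expand h hθ hX hY ha hn]
    refine Finset.sum_eq_zero fun k _ => ?_
    rw [DO_skew hθ, DO_expand h hθ hY (ha.sm k) ha hn]
    have : ∀ l, DO cov θ (e i) (e l) (e k) p = 0 := fun l => h0 i l k
    simp [this]
  have h2 : DO cov θ V X Y p = ∑ i, (inner ℝ (V p) (e i p) : ℝ) * DO cov θ (e i) X Y p := by
    have hexp := ha.expand hn (V p)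
    unfold DO
    conv_lhs => rw [hexp]
    simp only [map_sum, map_smul, LinearMap.sum_apply, LinearMap.smul_apply, smul_eq_mul, mul_sub,
      Finset.sum_sub_distrib]
  rw [h2]
  simp [h1]

/-- Components of the form. -/
def wf (θ : BilField I M) (p : M) {n : ℕ} (e : Fin n → Π x : M, TangentSpace I x)
    (k l : Fin n) : ℝ := θ p (e k p) (e l p)

/-- Second derivatives of the components. -/
def Ho (θ : BilField I M) (p : M) {n : ℕ} (e : Fin n → Π x : M, TangentSpace I x)
    (i j k l : Fin n) : ℝ := d% (fun x => d% (OF θ (e k) (e l)) x (e j x)) p (e i p)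

/-- Components of the second covariant derivative. -/
def Dw (cov : CovariantDerivative I E (TangentSpace I : M → Type _)) (θ : BilField I M) (p : M)
    {n : ℕ} (e : Fin n → Π x : M, TangentSpace I x) (i j k l : Fin n) : ℝ :=
  d% (DO cov θ (e j) (e k) (e l)) p (e i p)

omit hθ in
theorem wf_skew (hθ : IsForm θ) (a b : Fin n) : wf θ p e a b = - wf θ p e b a := hθ.skew p _ _

include h ha hn in
theorem hessO (i j k l : Fin n) : Ho θ p e i j k l = Dw cov θ p e i j k l +
    ∑ s, (sg cov p e i j k s * wf θ p e s l + sg cov p e i j l s * wf θ p e k s) := by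
  have e0 : (fun x => d% (OF θ (e k) (e l)) x (e j x)) = fun x =>
      DO cov θ (e j) (e k) (e l) x + OF θ (nabla cov (e j) (e k)) (e l) x +
      OF θ (e k) (nabla cov (e j) (e l)) x := by
    ext x
    unfold DO OF nabla
    ring
  have s := fun a b => sm_nabla h (ha.sm a) (ha.sm b)
  have m0 := sm_DO h hθ (ha.sm j) (ha.sm k) (ha.sm l)
  have m1 : CMDiff ∞ (OF θ (nabla cov (e j) (e k)) (e l)) := hθ.sm (s j k) (ha.sm l)
  have m2 : CMDiff ∞ (OF θ (e k) (nabla cov (e j) (e l))) := hθ.sm (ha.sm k) (s j l)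
  have n1 : CMDiff ∞ (fun x => DO cov θ (e j) (e k) (e l) x +
      OF θ (nabla cov (e j) (e k)) (e l) x) := m0.add m1
  have z : ∀ a b, nabla cov (e a) (e b) p = 0 := fun a b => ha.par b _
  unfold Ho
  rw [e0, d_add n1 m2, d_add m0 m1, dO_zero1 h hθ (s j k) (ha.sm l) ha hn (z j k),
    dO_zero2 h hθ (ha.sm k) (s j l) ha hn (z j l)]
  have x1 : θ p (cov (nabla cov (e j) (e k)) p (e i p)) (e l p) =
      ∑ s, sg cov p e i j k s * wf θ p e s l := by
    conv_lhs => rw [ha.expand hn (cov (nabla cov (e j) (e k)) p (e i p))]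
    simp only [map_sum, map_smul, LinearMap.sum_apply, LinearMap.smul_apply, smul_eq_mul]
    rfl
  have x2 : θ p (e k p) (cov (nabla cov (e j) (e l)) p (e i p)) =
      ∑ s, sg cov p e i j l s * wf θ p e k s := by
    conv_lhs => rw [ha.expand hn (cov (nabla cov (e j) (e l)) p (e i p))]
    simp only [map_sum, map_smul, smul_eq_mul]
    rfl
  rw [x1, x2, Finset.sum_add_distrib]
  unfold Dw
  ring

include h ha hn in
theorem Dw_comm {R : CurvField I M} (hR : IsRiemannTensor cov R) (i j k l : Fin n) :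
    Dw cov θ p e i j k l - Dw cov θ p e j i k l =
    ∑ s, (Af R p e i j k s * wf θ p e s l + Af R p e i j l s * wf θ p e k s) := by
  have hbr : mlieBracket I (e i) (e j) p = 0 := by
    rw [← tf h (ha.sm i) (ha.sm j) p, ha.par, ha.par, sub_self]
  have hO : CMDiff ∞ (OF θ (e k) (e l)) := hθ.sm (ha.sm k) (ha.sm l)
  have hH : Ho θ p e i j k l = Ho θ p e j i k l := by
    have := comm_fun hO (ha.sm i) (ha.sm j) (smooth_d hO (ha.sm i)) (smooth_d hO (ha.sm j)) p
    rw [hbr, map_zero] at this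
    unfold Ho
    linarith
  have hS : ∀ a b, sg cov p e i j a b - sg cov p e j i a b = - Af R p e i j a b := by
    intro a b
    have h1 : R p (e i p) (e j p) (e a p) = Sf cov p e i j a - Sf cov p e j i a := by
      rw [hR (ha.sm i) (ha.sm j) (ha.sm a) p]
      unfold curv Sf
      rw [hbr, map_zero, sub_zero]
    have h2 := TF_a2 h hR (e i) (e j) (e a) (e b) p
    have h3 : TF R (e i) (e j) (e a) (e b) p = sg cov p e i j a b - sg cov p e j i a b := by
      unfold TF RF sg
      rw [h1, inner_sub_left]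
    unfold Af
    linarith
  rw [hessO h hθ ha hn, hessO h hθ ha hn] at hH
  have key : Dw cov θ p e i j k l - Dw cov θ p e j i k l =
      ∑ s, (- (sg cov p e i j k s - sg cov p e j i k s) * wf θ p e s l
        - (sg cov p e i j l s - sg cov p e j i l s) * wf θ p e k s) := by
    have e2 : ∑ s, (- (sg cov p e i j k s - sg cov p e j i k s) * wf θ p e s l
        - (sg cov p e i j l s - sg cov p e j i l s) * wf θ p e k s) =
        ∑ s, (sg cov p e j i k s * wf θ p e s l + sg cov p e j i l s * wf θ p e k s) -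
        ∑ s, (sg cov p e i j k s * wf θ p e s l + sg cov p e i j l s * wf θ p e k s) := by
      rw [← Finset.sum_sub_distrib]
      refine Finset.sum_congr rfl fun s _ => ?_
      ring
    rw [e2]
    linarith
  rw [key]
  refine Finset.sum_congr rfl fun s _ => ?_
  rw [hS, hS]
  ring

theorem Dw_skew (i j k l : Fin n) : Dw cov θ p e i j k l = - Dw cov θ p e i j l k := by
  unfold Dw
  have e1 : DO cov θ (e j) (e k) (e l) = fun x => - DO cov θ (e j) (e l) (e k) x := by
    ext x
    exact DO_skew hθ x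
  rw [e1, d_neg]

include h ha in
theorem Dw_closed (hc : ∀ ⦃V X Y : Π x : M, TangentSpace I x⦄, CMDiff ∞ (T% V) →
    CMDiff ∞ (T% X) → CMDiff ∞ (T% Y) → ∀ x, DO cov θ V X Y x + DO cov θ X Y V x +
      DO cov θ Y V X x = 0) (i j k l : Fin n) :
    Dw cov θ p e i j k l + Dw cov θ p e i k l j + Dw cov θ p e i l j k = 0 := by
  unfold Dw
  have m0 := fun a b c => sm_DO h hθ (ha.sm a) (ha.sm b) (ha.sm c)
  have m1 : CMDiff ∞ (fun x => DO cov θ (e j) (e k) (e l) x + DO cov θ (e k) (e l) (e j) x) :=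
    (m0 j k l).add (m0 k l j)
  rw [← d_add (m0 j k l) (m0 k l j), ← d_add m1 (m0 l j k)]
  have e1 : (fun x => DO cov θ (e j) (e k) (e l) x + DO cov θ (e k) (e l) (e j) x +
      DO cov θ (e l) (e j) (e k) x) = fun _ => (0 : ℝ) := by
    ext x
    exact hc (ha.sm j) (ha.sm k) (ha.sm l) x
  rw [e1, mvfderiv_const]
  rfl

include h ha in
theorem Dw_div (hd : ∀ᶠ x in 𝓝 p, ∀ l, ∑ i, DO cov θ (e i) (e i) (e l) x = 0) (j l : Fin n) :
    ∑ i, Dw cov θ p e j i i l = 0 := by
  unfold Dw
  rw [← d_sum Finset.univ fun i _ => sm_DO h hθ (ha.sm i) (ha.sm i) (ha.sm l),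
    d_zero_of_eventually (hd.mono fun x hx => hx l)]
  rfl

end

/-! ### The norm of the form -/

/-- The sum of the squares of a bilinear form on frames. -/
def S2 {V : Type*} [NormedAddCommGroup V] [InnerProductSpace ℝ V] {n : ℕ}
    (β : V →ₗ[ℝ] V →ₗ[ℝ] ℝ) (b c : Fin n → V) : ℝ := ∑ k, ∑ l, β (b k) (c l) ^ 2

theorem riesz_sum {V : Type*} [NormedAddCommGroup V] [InnerProductSpace ℝ V]
    [FiniteDimensional ℝ V] {n : ℕ} (φ : V →ₗ[ℝ] ℝ) (b b' : OrthonormalBasis (Fin n) ℝ V) :
    ∑ l, φ (b l) ^ 2 = ∑ l, φ (b' l) ^ 2 := by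
  obtain ⟨z, hz⟩ : ∃ z : V, ∀ v, φ v = inner ℝ z v := by
    refine ⟨(InnerProductSpace.toDual ℝ V).symm (LinearMap.toContinuousLinearMap φ), fun v => ?_⟩
    rw [InnerProductSpace.toDual_symm_apply]
    rfl
  simp only [hz, OrthonormalBasis.sum_sq_inner_left]

theorem S2_last {V : Type*} [NormedAddCommGroup V] [InnerProductSpace ℝ V]
    [FiniteDimensional ℝ V] {n : ℕ} (β : V →ₗ[ℝ] V →ₗ[ℝ] ℝ) (c : Fin n → V)
    (b b' : OrthonormalBasis (Fin n) ℝ V) : S2 β c b = S2 β c b' := by
  unfold S2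
  exact Finset.sum_congr rfl fun k _ => riesz_sum (β (c k)) b b'

theorem S2_swap {V : Type*} [NormedAddCommGroup V] [InnerProductSpace ℝ V]
    {n : ℕ} {β : V →ₗ[ℝ] V →ₗ[ℝ] ℝ} (hβ : ∀ u v, β u v = - β v u) (b c : Fin n → V) :
    S2 β b c = S2 β c b := by
  unfold S2
  rw [Finset.sum_comm]
  refine Finset.sum_congr rfl fun k _ => Finset.sum_congr rfl fun l _ => ?_
  rw [hβ]
  ring

theorem S2_indep {V : Type*} [NormedAddCommGroup V] [InnerProductSpace ℝ V]
    [FiniteDimensional ℝ V] {n : ℕ} {β : V →ₗ[ℝ] V →ₗ[ℝ] ℝ} (hβ : ∀ u v, β u v = - β v u)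
    (b b' : OrthonormalBasis (Fin n) ℝ V) : S2 β b b = S2 β b' b' := by
  rw [S2_last β b b b', S2_swap hβ b b', S2_last β b' b b']

/-- The squared norm of the form. -/
def nO {n : ℕ} (hn : Module.finrank ℝ E = n) (θ : BilField I M) (x : M) : ℝ :=
  S2 (θ x) (onb hn x) (onb hn x)

section

variable (h : IsLeviCivita cov) {θ : BilField I M} (hθ : IsForm θ)
  {p : M} {n : ℕ} {e : Fin n → Π x : M, TangentSpace I x}
  (hn : Module.finrank ℝ E = n)

include hθ

theorem nO_eq {x : M} (w : Fin n → TangentSpace I x)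
    (hw : ∀ i j, inner ℝ (w i) (w j) = if i = j then (1 : ℝ) else 0) :
    nO hn θ x = S2 (θ x) w w := by
  have hfd : FiniteDimensional ℝ (TangentSpace I x) := inferInstanceAs (FiniteDimensional ℝ E)
  obtain ⟨b, hb⟩ := exists_onb hn x w hw
  have e1 : (b : Fin n → TangentSpace I x) = w := by
    ext i; exact hb i
  rw [← e1]
  exact S2_indep (hθ.skew x) _ _

theorem nO_near (ha : Adapted cov p e) : ∀ᶠ x in 𝓝 p, nO hn θ x =
    ∑ k, ∑ l, (OF θ (e k) (e l) x) ^ 2 := by
  filter_upwards [ha.on] with x hx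
  exact nO_eq hθ hn (fun i => e i x) hx

include h

theorem smooth_nO : CMDiff ∞ (nO hn θ) := by
  intro p
  obtain ⟨e, h1, h2, h3, h4⟩ := exists_on_frame h.metric p n (onb hn p) (by
    intro i j
    exact orthonormal_iff_ite.1 (onb hn p).orthonormal i j)
  have ha : Adapted cov p e := ⟨h1, h3, h4⟩
  have h5 := nO_near hθ hn ha
  have : CMDiff ∞ (fun x => ∑ k, ∑ l, (OF θ (e k) (e l) x) ^ 2) := by
    refine contMDiff_finsetSum fun k _ => contMDiff_finsetSum fun l _ => ?_
    exact (hθ.sm (ha.sm k) (ha.sm l)).pow 2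
  exact (this p).congr_of_eventuallyEq h5

theorem nO_lap {z : M} {e : Fin n → Π x : M, TangentSpace I x} (ha : Adapted cov z e) :
    ∑ i, d% (fun y => d% (nO hn θ) y (e i y)) z (e i z) =
      2 * ∑ i, ∑ k, ∑ l, (DO cov θ (e i) (e k) (e l) z) ^ 2 +
      2 * ∑ k, ∑ l, (∑ i, Dw cov θ z e i i k l) * wf θ z e k l := by
  have hT : ∀ k l, CMDiff ∞ (OF θ (e k) (e l)) := fun k l => hθ.sm (ha.sm k) (ha.sm l)
  have hT2 : ∀ k l, CMDiff ∞ (fun x => OF θ (e k) (e l) x ^ 2) := fun k l => (hT k l).pow 2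
  have hnear := nO_near hθ hn ha
  have hd : ∀ i, (fun y => d% (nO hn θ) y (e i y)) =ᶠ[𝓝 z] fun y => ∑ k, ∑ l,
      2 * (OF θ (e k) (e l) y * d% (OF θ (e k) (e l)) y (e i y)) := by
    intro i
    filter_upwards [hnear.eventually_nhds] with y hy
    rw [d_congr hy]
    have s4 : ∀ k, CMDiff ∞ (fun x => ∑ l, OF θ (e k) (e l) x ^ 2) :=
      fun k => contMDiff_finsetSum fun l _ => hT2 k l
    rw [d_sum Finset.univ fun k _ => s4 k]
    refine Finset.sum_congr rfl fun k _ => ?_
    rw [d_sum Finset.univ fun l _ => hT2 k l]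
    refine Finset.sum_congr rfl fun l _ => ?_
    have e1 : (fun x => OF θ (e k) (e l) x ^ 2) =
        fun x => OF θ (e k) (e l) x * OF θ (e k) (e l) x := by
      ext x; ring
    rw [e1, d_mul (hT k l) (hT k l)]
    ring
  have sd : ∀ i k l, CMDiff ∞ (fun y => d% (OF θ (e k) (e l)) y (e i y)) :=
    fun i k l => smooth_d (hT k l) (ha.sm i)
  have s0 : ∀ i k l, CMDiff ∞ (fun y => OF θ (e k) (e l) y * d% (OF θ (e k) (e l)) y (e i y)) :=
    fun i k l => (hT k l).mul (sd i k l)
  have s1 : ∀ i k l, CMDiff ∞ (fun y => 2 * (OF θ (e k) (e l) y *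
      d% (OF θ (e k) (e l)) y (e i y))) := fun i k l => contMDiff_const.mul (s0 i k l)
  have s2 : ∀ i k, CMDiff ∞ (fun y => ∑ l, 2 * (OF θ (e k) (e l) y *
      d% (OF θ (e k) (e l)) y (e i y))) := fun i k => contMDiff_finsetSum fun l _ => s1 i k l
  have hDO : ∀ i k l, d% (OF θ (e k) (e l)) z (e i z) = DO cov θ (e i) (e k) (e l) z := by
    intro i k l
    unfold DO
    rw [ha.par, ha.par]
    simp
  have hdd : ∀ i, d% (fun y => d% (nO hn θ) y (e i y)) z (e i z) =
      2 * ∑ k, ∑ l, (DO cov θ (e i) (e k) (e l) z) ^ 2 +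
      2 * ∑ k, ∑ l, wf θ z e k l * Ho θ z e i i k l := by
    intro i
    rw [d_congr (hd i), d_sum Finset.univ fun k _ => s2 i k]
    simp only [Finset.mul_sum, ← Finset.sum_add_distrib]
    refine Finset.sum_congr rfl fun k _ => ?_
    rw [d_sum Finset.univ fun l _ => s1 i k l]
    refine Finset.sum_congr rfl fun l _ => ?_
    rw [d_constmul (s0 i k l), d_mul (hT k l) (sd i k l), hDO]
    unfold wf Ho OF
    ring
  have hrot : ∀ i, ∑ k, ∑ l, wf θ z e k l * Ho θ z e i i k l =
      ∑ k, ∑ l, wf θ z e k l * Dw cov θ z e i i k l := by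
    intro i
    have e3 : ∀ k l, wf θ z e k l * Ho θ z e i i k l = wf θ z e k l * Dw cov θ z e i i k l +
        wf θ z e k l * ∑ s, (sg cov z e i i k s * wf θ z e s l +
          sg cov z e i i l s * wf θ z e k s) := by
      intro k l
      rw [hessO h hθ ha hn, mul_add]
    simp only [e3, Finset.sum_add_distrib]
    have e4 : ∑ k, ∑ l, wf θ z e k l * (∑ s, sg cov z e i i k s * wf θ z e s l +
        ∑ s, sg cov z e i i l s * wf θ z e k s) = 0 := by
      simp only [mul_add, Finset.sum_add_distrib, Finset.mul_sum]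
      have a1 : ∑ k, ∑ l, ∑ s, wf θ z e k l * (sg cov z e i i k s * wf θ z e s l) = 0 := by
        have : ∑ k, ∑ l, ∑ s, wf θ z e k l * (sg cov z e i i k s * wf θ z e s l) =
            - ∑ k, ∑ l, ∑ s, wf θ z e k l * (sg cov z e i i k s * wf θ z e s l) := by
          conv_lhs => rw [Finset.sum_comm]
          conv_rhs => rw [Finset.sum_comm]
          rw [← Finset.sum_neg_distrib]
          refine Finset.sum_congr rfl fun l _ => ?_
          conv_lhs => rw [Finset.sum_comm]
          rw [← Finset.sum_neg_distrib]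
          refine Finset.sum_congr rfl fun s _ => ?_
          rw [← Finset.sum_neg_distrib]
          refine Finset.sum_congr rfl fun k _ => ?_
          rw [sg_skew h ha i i k s]
          ring
        linarith
      have a2 : ∑ k, ∑ l, ∑ s, wf θ z e k l * (sg cov z e i i l s * wf θ z e k s) = 0 := by
        refine Finset.sum_eq_zero fun k _ => ?_
        have : ∑ l, ∑ s, wf θ z e k l * (sg cov z e i i l s * wf θ z e k s) =
            - ∑ l, ∑ s, wf θ z e k l * (sg cov z e i i l s * wf θ z e k s) := by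
          conv_lhs => rw [Finset.sum_comm]
          rw [← Finset.sum_neg_distrib]
          refine Finset.sum_congr rfl fun s _ => ?_
          rw [← Finset.sum_neg_distrib]
          refine Finset.sum_congr rfl fun l _ => ?_
          rw [sg_skew h ha i i l s]
          ring
        linarith
      rw [a1, a2, add_zero]
    rw [e4, add_zero]
  have hfin : ∑ k, ∑ l, (∑ i, Dw cov θ z e i i k l) * wf θ z e k l =
      ∑ i, ∑ k, ∑ l, wf θ z e k l * Dw cov θ z e i i k l := by
    conv_rhs => rw [Finset.sum_comm]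
    refine Finset.sum_congr rfl fun k _ => ?_
    conv_rhs => rw [Finset.sum_comm]
    refine Finset.sum_congr rfl fun l _ => ?_
    rw [Finset.sum_mul]
    exact Finset.sum_congr rfl fun i _ => mul_comm _ _
  rw [hfin, Finset.sum_congr rfl fun i _ => hdd i, Finset.sum_add_distrib, ← Finset.mul_sum,
    ← Finset.mul_sum, Finset.sum_congr rfl fun i _ => hrot i]

end

end Pool.Agent.L5helper93.Geo
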