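import Mathlib
import Pool.Agent.L5helper93.Geo.Form

/-!
# Curvature tensors commuting with a skew endomorphism
-/

set_option linter.unusedSectionVars false
set_option linter.unusedVariables false
set_option linter.unusedSimpArgs false

noncomputable section

namespace Pool.Agent.L5helper93.Geo

open Pool.Agent.Results.MP_b296c2_gt

/-- A curvature-like form invariant under a complex structure with vanishing holomorphic sectional
curvatures is zero. -/
theorem hol_zero {V : Type*} [AddCommGroup V] (D : V → V → V → V → ℝ) (J : V → V)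
    (add : ∀ x x' y z w, D (x + x') y z w = D x y z w + D x' y z w)
    (a1 : ∀ x y z w, D x y z w = - D y x z w) (a2 : ∀ x y z w, D x y z w = - D x y w z)
    (bi : ∀ x y z w, D x y z w + D y z x w + D z x y w = 0)
    (Jadd : ∀ x y, J (x + y) = J x + J y) (J2 : ∀ x, J (J x) = - x)
    (hJ : ∀ x y z w, D x y (J z) (J w) = D x y z w)
    (hf : ∀ v, D v (J v) (J v) v = 0) (x y z w : V) : D x y z w = 0 := by
  have pair : ∀ a b c d, D a b c d = D c d a b := by
    intro a b c d
    have h1 := bi a b c d
    have h2 := bi b c d a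
    have h3 := bi c d a b
    have h4 := bi d a b c
    have := a1 c a b d
    have := a2 a c b d
    have := a1 b c a d
    have := a2 b c a d
    have := a2 b c d a
    have := a1 c d b a
    have := a2 c d b a
    have := a1 c d a b
    have := a2 c d a b
    have := a1 d b c a
    have := a2 d b c a
    have := a1 b d c a
    have := a2 b d c a
    have := a1 d a c b
    have := a2 d a c b
    have := a2 d a b c
    have := a1 a c d b
    have := a2 a c d b
    have := a1 a b c d
    have := a2 a b c d
    have := a1 b a d c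
    have := a1 a d b c
    have := a1 d a b c
    have := a2 a d b c
    have := a1 b d a c
    have := a2 b d a c
    have := a1 a b d c
    have := a1 c a d b
    have := a2 c a d b
    linarith
  have add2 : ∀ x y y' z w, D x (y + y') z w = D x y z w + D x y' z w := by
    intro x y y' z w
    rw [a1, add, a1 y, a1 y']
    ring
  have add3 : ∀ x y z z' w, D x y (z + z') w = D x y z w + D x y z' w := by
    intro x y z z' w
    rw [pair, add, pair z, pair z']
  have add4 : ∀ x y z w w', D x y z (w + w') = D x y z w + D x y z w' := by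
    intro x y z w w'
    rw [a2, add3, a2 x y w, a2 x y w']
    ring
  have zero1 : ∀ y z w, D 0 y z w = 0 := by
    intro y z w
    have := add 0 0 y z w
    rw [add_zero] at this
    linarith
  have neg1 : ∀ x y z w, D (-x) y z w = - D x y z w := by
    intro x y z w
    have := add x (-x) y z w
    rw [add_neg_cancel, zero1] at this
    linarith
  have neg2 : ∀ x y z w, D x (-y) z w = - D x y z w := by
    intro x y z w
    rw [a1, neg1, a1 y]
    ring
  have neg3 : ∀ x y z w, D x y (-z) w = - D x y z w := by
    intro x y z w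
    rw [pair, neg1, pair z]
  have neg4 : ∀ x y z w, D x y z (-w) = - D x y z w := by
    intro x y z w
    rw [a2, neg3, a2 x y w]
    ring
  have J12 : ∀ x y z w, D (J x) (J y) z w = D x y z w := by
    intro x y z w
    rw [pair, hJ, pair]
  have Jneg : ∀ x, J (-x) = - J x := by
    intro x
    have h0 : J 0 = 0 := by
      have := Jadd 0 0
      rw [add_zero] at this
      exact left_eq_add.1 this
    have := Jadd x (-x)
    rw [add_neg_cancel, h0] at this
    exact (neg_eq_of_add_eq_zero_right this.symm).symm
  -- the sectional form vanishes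
  have sJ : ∀ x y, D x (J y) (J x) y = D x (J y) (J y) x := by
    intro x y
    rw [← hJ x (J y) (J x) y, J2, neg3, a2 x (J y) x (J y)]
    ring
  have s1 : ∀ x y, D x (J x) (J y) y = D x y y x + D x (J y) (J y) x := by
    intro x y
    have h1 := bi x (J x) (J y) y
    have h2 : D (J x) (J y) x y = - D x y y x := by
      rw [J12, a2]
    have h3 : D (J y) x (J x) y = - D x (J y) (J y) x := by
      rw [a1, sJ]
    linarith
  have key : ∀ x y, D x y y x + 3 * D x (J y) (J y) x = 0 := by
    intro x y
    have h1 := hf (x + y)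
    have h2 := hf (x + -y)
    have h3 := hf x
    have h4 := hf y
    simp only [Jadd, Jneg, add, add2, add3, add4, neg1, neg2, neg3, neg4] at h1 h2
    have e1 : D y (J y) (J x) x = D x (J x) (J y) y := by
      rw [pair, a1, a2]
      ring
    have e2 : D y (J x) (J x) y = D x (J y) (J y) x := by
      rw [← sJ, ← J12 y (J x), J2, neg2, a1]
      ring
    have e3 : D y (J x) (J y) x = D x (J y) (J y) x := by
      rw [← J12 y (J x), J2, neg2, a1]
      ring
    have e4 := sJ x y
    have e5 := s1 x y
    linarith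
  have hs : ∀ x y, D x y y x = 0 := by
    intro x y
    have h1 := key x y
    have h2 := key x (J y)
    rw [J2, neg2, neg3] at h2
    linarith
  have h5 : ∀ x y w, D x y y w = 0 := by
    intro x y w
    have h1 := hs (x + w) y
    simp only [add, add4] at h1
    have h2 := pair w y y x
    have h3 := a1 y x w y
    have h4 := a2 x y w y
    have := hs x y
    have := hs w y
    linarith
  have h6 : ∀ x y z w, D x y z w = - D x z y w := by
    intro x y z w
    have h1 := h5 x (y + z) w
    simp only [add2, add3] at h1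
    have := h5 x y w
    have := h5 x z w
    linarith
  have b := bi x y z w
  have c1 := h6 y z x w
  have c2 := a1 y x z w
  have c3 := h6 z x y w
  have c4 := a1 z y x w
  linarith

section Contract

variable {V : Type*} [NormedAddCommGroup V] [InnerProductSpace ℝ V] [FiniteDimensional ℝ V]
  {R : V →ₗ[ℝ] V →ₗ[ℝ] V →ₗ[ℝ] V} (h : Pointwise.IsCurvatureTensor R) {B : V →ₗ[ℝ] V}
  (hB : ∀ u v, inner ℝ (B u) v = - inner ℝ u (B v)) (hRB : ∀ x y z, R x y (B z) = B (R x y z))
  {n : ℕ} (b : OrthonormalBasis (Fin n) ℝ V)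

include hB in
theorem exch {W : Type*} [AddCommGroup W] [Module ℝ W] (F : V →ₗ[ℝ] V →ₗ[ℝ] W) :
    ∑ i, F (B (b i)) (b i) = - ∑ i, F (b i) (B (b i)) := by
  have e : ∀ i, B (b i) = ∑ j, (inner ℝ (b j) (B (b i)) : ℝ) • b j := by
    intro i
    have := b.sum_repr (B (b i))
    simp only [b.repr_apply_apply] at this
    exact this.symm
  have h1 : ∀ i, F (B (b i)) (b i) = ∑ j, (inner ℝ (b j) (B (b i)) : ℝ) • F (b j) (b i) := by
    intro i
    conv_lhs => rw [e i]
    simp only [map_sum, map_smul, LinearMap.sum_apply, LinearMap.smul_apply]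
  have h2 : ∀ i, F (b i) (B (b i)) = ∑ j, (inner ℝ (b j) (B (b i)) : ℝ) • F (b i) (b j) := by
    intro i
    conv_lhs => rw [e i]
    simp only [map_sum, map_smul]
  simp only [h1, h2]
  rw [Finset.sum_comm, ← Finset.sum_neg_distrib]
  refine Finset.sum_congr rfl fun i _ => ?_
  rw [← Finset.sum_neg_distrib]
  refine Finset.sum_congr rfl fun j _ => ?_
  rw [← neg_smul]
  congr 1
  have := hB (b i) (b j)
  rw [real_inner_comm] at this
  linarith

include h hB hRB in
theorem RB_swap (x y z : V) : R (B x) y z = - R x (B y) z := by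
  apply ext_inner_right ℝ
  intro w
  rw [inner_neg_left, h.pair (B x) y z w, hRB, hB, h.pair x (B y) z w]

/-- The Ricci endomorphism. -/
def RcV (R : V →ₗ[ℝ] V →ₗ[ℝ] V →ₗ[ℝ] V) (b : OrthonormalBasis (Fin n) ℝ V) (x : V) : V :=
  ∑ i, R x (b i) (b i)

include h hB hRB in
theorem RcV_comm (x : V) : RcV R b (B x) = B (RcV R b x) := by
  unfold RcV
  have h1 : ∀ i, R (B x) (b i) (b i) = - R x (B (b i)) (b i) := fun i => RB_swap h hB hRB _ _ _
  simp only [h1, Finset.sum_neg_distrib]
  rw [exch hB b (R x), neg_neg, map_sum]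
  simp only [hRB]

include h hB hRB in
theorem sum_RB (v : V) : ∑ i, R (B (b i)) (b i) v = (2 : ℝ) • RcV R b (B v) := by
  have h1 : ∀ i, R (B (b i)) (b i) v = R v (b i) (B (b i)) - R v (B (b i)) (b i) := by
    intro i
    have h2 := h.bianchi (B (b i)) (b i) v
    have h3 := h.antisymm (b i) v (B (b i))
    rw [h3] at h2
    have h4 : R (B (b i)) (b i) v = R v (b i) (B (b i)) - R v (B (b i)) (b i) +
      (R (B (b i)) (b i) v + -R v (b i) (B (b i)) + R v (B (b i)) (b i)) := by abel
    rw [h4, h2, add_zero]
  simp only [h1, Finset.sum_sub_distrib]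
  rw [exch hB b (R v), sub_neg_eq_add, ← two_smul ℝ, RcV_comm h hB hRB]
  unfold RcV
  rw [map_sum]
  simp only [hRB]

include h hB hRB in
/-- The contraction of the polarization. -/
theorem contract {k : ℝ} (hf : ∀ v, inner ℝ (R v (B v) (B v)) v =
    k * (inner ℝ v v * inner ℝ (B v) (B v))) (v : V) :
    8 * inner ℝ (RcV R b (B v)) (B v) = k * (((n : ℝ) + 4) * inner ℝ (B v) (B v) +
      (∑ i, inner ℝ (B (b i)) (B (b i))) * inner ℝ v v) := by
  -- second order part
  have hq : ∀ e : V, inner ℝ (R e (B e) (B v)) v + inner ℝ (R e (B v) (B e)) v +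
      inner ℝ (R e (B v) (B v)) e + inner ℝ (R v (B e) (B e)) v + inner ℝ (R v (B e) (B v)) e +
      inner ℝ (R v (B v) (B e)) e = k * (4 * (inner ℝ e v * inner ℝ (B e) (B v)) +
        inner ℝ e e * inner ℝ (B v) (B v) + inner ℝ v v * inner ℝ (B e) (B e)) := by
    intro e
    have h1 := hf (v + e)
    have h2 := hf (v - e)
    have h3 := hf v
    have h4 := hf e
    have c1 := real_inner_comm v e
    have c2 := real_inner_comm (B v) (B e)
    simp only [map_add, map_sub, LinearMap.add_apply, LinearMap.sub_apply, inner_add_left,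
      inner_add_right, inner_sub_left, inner_sub_right] at h1 h2
    rw [c1, c2] at h1 h2
    rw [c1, c2]
    linarith
  have hs := Finset.sum_congr rfl fun (i : Fin n) (_ : i ∈ Finset.univ) => hq (b i)
  simp only [Finset.sum_add_distrib, ← Finset.mul_sum] at hs
  -- the six terms
  have t6 : ∑ i, inner ℝ (R v (B v) (B (b i))) (b i) =
      2 * inner ℝ (RcV R b (B v)) (B v) := by
    have h1 : ∀ i, inner ℝ (R v (B v) (B (b i))) (b i) = inner ℝ (R (B (b i)) (b i) v) (B v) :=
      fun i => h.pair _ _ _ _
    simp only [h1]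
    rw [← sum_inner, sum_RB h hB hRB, real_inner_smul_left]
  have t1 : ∑ i, inner ℝ (R (b i) (B (b i)) (B v)) v =
      2 * inner ℝ (RcV R b (B v)) (B v) := by
    rw [← t6]
    refine Finset.sum_congr rfl fun i _ => ?_
    rw [h.pair (b i), h.antisymm (B v) v, inner_neg_left, h.skew v (B v) (B (b i)),
      real_inner_comm]
  have t3 : ∑ i, inner ℝ (R (b i) (B v) (B v)) (b i) = inner ℝ (RcV R b (B v)) (B v) := by
    unfold RcV
    rw [sum_inner]
    refine Finset.sum_congr rfl fun i _ => ?_
    rw [h.antisymm, inner_neg_left, h.skew (B v) (b i) (B v), real_inner_comm]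
    ring
  have t4 : ∑ i, inner ℝ (R v (B (b i)) (B (b i))) v = inner ℝ (RcV R b (B v)) (B v) := by
    unfold RcV
    rw [sum_inner]
    refine Finset.sum_congr rfl fun i _ => ?_
    have h1 := RB_swap h hB hRB v (b i) (B (b i))
    have h2 : R v (B (b i)) (B (b i)) = - R (B v) (b i) (B (b i)) := by
      rw [h1, neg_neg]
    rw [h2, hRB, inner_neg_left, hB]
    ring
  have t2 : ∑ i, inner ℝ (R (b i) (B v) (B (b i))) v = inner ℝ (RcV R b (B v)) (B v) := by
    unfold RcV
    rw [sum_inner]
    refine Finset.sum_congr rfl fun i _ => ?_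
    rw [h.antisymm, hRB, inner_neg_left, hB]
    ring
  have t5 : ∑ i, inner ℝ (R v (B (b i)) (B v)) (b i) = inner ℝ (RcV R b (B v)) (B v) := by
    unfold RcV
    rw [sum_inner]
    refine Finset.sum_congr rfl fun i _ => ?_
    have h1 := RB_swap h hB hRB v (b i) (B v)
    have h2 : R v (B (b i)) (B v) = - R (B v) (b i) (B v) := by
      rw [h1, neg_neg]
    rw [h2, inner_neg_left, h.skew (B v) (b i) (B v), real_inner_comm]
    ring
  have n1 : ∑ i, inner ℝ (b i) v * inner ℝ (B (b i)) (B v) = inner ℝ (B v) (B v) := by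
    have h1 : ∀ i, inner ℝ (b i) v * inner ℝ (B (b i)) (B v) =
        - ((inner ℝ v (b i) : ℝ) * inner ℝ (b i) (B (B v))) := by
      intro i
      rw [hB (b i) (B v), real_inner_comm]
      ring
    simp only [h1, Finset.sum_neg_distrib, b.sum_inner_mul_inner]
    rw [hB v (B v)] 
  have n2 : ∑ i : Fin n, (inner ℝ (b i) (b i) : ℝ) = n := by
    simp [real_inner_self_eq_norm_sq]
  rw [t1, t2, t3, t4, t5, t6] at hs
  have n3 : ∑ i, (inner ℝ (b i) (b i) : ℝ) * inner ℝ (B v) (B v) = n * inner ℝ (B v) (B v) := by
    rw [← Finset.sum_mul, n2]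
  rw [n1, n3] at hs
  linarith

end Contract

end Pool.Agent.L5helper93.Geo
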