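import Mathlib
import Pool.Agent.L5helper93.Geo.Hol

/-!
# Harmonic two-forms on manifolds with bounded sectional curvature
-/

open Bundle Manifold ContDiff VectorField Filter
open scoped Topology

set_option linter.unusedSectionVars false
set_option linter.unusedVariables false
set_option linter.unusedSimpArgs false

noncomputable section

namespace Pool.Agent.L5helper93.Geo

open Pool.Agent.Results.MP_b296c2_gt
open Pool.Agent.Results.MP_b296c2_gt.Riemannian
open Pool.Agent.L5helper93.Ein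

section Pt

variable {V : Type*} [NormedAddCommGroup V] [InnerProductSpace ℝ V] [FiniteDimensional ℝ V]

/-- A unit vector is part of an orthonormal basis. -/
theorem exists_basis_through {n : ℕ} (hn : Module.finrank ℝ V = n) (i0 : Fin n) {u : V}
    (hu : inner ℝ u u = (1 : ℝ)) : ∃ b : OrthonormalBasis (Fin n) ℝ V, b i0 = u := by
  have hv : Orthonormal ℝ (({i0} : Set (Fin n)).domRestrict fun _ => u) := by
    constructor
    · intro i
      have : ‖u‖ = 1 := by
        rw [real_inner_self_eq_norm_sq] at hu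
        nlinarith [norm_nonneg u]
      simpa using this
    · intro i j hij
      exact absurd (Subtype.ext (by rw [i.2, j.2])) hij
  obtain ⟨b, hb⟩ := Orthonormal.exists_orthonormalBasis_extension_of_card_eq (ι := Fin n)
    (by simp [hn]) hv
  exact ⟨b, hb i0 rfl⟩

/-- Homogeneous form of an upper curvature bound. -/
theorem sec_hom {R : V →ₗ[ℝ] V →ₗ[ℝ] V →ₗ[ℝ] V} {k : ℝ}
    (hsec : ∀ u v : V, inner ℝ u u = (1 : ℝ) → inner ℝ v v = (1 : ℝ) → inner ℝ u v = (0 : ℝ) →
      inner ℝ (R u v v) u ≤ k) (u v : V) (huv : inner ℝ u v = (0 : ℝ)) :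
    inner ℝ (R u v v) u ≤ k * (inner ℝ u u * inner ℝ v v) := by
  by_cases hu : u = 0
  · subst hu; simp
  by_cases hv : v = 0
  · subst hv; simp
  have h1 : 0 < ‖u‖ := norm_pos_iff.2 hu
  have h2 : 0 < ‖v‖ := norm_pos_iff.2 hv
  have h3 := hsec (‖u‖⁻¹ • u) (‖v‖⁻¹ • v)
    (by rw [real_inner_smul_left, real_inner_smul_right, real_inner_self_eq_norm_sq]
        field_simp)
    (by rw [real_inner_smul_left, real_inner_smul_right, real_inner_self_eq_norm_sq]
        field_simp)
    (by rw [real_inner_smul_left, real_inner_smul_right, huv]; ring)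
  simp only [map_smul, LinearMap.smul_apply, real_inner_smul_left, real_inner_smul_right] at h3
  rw [real_inner_self_eq_norm_sq, real_inner_self_eq_norm_sq]
  have h4 : ‖u‖ ^ 2 * ‖v‖ ^ 2 * (‖u‖⁻¹ * (‖v‖⁻¹ * (‖v‖⁻¹ * (‖u‖⁻¹ *
      inner ℝ (R u v v) u)))) = inner ℝ (R u v v) u := by
    field_simp
  have h5 : 0 < ‖u‖ ^ 2 * ‖v‖ ^ 2 := by positivity
  have h6 := mul_le_mul_of_nonneg_left h3 h5.le
  nlinarith

end Pt

variable {E : Type*} [NormedAddCommGroup E] [NormedSpace ℝ E] [FiniteDimensional ℝ E]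
  {H : Type*} [TopologicalSpace H] {I : ModelWithCorners ℝ E H}
  {M : Type*} [TopologicalSpace M] [ChartedSpace H M] [IsManifold I ∞ M]
  [RiemannianBundle (fun x : M => TangentSpace I x)]
  [IsContMDiffRiemannianBundle I ∞ E (fun x : M => TangentSpace I x)]
  [T2Space M] [SigmaCompactSpace M] [Nontrivial E]
  {cov : CovariantDerivative I E (TangentSpace I : M → Type _)}

/-- The skew endomorphism of a two-form. -/
def Bt {n : ℕ} (hn : Module.finrank ℝ E = n) (θ : BilField I M) (x : M) :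
    TangentSpace I x →ₗ[ℝ] TangentSpace I x where
  toFun u := ∑ i, (θ x u (onb hn x i)) • onb hn x i
  map_add' u v := by
    simp only [map_add, LinearMap.add_apply, add_smul, Finset.sum_add_distrib]
  map_smul' c u := by
    simp only [map_smul, LinearMap.smul_apply, smul_eq_mul, mul_smul, Finset.smul_sum,
      RingHom.id_apply]

theorem Bt_inner {n : ℕ} (hn : Module.finrank ℝ E = n) (θ : BilField I M) (x : M)
    (u v : TangentSpace I x) : inner ℝ (Bt hn θ x u) v = θ x u v := by
  have h1 : Bt hn θ x u = ∑ i, (θ x u (onb hn x i)) • onb hn x i := rfl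
  rw [h1, sum_inner]
  have h2 := (onb hn x).sum_repr v
  simp only [(onb hn x).repr_apply_apply] at h2
  conv_rhs => rw [← h2]
  rw [map_sum]
  refine Finset.sum_congr rfl fun i _ => ?_
  rw [real_inner_smul_left, map_smul, smul_eq_mul]
  ring

section

variable (h : IsLeviCivita cov) {R : CurvField I M} (hR : IsRiemannTensor cov R)
  {θ : BilField I M} (hθ : IsForm θ)
  {z : M} {n : ℕ} {e : Fin n → Π x : M, TangentSpace I x} (ha : Adapted cov z e)
  (hn : Module.finrank ℝ E = n)

theorem KF_geo (u v : Fin n → ℝ) :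
    KF (Af R z e) u v = inner ℝ (R z (∑ a, u a • e a z) (∑ b, v b • e b z)
      (∑ d, v d • e d z)) (∑ c, u c • e c z) := by
  simp only [map_sum, map_smul, LinearMap.sum_apply, LinearMap.smul_apply, sum_inner, inner_sum,
    real_inner_smul_left, real_inner_smul_right]
  unfold KF Af TF RF
  have perm : ∀ f : Fin n → Fin n → Fin n → Fin n → ℝ,
      ∑ a, ∑ b, ∑ c, ∑ d, f a b c d = ∑ c, ∑ d, ∑ b, ∑ a, f a b c d := by
    intro f
    calc ∑ a, ∑ b, ∑ c, ∑ d, f a b c d = ∑ a, ∑ c, ∑ b, ∑ d, f a b c d :=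
          Finset.sum_congr rfl fun a _ => Finset.sum_comm
      _ = ∑ c, ∑ a, ∑ b, ∑ d, f a b c d := Finset.sum_comm
      _ = ∑ c, ∑ a, ∑ d, ∑ b, f a b c d :=
          Finset.sum_congr rfl fun c _ => Finset.sum_congr rfl fun a _ => Finset.sum_comm
      _ = ∑ c, ∑ d, ∑ a, ∑ b, f a b c d := Finset.sum_congr rfl fun c _ => Finset.sum_comm
      _ = ∑ c, ∑ d, ∑ b, ∑ a, f a b c d :=
          Finset.sum_congr rfl fun c _ => Finset.sum_congr rfl fun d _ => Finset.sum_comm
  rw [perm]
  refine Finset.sum_congr rfl fun c _ => Finset.sum_congr rfl fun d _ => ?_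
  simp only [Finset.mul_sum]
  refine Finset.sum_congr rfl fun b _ => Finset.sum_congr rfl fun a _ => ?_
  ring

include ha in
theorem inner_comb (u v : Fin n → ℝ) :
    inner ℝ (∑ a, u a • e a z) (∑ b, v b • e b z) = ∑ a, u a * v a := by
  simp only [sum_inner, inner_sum, real_inner_smul_left, real_inner_smul_right, ha.onp]
  simp only [mul_ite, mul_one, mul_zero, Finset.sum_ite_eq, Finset.sum_ite_eq', Finset.mem_univ,
    if_true]
  exact Finset.sum_congr rfl fun x _ => mul_comm _ _

include hθ ha in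
/-- The skew endomorphism in a frame. -/
theorem Bt_comb (v : Fin n → ℝ) : Bt hn θ z (∑ a, v a • e a z) =
    - ∑ a, ap (wf θ z e) v a • e a z := by
  have h1 := ha.expand hn (Bt hn θ z (∑ a, v a • e a z))
  rw [h1, ← Finset.sum_neg_distrib]
  refine Finset.sum_congr rfl fun s _ => ?_
  rw [Bt_inner, ← neg_smul]
  congr 1
  unfold ap wf
  simp only [map_sum, map_smul, LinearMap.sum_apply, LinearMap.smul_apply, smul_eq_mul]
  rw [← Finset.sum_neg_distrib]
  refine Finset.sum_congr rfl fun a _ => ?_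
  rw [hθ.skew z (e s z)]
  ring

include hθ ha in
theorem Ff_geo (k : ℝ) (v : Fin n → ℝ) : Ff (Af R z e) (wf θ z e) k v =
    k * (inner ℝ (∑ a, v a • e a z) (∑ a, v a • e a z) *
      inner ℝ (Bt hn θ z (∑ a, v a • e a z)) (Bt hn θ z (∑ a, v a • e a z))) -
    inner ℝ (R z (∑ a, v a • e a z) (Bt hn θ z (∑ a, v a • e a z))
      (Bt hn θ z (∑ a, v a • e a z))) (∑ a, v a • e a z) := by
  unfold Ff
  rw [Bt_comb hθ ha hn, KF_geo, inner_neg_neg, inner_comb ha, inner_comb ha]
  simp only [map_neg, LinearMap.neg_apply, neg_neg, pow_two]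

include hθ in
theorem Bt_orth (u : TangentSpace I z) : inner ℝ u (Bt hn θ z u) = (0 : ℝ) := by
  rw [real_inner_comm, Bt_inner, hθ.alt]

include hθ ha hn in
theorem Ff_nonneg {k : ℝ} (hsec : ∀ (u v : TangentSpace I z), inner ℝ u u = (1 : ℝ) →
    inner ℝ v v = (1 : ℝ) → inner ℝ u v = (0 : ℝ) → inner ℝ (R z u v v) u ≤ k)
    (v : Fin n → ℝ) : 0 ≤ Ff (Af R z e) (wf θ z e) k v := by
  have hfd : FiniteDimensional ℝ (TangentSpace I z) := inferInstanceAs (FiniteDimensional ℝ E)
  rw [Ff_geo hθ ha hn]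
  have := sec_hom (V := TangentSpace I z) hsec (∑ a, v a • e a z)
    (Bt hn θ z (∑ a, v a • e a z)) (Bt_orth hθ hn _)
  linarith

include ha hn in
/-- The Ricci term. -/
theorem Pt_ge {r : ℝ} (hRic : ∀ (b : OrthonormalBasis (Fin n) ℝ (TangentSpace I z))
      (v : TangentSpace I z), r * inner ℝ v v ≤ ∑ i, inner ℝ (R z v (b i) (b i)) v) :
    r * w2 (wf θ z e) ≤ Pt (Af R z e) (wf θ z e) := by
  obtain ⟨b, hb⟩ := exists_onb hn z (fun i => e i z) ha.onp
  have h1 : Pt (Af R z e) (wf θ z e) = ∑ c, ∑ i, inner ℝ (R z (∑ a, wf θ z e a c • e a z) (b i)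
      (b i)) (∑ a, wf θ z e a c • e a z) := by
    unfold Pt Rc
    have e1 : ∀ a d, (∑ i, Af R z e a i d i) * ∑ c, wf θ z e a c * wf θ z e d c =
        ∑ c, ∑ i, Af R z e a i d i * (wf θ z e a c * wf θ z e d c) := by
      intro a d
      rw [Finset.sum_mul_sum, Finset.sum_comm]
    simp only [e1]
    calc ∑ a, ∑ d, ∑ c, ∑ i, Af R z e a i d i * (wf θ z e a c * wf θ z e d c)
        = ∑ a, ∑ c, ∑ d, ∑ i, Af R z e a i d i * (wf θ z e a c * wf θ z e d c) := sw23 _
      _ = ∑ c, ∑ a, ∑ d, ∑ i, Af R z e a i d i * (wf θ z e a c * wf θ z e d c) := Finset.sum_comm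
      _ = ∑ c, ∑ a, ∑ i, ∑ d, Af R z e a i d i * (wf θ z e a c * wf θ z e d c) := sw34 _
      _ = ∑ c, ∑ i, ∑ a, ∑ d, Af R z e a i d i * (wf θ z e a c * wf θ z e d c) := sw23 _
      _ = _ := by
        refine Finset.sum_congr rfl fun c _ => Finset.sum_congr rfl fun i _ => ?_
        rw [hb]
        simp only [map_sum, map_smul, LinearMap.sum_apply, LinearMap.smul_apply, sum_inner,
          inner_sum, real_inner_smul_left, real_inner_smul_right]
        rw [Finset.sum_comm]
        refine Finset.sum_congr rfl fun d _ => Finset.sum_congr rfl fun a _ => ?_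
        unfold Af TF RF
        ring
  have h2 : w2 (wf θ z e) = ∑ c, inner ℝ (∑ a, wf θ z e a c • e a z)
      (∑ a, wf θ z e a c • e a z) := by
    unfold w2
    rw [Finset.sum_comm]
    refine Finset.sum_congr rfl fun c _ => ?_
    rw [inner_comb ha]
    simp only [pow_two]
  rw [h1, h2, Finset.mul_sum]
  exact Finset.sum_le_sum fun c _ => hRic b _

end

section

variable (h : IsLeviCivita cov) {R : CurvField I M} (hR : IsRiemannTensor cov R)
  {θ : BilField I M} (hθ : IsForm θ)

include h hR hθ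

/-- A parallel form is invariant under the curvature. -/
theorem curv_act (hpar : ∀ ⦃V X Y : Π x : M, TangentSpace I x⦄, CMDiff ∞ (T% V) →
      CMDiff ∞ (T% X) → CMDiff ∞ (T% Y) → ∀ x, DO cov θ V X Y x = 0)
    (z : M) (x y u v : TangentSpace I z) : θ z (R z x y u) v + θ z u (R z x y v) = 0 := by
  obtain ⟨X, hX, rfl⟩ := exists_smooth_field (I := I) z x
  obtain ⟨Y, hY, rfl⟩ := exists_smooth_field (I := I) z y
  obtain ⟨U, hU, rfl⟩ := exists_smooth_field (I := I) z u
  obtain ⟨V, hV, rfl⟩ := exists_smooth_field (I := I) z v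
  have par : ∀ {W X Y : Π x : M, TangentSpace I x}, CMDiff ∞ (T% W) → CMDiff ∞ (T% X) →
      CMDiff ∞ (T% Y) → ∀ x, d% (OF θ X Y) x (W x) =
        OF θ (nabla cov W X) Y x + OF θ X (nabla cov W Y) x := by
    intro W X Y hW hX hY x
    have := hpar hW hX hY x
    unfold DO at this
    unfold OF nabla
    unfold OF at this
    linarith
  have hO : CMDiff ∞ (OF θ U V) := hθ.sm hU hV
  have n := fun {A B : Π x : M, TangentSpace I x} (hA : CMDiff ∞ (T% A))
    (hB : CMDiff ∞ (T% B)) => sm_nabla h hA hB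
  have hc := comm_fun hO hX hY (smooth_d hO hX) (smooth_d hO hY) z
  have e1 : ∀ {W : Π x : M, TangentSpace I x}, CMDiff ∞ (T% W) →
      (fun x => d% (OF θ U V) x (W x)) = fun x => OF θ (nabla cov W U) V x +
        OF θ U (nabla cov W V) x := by
    intro W hW
    ext x
    exact par hW hU hV x
  have sO : ∀ {A B : Π x : M, TangentSpace I x}, CMDiff ∞ (T% A) → CMDiff ∞ (T% B) →
      CMDiff ∞ (OF θ A B) := fun hA hB => hθ.sm hA hB
  rw [e1 hX, e1 hY, d_add (sO (n hY hU) hV) (sO hU (n hY hV)),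
    d_add (sO (n hX hU) hV) (sO hU (n hX hV))] at hc
  have f1 := par hX (n hY hU) hV z
  have f2 := par hX hU (n hY hV) z
  have f3 := par hY (n hX hU) hV z
  have f4 := par hY hU (n hX hV) z
  have f5 : d% (OF θ U V) z (mlieBracket I X Y z) =
      OF θ (nabla cov (mlieBracket I X Y) U) V z + OF θ U (nabla cov (mlieBracket I X Y) V) z :=
    par (smooth_bracket hX hY) hU hV z
  have g1 : ∀ {A : Π x : M, TangentSpace I x}, CMDiff ∞ (T% A) → R z (X z) (Y z) (A z) =
      nabla cov X (nabla cov Y A) z - nabla cov Y (nabla cov X A) z -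
        nabla cov (mlieBracket I X Y) A z := by
    intro A hA
    exact hR hX hY hA z
  rw [g1 hU, g1 hV]
  unfold OF at f1 f2 f3 f4 f5 hc
  rw [f1, f2, f3, f4, f5] at hc
  simp only [map_sub, LinearMap.sub_apply]
  linarith

end

end Pool.Agent.L5helper93.Geo
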