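import Mathlib
import Pool.Agent.L5helper93.Geo.TwoForm

/-!
# The pair inequality for curvature tensors with bounded sectional curvature
-/

set_option linter.unusedSectionVars false
set_option linter.unusedVariables false
set_option linter.unusedSimpArgs false

noncomputable section

namespace Pool.Agent.L5helper93.Geo

open Pool.Agent.Results.MP_b296c2_gt
open Pool.Agent.L5helper93.Ein

variable {V : Type*} [NormedAddCommGroup V] [InnerProductSpace ℝ V]

theorem four_expand {R : V →ₗ[ℝ] V →ₗ[ℝ] V →ₗ[ℝ] V} (a b c d : V) (p q : ℝ) :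
    inner ℝ (R (p • a + q • c) (p • b + q • d) (p • b + q • d)) (p • a + q • c) +
    inner ℝ (R (p • a + (-q) • c) (p • b + (-q) • d) (p • b + (-q) • d)) (p • a + (-q) • c) =
    (2 * (p ^ 4 * inner ℝ (R a b b) a + p ^ 2 * q ^ 2 * (inner ℝ (R c d b) a +
      inner ℝ (R c b d) a + inner ℝ (R c b b) c + inner ℝ (R a d d) a + inner ℝ (R a d b) c +
      inner ℝ (R a b d) c) + q ^ 4 * inner ℝ (R c d d) c) : ℝ) := by
  simp only [map_add, map_smul, LinearMap.add_apply, LinearMap.smul_apply, inner_add_left,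
    inner_add_right, real_inner_smul_left, real_inner_smul_right]
  ring

/-- The pair inequality. -/
theorem pair_upper {R : V →ₗ[ℝ] V →ₗ[ℝ] V →ₗ[ℝ] V} (h : Pointwise.IsCurvatureTensor R) {k : ℝ}
    (hsec : ∀ u v : V, inner ℝ u v = (0 : ℝ) →
      inner ℝ (R u v v) u ≤ k * (inner ℝ u u * inner ℝ v v))
    {a b c d : V} (haa : inner ℝ a a = (1 : ℝ)) (hbb : inner ℝ b b = (1 : ℝ))
    (hcc : inner ℝ c c = (1 : ℝ)) (hdd : inner ℝ d d = (1 : ℝ)) (hab : inner ℝ a b = (0 : ℝ))
    (hac : inner ℝ a c = (0 : ℝ)) (had : inner ℝ a d = (0 : ℝ)) (hbc : inner ℝ b c = (0 : ℝ))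
    (hbd : inner ℝ b d = (0 : ℝ)) (hcd : inner ℝ c d = (0 : ℝ)) (p q : ℝ) :
    6 * (p ^ 2 * q ^ 2) * inner ℝ (R a b d) c ≤ 2 * k * (p ^ 2 + q ^ 2) ^ 2 -
      2 * p ^ 4 * inner ℝ (R a b b) a - 2 * q ^ 4 * inner ℝ (R c d d) c -
      p ^ 2 * q ^ 2 * (inner ℝ (R a d d) a + inner ℝ (R c b b) c + inner ℝ (R a c c) a +
        inner ℝ (R b d d) b) := by
  have hba : inner ℝ b a = (0 : ℝ) := by rw [real_inner_comm]; exact hab
  have hca : inner ℝ c a = (0 : ℝ) := by rw [real_inner_comm]; exact hac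
  have hda : inner ℝ d a = (0 : ℝ) := by rw [real_inner_comm]; exact had
  have hcb : inner ℝ c b = (0 : ℝ) := by rw [real_inner_comm]; exact hbc
  have hdb : inner ℝ d b = (0 : ℝ) := by rw [real_inner_comm]; exact hbd
  have hdc : inner ℝ d c = (0 : ℝ) := by rw [real_inner_comm]; exact hcd
  have key : ∀ (c d : V), inner ℝ c c = (1 : ℝ) → inner ℝ d d = (1 : ℝ) →
      inner ℝ a c = (0 : ℝ) → inner ℝ a d = (0 : ℝ) → inner ℝ b c = (0 : ℝ) →
      inner ℝ b d = (0 : ℝ) → inner ℝ c d = (0 : ℝ) →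
      p ^ 4 * inner ℝ (R a b b) a + p ^ 2 * q ^ 2 * (inner ℝ (R c d b) a +
      inner ℝ (R c b d) a + inner ℝ (R c b b) c + inner ℝ (R a d d) a + inner ℝ (R a d b) c +
      inner ℝ (R a b d) c) + q ^ 4 * inner ℝ (R c d d) c ≤ k * (p ^ 2 + q ^ 2) ^ 2 := by
    intro c d hcc hdd hac had hbc hbd hcd
    have hba : inner ℝ b a = (0 : ℝ) := by rw [real_inner_comm]; exact hab
    have hca : inner ℝ c a = (0 : ℝ) := by rw [real_inner_comm]; exact hac
    have hda : inner ℝ d a = (0 : ℝ) := by rw [real_inner_comm]; exact had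
    have hcb : inner ℝ c b = (0 : ℝ) := by rw [real_inner_comm]; exact hbc
    have hdb : inner ℝ d b = (0 : ℝ) := by rw [real_inner_comm]; exact hbd
    have hdc : inner ℝ d c = (0 : ℝ) := by rw [real_inner_comm]; exact hcd
    have h1 := hsec (p • a + q • c) (p • b + q • d) (by
      simp only [inner_add_left, inner_add_right, real_inner_smul_left, real_inner_smul_right,
        hab, had, hcb, hcd]
      ring)
    have h2 := hsec (p • a + (-q) • c) (p • b + (-q) • d) (by
      simp only [inner_add_left, inner_add_right, real_inner_smul_left, real_inner_smul_right,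
        hab, had, hcb, hcd]
      ring)
    have n1 : inner ℝ (p • a + q • c) (p • a + q • c) * inner ℝ (p • b + q • d) (p • b + q • d) =
        (p ^ 2 + q ^ 2) ^ 2 := by
      simp only [inner_add_left, inner_add_right, real_inner_smul_left, real_inner_smul_right,
        haa, hbb, hcc, hdd, hac, hca, hbd, hdb]
      ring
    have n2 : inner ℝ (p • a + (-q) • c) (p • a + (-q) • c) *
        inner ℝ (p • b + (-q) • d) (p • b + (-q) • d) = (p ^ 2 + q ^ 2) ^ 2 := by
      simp only [inner_add_left, inner_add_right, real_inner_smul_left, real_inner_smul_right,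
        haa, hbb, hcc, hdd, hac, hca, hbd, hdb]
      ring
    rw [n1] at h1
    rw [n2] at h2
    have h3 := four_expand (R := R) a b c d p q
    linarith
  have k1 := key c d hcc hdd hac had hbc hbd hcd
  have k2 := key d (-c) hdd (by rw [inner_neg_neg]; exact hcc) had
    (by rw [inner_neg_right, hac, neg_zero]) hbd (by rw [inner_neg_right, hbc, neg_zero])
    (by rw [inner_neg_right, hdc, neg_zero])
  simp only [map_neg, LinearMap.neg_apply, inner_neg_left, inner_neg_right, neg_neg] at k2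
  have pr : ∀ x y z w : V, inner ℝ (R x y z) w = (inner ℝ (R z w x) y : ℝ) := fun x y z w =>
    h.pair x y z w
  have sk : ∀ x y z w : V, inner ℝ (R x y z) w = (- inner ℝ (R x y w) z : ℝ) := by
    intro x y z w
    rw [h.skew, real_inner_comm]
  have an : ∀ x y z w : V, inner ℝ (R x y z) w = (- inner ℝ (R y x z) w : ℝ) := by
    intro x y z w
    rw [h.antisymm x y z, inner_neg_left]
  have bi : ∀ x y z w : V, inner ℝ (R x y z) w + inner ℝ (R y z x) w +
      inner ℝ (R z x y) w = (0 : ℝ) := by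
    intro x y z w
    rw [← inner_add_left, ← inner_add_left, h.bianchi, inner_zero_left]
  have e1 : inner ℝ (R c d b) a = (inner ℝ (R a b d) c : ℝ) := by
    rw [pr c d b a, an b a c d, sk a b c d, neg_neg]
  have e2 : inner ℝ (R c b d) a = (inner ℝ (R a d b) c : ℝ) := by
    rw [pr c b d a, an d a c b, sk a d c b, neg_neg]
  have e3 : inner ℝ (R d c b) a = (- inner ℝ (R a b d) c : ℝ) := by
    rw [an d c b a, e1]
  have e4 : inner ℝ (R d b c) a = (inner ℝ (R a c b) d : ℝ) := by
    rw [pr d b c a, an c a d b, sk a c d b, neg_neg]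
  have e5 : inner ℝ (R a b c) d = (- inner ℝ (R a b d) c : ℝ) := sk a b c d
  have e6 : inner ℝ (R d c c) d = (inner ℝ (R c d d) c : ℝ) := by
    rw [pr d c c d]
  have e7 : inner ℝ (R d b b) d = (inner ℝ (R b d d) b : ℝ) := by
    rw [pr d b b d]
  have e8 : inner ℝ (R a d b) c - inner ℝ (R a c b) d = (inner ℝ (R a b d) c : ℝ) := by
    have b1 := bi a b c d
    have b2 : inner ℝ (R b c a) d = (inner ℝ (R a d b) c : ℝ) := pr b c a d
    have b3 : inner ℝ (R c a b) d = (- inner ℝ (R a c b) d : ℝ) := an c a b d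
    rw [b2, b3, e5] at b1
    linarith
  rw [e1, e2] at k1
  rw [e3, e4, e5, e6, e7] at k2
  have e9 : p ^ 2 * q ^ 2 * (inner ℝ (R a d b) c - inner ℝ (R a c b) d) =
      p ^ 2 * q ^ 2 * inner ℝ (R a b d) c := by rw [e8]
  nlinarith [k1, k2, e9]

end Pool.Agent.L5helper93.Geo

end
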