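import Mathlib

/-!
# Normal form of a skew endomorphism
-/

set_option linter.unusedSectionVars false
set_option linter.unusedVariables false
set_option linter.unusedSimpArgs false

noncomputable section

namespace Pool.Agent.L5helper93.Geo

universe u

/-- A normal form of a skew endomorphism. -/
structure NF {V : Type u} [NormedAddCommGroup V] [InnerProductSpace ℝ V] (B : V →ₗ[ℝ] V)
    {m r : ℕ} (x y : Fin m → V) (z : Fin r → V) (β : Fin m → ℝ) : Prop where
  xx : ∀ i j, inner ℝ (x i) (x j) = if i = j then (1 : ℝ) else 0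
  yy : ∀ i j, inner ℝ (y i) (y j) = if i = j then (1 : ℝ) else 0
  zz : ∀ i j, inner ℝ (z i) (z j) = if i = j then (1 : ℝ) else 0
  xy : ∀ i j, inner ℝ (x i) (y j) = (0 : ℝ)
  xz : ∀ i j, inner ℝ (x i) (z j) = (0 : ℝ)
  yz : ∀ i j, inner ℝ (y i) (z j) = (0 : ℝ)
  nn : ∀ i, 0 ≤ β i
  Bx : ∀ i, B (x i) = β i • y i
  By : ∀ i, B (y i) = -(β i) • x i
  Bz : ∀ i, B (z i) = 0

theorem nf_zero {V : Type u} [NormedAddCommGroup V] [InnerProductSpace ℝ V]
    [FiniteDimensional ℝ V] {k : ℕ} (hk : Module.finrank ℝ V = k) :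
    ∃ (m r : ℕ) (x y : Fin m → V) (z : Fin r → V) (β : Fin m → ℝ), r ≤ 1 ∧ 2 * m + r = k ∧
      NF (0 : V →ₗ[ℝ] V) x y z β := by
  have hc : Fintype.card ((Fin (k / 2) ⊕ Fin (k / 2)) ⊕ Fin (k % 2)) = Fintype.card (Fin k) := by
    simp only [Fintype.card_sum, Fintype.card_fin]
    omega
  let e := Fintype.equivOfCardEq hc
  let b := (stdOrthonormalBasis ℝ V).reindex (finCongr hk)
  have hb := orthonormal_iff_ite.1 b.orthonormal
  refine ⟨k / 2, k % 2, fun i => b (e (Sum.inl (Sum.inl i))), fun i => b (e (Sum.inl (Sum.inr i))),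
    fun i => b (e (Sum.inr i)), fun _ => 0, by omega, by omega, ?_⟩
  constructor
  · intro i j
    rw [hb]
    simp
  · intro i j
    rw [hb]
    simp
  · intro i j
    rw [hb]
    simp
  · intro i j
    rw [hb, if_neg]
    simp
  · intro i j
    rw [hb, if_neg]
    simp
  · intro i j
    rw [hb, if_neg]
    simp
  · intro i
    exact le_refl _
  · intro i
    simp
  · intro i
    simp
  · intro i
    simp

/-- A unit vector on which a nonzero skew endomorphism attains its norm. -/
theorem exists_max {V : Type u} [NormedAddCommGroup V] [InnerProductSpace ℝ V]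
    [FiniteDimensional ℝ V] (B : V →ₗ[ℝ] V) (hB : B ≠ 0) :
    ∃ x : V, ‖x‖ = 1 ∧ 0 < ‖B x‖ ∧ ∀ y, ‖y‖ = 1 → ‖B y‖ ≤ ‖B x‖ := by
  obtain ⟨w, hw⟩ : ∃ w, B w ≠ 0 := by
    by_contra hcon
    push Not at hcon
    exact hB (LinearMap.ext hcon)
  have hw0 : w ≠ 0 := by
    rintro rfl
    exact hw (map_zero B)
  have hn : 0 < ‖w‖ := norm_pos_iff.2 hw0
  have hcont : Continuous fun x => ‖B x‖ := (LinearMap.continuous_of_finiteDimensional B).norm
  have hs : (Metric.sphere (0 : V) 1).Nonempty := ⟨‖w‖⁻¹ • w, by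
    rw [mem_sphere_zero_iff_norm, norm_smul, norm_inv, norm_norm, inv_mul_cancel₀ hn.ne']⟩
  obtain ⟨x, hx, hmax⟩ := (isCompact_sphere (0 : V) 1).exists_isMaxOn hs hcont.continuousOn
  have hx1 : ‖x‖ = 1 := by simpa using hx
  have hm : ∀ y, ‖y‖ = 1 → ‖B y‖ ≤ ‖B x‖ := fun y hy => hmax (by simpa using hy)
  refine ⟨x, hx1, ?_, hm⟩
  have h1 := hm (‖w‖⁻¹ • w) (by rw [norm_smul, norm_inv, norm_norm, inv_mul_cancel₀ hn.ne'])
  rw [map_smul, norm_smul, norm_inv, norm_norm] at h1
  have h2 : 0 < ‖B w‖ := norm_pos_iff.2 hw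
  have h3 : 0 < ‖w‖⁻¹ * ‖B w‖ := by positivity
  linarith

/-- Every skew endomorphism has a normal form. -/
theorem exists_nf : ∀ (k : ℕ) (V : Type u) [NormedAddCommGroup V] [InnerProductSpace ℝ V]
    [FiniteDimensional ℝ V] (B : V →ₗ[ℝ] V), Module.finrank ℝ V = k →
    (∀ x y, inner ℝ (B x) y = (- inner ℝ x (B y) : ℝ)) →
    ∃ (m r : ℕ) (x y : Fin m → V) (z : Fin r → V) (β : Fin m → ℝ), r ≤ 1 ∧ 2 * m + r = k ∧
      NF B x y z β := by
  intro k
  induction k using Nat.strong_induction_on with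
  | _ k ih =>
  intro V _ _ _ B hk hB
  by_cases h0 : B = 0
  · subst h0
    exact nf_zero hk
  obtain ⟨x, hx, hpos, hmax⟩ := exists_max B h0
  set β : ℝ := ‖B x‖ with hβ
  set y : V := β⁻¹ • B x with hy
  have hBx : B x = β • y := by
    rw [hy, smul_smul, mul_inv_cancel₀ hpos.ne', one_smul]
  have hy1 : ‖y‖ = 1 := by
    rw [hy, norm_smul, norm_inv, Real.norm_of_nonneg hpos.le, ← hβ, inv_mul_cancel₀ hpos.ne']
  have alt : ∀ v, inner ℝ (B v) v = (0 : ℝ) := by
    intro v
    have h1 := hB v v
    rw [real_inner_comm (B v) v] at h1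
    rw [real_inner_comm v (B v)] at h1
    have h2 := hB v v
    rw [real_inner_comm v (B v)] at h2
    linarith [real_inner_comm v (B v)]
  have hxy : inner ℝ x y = (0 : ℝ) := by
    rw [hy, real_inner_smul_right, real_inner_comm, alt, mul_zero]
  have hxx : inner ℝ x x = (1 : ℝ) := by
    rw [real_inner_self_eq_norm_sq, hx]; norm_num
  have hyy : inner ℝ y y = (1 : ℝ) := by
    rw [real_inner_self_eq_norm_sq, hy1]; norm_num
  have hByx : inner ℝ (B y) x = -β := by
    rw [hB, hBx, real_inner_smul_right, hyy, mul_one]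
  have hBy : B y = -β • x := by
    have h1 := hmax y hy1
    have h2 : ‖B y + β • x‖ ^ 2 ≤ 0 := by
      rw [norm_add_sq_real, real_inner_smul_right, hByx, norm_smul, hx,
        Real.norm_of_nonneg hpos.le]
      nlinarith [norm_nonneg (B y)]
    have h3 : B y + β • x = 0 := by
      rw [← norm_eq_zero]
      nlinarith [norm_nonneg (B y + β • x)]
    rw [neg_smul]
    exact eq_neg_of_add_eq_zero_left h3
  -- the complement
  let f : Fin 2 → V := ![x, y]
  have hf : Orthonormal ℝ f := by
    rw [orthonormal_iff_ite]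
    intro i j
    fin_cases i <;> fin_cases j <;> simp [f, hxx, hyy, hxy, real_inner_comm x y, hx, hy1]
  let W : Submodule ℝ V := (Submodule.span ℝ (Set.range f))ᗮ
  have hW1 : Module.finrank ℝ (Submodule.span ℝ (Set.range f)) = 2 := by
    rw [finrank_span_eq_card hf.linearIndependent]
    simp
  have hW2 := Submodule.finrank_add_finrank_orthogonal (Submodule.span ℝ (Set.range f))
  have hW3 : Module.finrank ℝ W + 2 = k := by
    have : Module.finrank ℝ (Submodule.span ℝ (Set.range f))ᗮ = Module.finrank ℝ W := rfl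
    omega
  have memW : ∀ w, w ∈ W ↔ inner ℝ x w = (0 : ℝ) ∧ inner ℝ y w = (0 : ℝ) := by
    intro w
    constructor
    · intro hw
      have h1 := (Submodule.mem_orthogonal _ w).1 hw
      exact ⟨h1 x (Submodule.subset_span ⟨0, rfl⟩), h1 y (Submodule.subset_span ⟨1, rfl⟩)⟩
    · rintro ⟨h1, h2⟩
      rw [Submodule.mem_orthogonal]
      intro u hu
      induction hu using Submodule.span_induction with
      | mem u hu =>
        obtain ⟨i, rfl⟩ := hu
        fin_cases i
        · exact h1
        · exact h2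
      | zero => simp
      | add a b _ _ ha hb => rw [inner_add_left, ha, hb, add_zero]
      | smul c a _ ha => rw [real_inner_smul_left, ha, mul_zero]
  have hinv : ∀ w ∈ W, B w ∈ W := by
    intro w hw
    obtain ⟨h1, h2⟩ := (memW w).1 hw
    rw [memW]
    constructor
    · rw [real_inner_comm, hB, hBx, real_inner_smul_right, real_inner_comm, h2]; ring
    · rw [real_inner_comm, hB, hBy, real_inner_smul_right, real_inner_comm, h1]; ring
  obtain ⟨m, r, x', y', z', β', hr, hm, nf⟩ := ih (k - 2) (by omega) W (B.restrict hinv)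
    (by omega) (by
      intro a b
      have := hB a b
      simpa using this)
  have cW : ∀ w : W, inner ℝ x (w : V) = (0 : ℝ) ∧ inner ℝ y (w : V) = (0 : ℝ) :=
    fun w => (memW w).1 w.2
  have ci : ∀ v w : W, inner ℝ (v : V) (w : V) = (inner ℝ v w : ℝ) := fun _ _ => rfl
  refine ⟨m + 1, r, Fin.cons x (fun i => (x' i : V)), Fin.cons y (fun i => (y' i : V)),
    fun i => (z' i : V), Fin.cons β β', hr, by omega, ?_⟩
  constructor
  · intro i j
    refine Fin.cases ?_ (fun i => ?_) i <;> refine Fin.cases ?_ (fun j => ?_) j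
    · simpa using hxx
    · simp only [Fin.cons_zero, Fin.cons_succ]
      rw [(cW _).1, if_neg (Fin.succ_ne_zero j).symm]
    · simp only [Fin.cons_zero, Fin.cons_succ]
      rw [real_inner_comm, (cW _).1, if_neg (Fin.succ_ne_zero i)]
    · simp only [Fin.cons_succ, Fin.succ_inj]
      rw [ci, nf.xx]
  · intro i j
    refine Fin.cases ?_ (fun i => ?_) i <;> refine Fin.cases ?_ (fun j => ?_) j
    · simpa using hyy
    · simp only [Fin.cons_zero, Fin.cons_succ]
      rw [(cW _).2, if_neg (Fin.succ_ne_zero j).symm]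
    · simp only [Fin.cons_zero, Fin.cons_succ]
      rw [real_inner_comm, (cW _).2, if_neg (Fin.succ_ne_zero i)]
    · simp only [Fin.cons_succ, Fin.succ_inj]
      rw [ci, nf.yy]
  · intro i j
    rw [ci, nf.zz]
  · intro i j
    refine Fin.cases ?_ (fun i => ?_) i <;> refine Fin.cases ?_ (fun j => ?_) j
    · simpa using hxy
    · simp only [Fin.cons_zero, Fin.cons_succ]
      rw [(cW _).1]
    · simp only [Fin.cons_zero, Fin.cons_succ]
      rw [real_inner_comm, (cW _).2]
    · simp only [Fin.cons_succ]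
      rw [ci, nf.xy]
  · intro i j
    refine Fin.cases ?_ (fun i => ?_) i
    · simp only [Fin.cons_zero]
      rw [(cW _).1]
    · simp only [Fin.cons_succ]
      rw [ci, nf.xz]
  · intro i j
    refine Fin.cases ?_ (fun i => ?_) i
    · simp only [Fin.cons_zero]
      rw [(cW _).2]
    · simp only [Fin.cons_succ]
      rw [ci, nf.yz]
  · intro i
    refine Fin.cases ?_ (fun i => ?_) i
    · simpa using hpos.le
    · simpa using nf.nn i
  · intro i
    refine Fin.cases ?_ (fun i => ?_) i
    · simpa using hBx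
    · simp only [Fin.cons_succ]
      have := congrArg (fun w : W => (w : V)) (nf.Bx i)
      simpa using this
  · intro i
    refine Fin.cases ?_ (fun i => ?_) i
    · simpa using hBy
    · simp only [Fin.cons_succ]
      have := congrArg (fun w : W => (w : V)) (nf.By i)
      simpa using this
  · intro i
    have := congrArg (fun w : W => (w : V)) (nf.Bz i)
    simpa using this

end Pool.Agent.L5helper93.Geo

end
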