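import Mathlib
import Pool.Agent.L5helper93.Geo.TwoForm
import Pool.Agent.L5helper93.Geo.Normal

/-!
# The Bochner method for two-forms, in adapted frames chosen point by point
-/

open Bundle Manifold ContDiff VectorField Filter
open scoped Topology

set_option linter.unusedSectionVars false
set_option linter.unusedVariables false
set_option linter.unusedSimpArgs false

noncomputable section

namespace Pool.Agent.L5helper93.Geo

open Pool.Agent.Results.MP_b296c2_gt
open Pool.Agent.Results.MP_b296c2_gt.Riemannian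
open Pool.Agent.L5helper93.Ein

variable {E : Type*} [NormedAddCommGroup E] [NormedSpace ℝ E] [FiniteDimensional ℝ E]
  {H : Type*} [TopologicalSpace H] {I : ModelWithCorners ℝ E H}
  {M : Type*} [TopologicalSpace M] [ChartedSpace H M] [IsManifold I ∞ M]
  [RiemannianBundle (fun x : M => TangentSpace I x)]
  [IsContMDiffRiemannianBundle I ∞ E (fun x : M => TangentSpace I x)]
  [T2Space M] [SigmaCompactSpace M] [Nontrivial E]
  {cov : CovariantDerivative I E (TangentSpace I : M → Type _)}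

/-- The Weitzenböck term in a frame. -/
def Wz (R : CurvField I M) (θ : BilField I M) (z : M) {n : ℕ}
    (e : Fin n → Π x : M, TangentSpace I x) : ℝ :=
  2 * Pt (Af R z e) (wf θ z e) - Wt (Af R z e) (wf θ z e)

theorem frame_through (h : IsLeviCivita cov) {n : ℕ} (z : M)
    (b : OrthonormalBasis (Fin n) ℝ (TangentSpace I z)) :
    ∃ e : Fin n → Π x : M, TangentSpace I x, Adapted cov z e ∧ ∀ i, e i z = b i := by
  obtain ⟨e, h1, h2, h3, h4⟩ := exists_on_frame h.metric z n b (by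
    intro i j
    exact orthonormal_iff_ite.1 b.orthonormal i j)
  exact ⟨e, ⟨h1, h3, h4⟩, h2⟩

/-- A form whose norm vanishes at a point is zero there. -/
theorem form_zero {n : ℕ} (hn : Module.finrank ℝ E = n) {θ : BilField I M} (hθ : IsForm θ)
    {z : M} (h0 : nO hn θ z = 0) (u v : TangentSpace I z) : θ z u v = 0 := by
  have h1 : ∑ i, inner ℝ (Bt hn θ z (onb hn z i)) (Bt hn θ z (onb hn z i)) = nO hn θ z := by
    rw [nO_eq hθ hn (fun i => onb hn z i) fun i j =>
      orthonormal_iff_ite.1 (onb hn z).orthonormal i j]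
    unfold S2
    refine Finset.sum_congr rfl fun i _ => ?_
    rw [real_inner_self_eq_norm_sq, ← (onb hn z).sum_sq_inner_left]
    refine Finset.sum_congr rfl fun j _ => ?_
    rw [Bt_inner]
  rw [h0] at h1
  have h3 : ∀ i, Bt hn θ z (onb hn z i) = 0 := by
    intro i
    have := (Finset.sum_eq_zero_iff_of_nonneg fun i _ => real_inner_self_nonneg).1 h1 i
      (Finset.mem_univ i)
    exact inner_self_eq_zero.1 this
  have h4 := (onb hn z).sum_repr u
  rw [← Bt_inner hn θ z u v, ← h4]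
  simp only [map_sum, map_smul, h3, smul_zero, Finset.sum_const_zero, inner_zero_left]

/-- The Bochner formula for closed and coclosed two-forms. -/
theorem bochner_two {n : ℕ} (hn : Module.finrank ℝ E = n) (h : IsLeviCivita cov)
    {R : CurvField I M} (hR : IsRiemannTensor cov R) {θ : BilField I M} (hθ : IsForm θ)
    (hc : ∀ ⦃V X Y : Π x : M, TangentSpace I x⦄, CMDiff ∞ (T% V) → CMDiff ∞ (T% X) →
      CMDiff ∞ (T% Y) → ∀ x, DO cov θ V X Y x + DO cov θ X Y V x + DO cov θ Y V X x = 0)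
    (hd : ∀ (x : M) (e : Fin n → Π x : M, TangentSpace I x), (∀ i, CMDiff ∞ (T% (e i))) →
      (∀ i j, inner ℝ (e i x) (e j x) = if i = j then (1 : ℝ) else 0) →
      ∀ Y : Π x : M, TangentSpace I x, CMDiff ∞ (T% Y) → ∑ i, DO cov θ (e i) (e i) Y x = 0)
    {z : M} {e : Fin n → Π x : M, TangentSpace I x} (ha : Adapted cov z e) :
    ∑ i, d% (fun y => d% (nO hn θ) y (e i y)) z (e i z) =
      2 * ∑ i, ∑ k, ∑ l, (DO cov θ (e i) (e k) (e l) z) ^ 2 + 2 * Wz R θ z e := by
  unfold Wz
  rw [nO_lap h hθ hn ha, bochner_alg (Af_curv h hR ha) (wf_skew (p := z) (e := e) hθ)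
    (Dw cov θ z e) (fun i j k l => Dw_skew hθ i j k l) (Dw_closed h hθ ha hc)
    (Dw_div h hθ ha ?_) (Dw_comm h hθ ha hn hR)]
  filter_upwards [ha.on] with x hx l
  exact hd x e ha.sm hx (e l) (ha.sm l)

/-- The Bochner method. -/
theorem weitz_main [BoundarylessManifold I M] [CompactSpace M] [PreconnectedSpace M] {n : ℕ}
    (hn : Module.finrank ℝ E = n) (h : IsLeviCivita cov)
    {R : CurvField I M} (hR : IsRiemannTensor cov R) {θ : BilField I M} (hθ : IsForm θ)
    (hc : ∀ ⦃V X Y : Π x : M, TangentSpace I x⦄, CMDiff ∞ (T% V) → CMDiff ∞ (T% X) →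
      CMDiff ∞ (T% Y) → ∀ x, DO cov θ V X Y x + DO cov θ X Y V x + DO cov θ Y V X x = 0)
    (hd : ∀ (x : M) (e : Fin n → Π x : M, TangentSpace I x), (∀ i, CMDiff ∞ (T% (e i))) →
      (∀ i j, inner ℝ (e i x) (e j x) = if i = j then (1 : ℝ) else 0) →
      ∀ Y : Π x : M, TangentSpace I x, CMDiff ∞ (T% Y) → ∑ i, DO cov θ (e i) (e i) Y x = 0)
    (hW : ∀ z, ∃ e : Fin n → Π x : M, TangentSpace I x, Adapted cov z e ∧ 0 ≤ Wz R θ z e) :
    (∀ ⦃V X Y : Π x : M, TangentSpace I x⦄, CMDiff ∞ (T% V) → CMDiff ∞ (T% X) →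
      CMDiff ∞ (T% Y) → ∀ x, DO cov θ V X Y x = 0) ∧ (∀ x y, nO hn θ x = nO hn θ y) ∧
    ∀ (z : M) (e : Fin n → Π x : M, TangentSpace I x), Adapted cov z e → Wz R θ z e = 0 := by
  have sm := smooth_nO h hθ hn
  have n3 : ∀ (z : M) (e : Fin n → Π x : M, TangentSpace I x) (i k l : Fin n),
      0 ≤ (DO cov θ (e i) (e k) (e l) z) ^ 2 := fun _ _ _ _ _ => sq_nonneg _
  have n2 := fun (z : M) (e : Fin n → Π x : M, TangentSpace I x) (i k : Fin n) =>
    Finset.sum_nonneg (s := Finset.univ) fun l _ => n3 z e i k l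
  have n1 := fun (z : M) (e : Fin n → Π x : M, TangentSpace I x) (i : Fin n) =>
    Finset.sum_nonneg (s := Finset.univ) fun k _ => n2 z e i k
  have n0 := fun (z : M) (e : Fin n → Π x : M, TangentSpace I x) =>
    Finset.sum_nonneg (s := Finset.univ) fun i _ => n1 z e i
  have hlap : ∀ (z : M) (e : Fin n → Π x : M, TangentSpace I x), Adapted cov z e →
      0 ≤ ∑ i, d% (fun y => d% (nO hn θ) y (e i y)) z (e i z) := by
    intro z e' ha'
    obtain ⟨e, ha, hw⟩ := hW z
    rw [lap_eq_trace hn h sm ha.sm ha.on ha', ← lap_eq_trace hn h sm ha.sm ha.on ha,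
      bochner_two hn h hR hθ hc hd ha]
    have := n0 z e
    linarith
  have hconst := strong_max hn h sm hlap
  have h3 : ∀ (z : M) (e : Fin n → Π x : M, TangentSpace I x) (i : Fin n),
      d% (fun y => d% (nO hn θ) y (e i y)) z (e i z) = 0 := by
    intro z e i
    have hcf : nO hn θ = fun _ => nO hn θ z := by
      ext y; exact hconst y z
    have : (fun y => d% (nO hn θ) y (e i y)) = fun _ => (0 : ℝ) := by
      ext y
      rw [hcf, mvfderiv_const]
      rfl
    rw [this, mvfderiv_const]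
    rfl
  have hpt : ∀ z, ∃ e : Fin n → Π x : M, TangentSpace I x, Adapted cov z e ∧
      ∀ i k l, DO cov θ (e i) (e k) (e l) z = 0 := by
    intro z
    obtain ⟨e, ha, hw⟩ := hW z
    refine ⟨e, ha, ?_⟩
    have h0 := bochner_two hn h hR hθ hc hd ha
    rw [Finset.sum_eq_zero fun i _ => h3 z e i] at h0
    have z0 : ∑ i, ∑ k, ∑ l, (DO cov θ (e i) (e k) (e l) z) ^ 2 = 0 :=
      le_antisymm (by linarith) (n0 z e)
    intro i k l
    have z1 := (Finset.sum_eq_zero_iff_of_nonneg fun i _ => n1 z e i).1 z0 i (Finset.mem_univ _)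
    have z2 := (Finset.sum_eq_zero_iff_of_nonneg fun k _ => n2 z e i k).1 z1 k
      (Finset.mem_univ _)
    have z3 := (Finset.sum_eq_zero_iff_of_nonneg fun l _ => n3 z e i k l).1 z2 l
      (Finset.mem_univ _)
    exact pow_eq_zero_iff (two_ne_zero) |>.1 z3
  have hpar : ∀ ⦃V X Y : Π x : M, TangentSpace I x⦄, CMDiff ∞ (T% V) → CMDiff ∞ (T% X) →
      CMDiff ∞ (T% Y) → ∀ x, DO cov θ V X Y x = 0 := by
    intro V X Y hV hX hY z
    obtain ⟨e, ha, h0⟩ := hpt z
    exact DO_vanish h hθ hV hX hY ha hn h0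
  refine ⟨hpar, hconst, ?_⟩
  intro z e ha
  have h0 := bochner_two hn h hR hθ hc hd ha
  rw [Finset.sum_eq_zero fun i _ => h3 z e i] at h0
  have z0 : ∑ i, ∑ k, ∑ l, (DO cov θ (e i) (e k) (e l) z) ^ 2 = 0 := by
    refine Finset.sum_eq_zero fun i _ => Finset.sum_eq_zero fun k _ =>
      Finset.sum_eq_zero fun l _ => ?_
    rw [hpar (ha.sm i) (ha.sm k) (ha.sm l)]
    ring
  linarith

end Pool.Agent.L5helper93.Geo

end
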