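import Mathlib
import Pool.Agent.L5helper93.Geo.Weitz
import Pool.Agent.L5helper93.Geo.Pair

/-!
# Harmonic two-forms on Einstein manifolds of dimension five
-/

open Bundle Manifold ContDiff VectorField Filter
open scoped Topology

set_option linter.unusedSectionVars false
set_option linter.unusedVariables false
set_option linter.unusedSimpArgs false

noncomputable section

namespace Pool.Agent.L5helper93.Geo

open Pool.Agent.Results.MP_b296c2_gt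
open Pool.Agent.Results.MP_b296c2_gt.Riemannian
open Pool.Agent.L5helper93.Ein

/-- The matrix of a two-form of dimension five in normal form. -/
def W5 (p q : ℝ) : Fin 5 → Fin 5 → ℝ :=
  ![![0, p, 0, 0, 0], ![-p, 0, 0, 0, 0], ![0, 0, 0, q, 0], ![0, 0, -q, 0, 0], ![0, 0, 0, 0, 0]]

theorem sum_W5 (p q : ℝ) (f : Fin 5 → Fin 5 → ℝ) :
    ∑ c, ∑ d, f c d * W5 p q c d = p * (f 0 1 - f 1 0) + q * (f 2 3 - f 3 2) := by
  simp [Fin.sum_univ_five, W5]
  ring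

theorem Wt5 {A : Fin 5 → Fin 5 → Fin 5 → Fin 5 → ℝ} (h : IsCurv A) (p q : ℝ) :
    Wt A (W5 p q) = 4 * p ^ 2 * A 0 1 0 1 + 4 * q ^ 2 * A 2 3 2 3 + 8 * (p * q) * A 0 1 2 3 := by
  unfold Wt
  have h1 : ∀ a b, ∑ c, ∑ d, A a b c d * (W5 p q a b * W5 p q c d) =
      (p * (A a b 0 1 - A a b 1 0) + q * (A a b 2 3 - A a b 3 2)) * W5 p q a b := by
    intro a b
    rw [← sum_W5, Finset.sum_mul]
    refine Finset.sum_congr rfl fun c _ => ?_
    rw [Finset.sum_mul]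
    refine Finset.sum_congr rfl fun d _ => ?_
    ring
  simp only [h1]
  rw [sum_W5]
  have a1 := h.a1
  have a2 := h.a2
  have e1 := h.pair 2 3 0 1
  rw [a1 1 0 0 1, a1 1 0 1 0, a1 1 0 2 3, a1 1 0 3 2, a1 3 2 0 1, a1 3 2 1 0, a1 3 2 2 3,
    a1 3 2 3 2, a2 0 1 1 0, a2 0 1 3 2, a2 2 3 1 0, a2 2 3 3 2, e1]
  ring

theorem Pt5 {A : Fin 5 → Fin 5 → Fin 5 → Fin 5 → ℝ} {r : ℝ}
    (hr : ∀ a b, Rc A a b = if a = b then r else 0) (p q : ℝ) :
    Pt A (W5 p q) = 2 * r * (p ^ 2 + q ^ 2) := by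
  unfold Pt
  simp only [hr]
  simp [Fin.sum_univ_five, W5]
  ring

/-- The pointwise inequality in dimension five. -/
theorem five_alg {A : Fin 5 → Fin 5 → Fin 5 → Fin 5 → ℝ} (h : IsCurv A) {κ : ℝ}
    (hr : ∀ a b, Rc A a b = if a = b then 4 * κ else 0) {s t : ℝ}
    (h01 : A 0 1 0 1 ≤ 5 / 2 * κ) (h23 : A 2 3 2 3 ≤ 5 / 2 * κ)
    (hp : 6 * (s ^ 2 * t ^ 2) * A 0 1 2 3 ≤ 2 * (5 / 2 * κ) * (s ^ 2 + t ^ 2) ^ 2 -
      2 * s ^ 4 * A 0 1 0 1 - 2 * t ^ 4 * A 2 3 2 3 -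
      s ^ 2 * t ^ 2 * (A 0 3 0 3 + A 2 1 2 1 + A 0 2 0 2 + A 1 3 1 3)) :
    6 * κ * (s ^ 2 - t ^ 2) ^ 2 ≤ 2 * Pt A (W5 (s ^ 2) (t ^ 2)) - Wt A (W5 (s ^ 2) (t ^ 2)) := by
  rw [Wt5 h, Pt5 hr]
  have z : ∀ a b, A a a b b = 0 := by
    intro a b
    have := h.a1 a a b b
    linarith
  have sy : ∀ a b, A a b a b = A b a b a := by
    intro a b
    rw [h.a1 a b a b, h.a2 b a a b]
    ring
  have r0 := hr 0 0
  have r1 := hr 1 1
  have r2 := hr 2 2
  have r3 := hr 3 3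
  have r4 := hr 4 4
  simp only [if_true] at r0 r1 r2 r3 r4
  unfold Rc at r0 r1 r2 r3 r4
  simp only [Fin.sum_univ_five] at r0 r1 r2 r3 r4
  have z0 := z 0 0
  have z1 := z 1 1
  have z2 := z 2 2
  have z3 := z 3 3
  have z4 := z 4 4
  have s1 := sy 0 1
  have s2 := sy 0 2
  have s3 := sy 0 3
  have s4 := sy 0 4
  have s5 := sy 1 2
  have s6 := sy 1 3
  have s7 := sy 1 4
  have s8 := sy 2 3
  have s9 := sy 2 4
  have s10 := sy 3 4
  have mix : A 0 3 0 3 + A 2 1 2 1 + A 0 2 0 2 + A 1 3 1 3 =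
      6 * κ - A 0 1 0 1 - A 2 3 2 3 := by linarith
  rw [mix] at hp
  have n1 : 0 ≤ (s ^ 4 + s ^ 2 * t ^ 2) * (5 / 2 * κ - A 0 1 0 1) :=
    mul_nonneg (by positivity) (by linarith)
  have n2 : 0 ≤ (t ^ 4 + s ^ 2 * t ^ 2) * (5 / 2 * κ - A 2 3 2 3) :=
    mul_nonneg (by positivity) (by linarith)
  nlinarith [hp, n1, n2]

variable {E : Type*} [NormedAddCommGroup E] [NormedSpace ℝ E] [FiniteDimensional ℝ E]
  {H : Type*} [TopologicalSpace H] {I : ModelWithCorners ℝ E H}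
  {M : Type*} [TopologicalSpace M] [ChartedSpace H M] [IsManifold I ∞ M]
  [RiemannianBundle (fun x : M => TangentSpace I x)]
  [IsContMDiffRiemannianBundle I ∞ E (fun x : M => TangentSpace I x)]
  [T2Space M] [SigmaCompactSpace M] [Nontrivial E]
  {cov : CovariantDerivative I E (TangentSpace I : M → Type _)}

/-- A skew endomorphism of a five-dimensional space in normal form. -/
theorem nf_five (hn : Module.finrank ℝ E = 5) {θ : BilField I M} (hθ : IsForm θ) (z : M) :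
    ∃ (b : OrthonormalBasis (Fin 5) ℝ (TangentSpace I z)) (s t : ℝ), 0 ≤ s ∧ 0 ≤ t ∧
      ∀ i j, θ z (b i) (b j) = W5 (s ^ 2) (t ^ 2) i j := by
  have hfd : FiniteDimensional ℝ (TangentSpace I z) := inferInstanceAs (FiniteDimensional ℝ E)
  have hBs : ∀ (u v : TangentSpace I z), inner ℝ (Bt hn θ z u) v =
      (- inner ℝ u (Bt hn θ z v) : ℝ) := by
    intro u v
    rw [Bt_inner, real_inner_comm, Bt_inner]
    exact hθ.skew z u v
  have hn' : Module.finrank ℝ (TangentSpace I z) = 5 := hn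
  obtain ⟨m, r, x, y, w, β, hr, hm, nf⟩ := exists_nf 5 (TangentSpace I z) (Bt hn θ z) hn' hBs
  obtain rfl : m = 2 := by omega
  obtain rfl : r = 1 := by omega
  let v : Fin 5 → TangentSpace I z := ![x 0, y 0, x 1, y 1, w 0]
  have yx : ∀ i j, inner ℝ (y i) (x j) = (0 : ℝ) := fun i j => by
    rw [real_inner_comm]; exact nf.xy j i
  have zx : ∀ i j, inner ℝ (w i) (x j) = (0 : ℝ) := fun i j => by
    rw [real_inner_comm]; exact nf.xz j i
  have zy : ∀ i j, inner ℝ (w i) (y j) = (0 : ℝ) := fun i j => by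
    rw [real_inner_comm]; exact nf.yz j i
  have hv : ∀ i j, inner ℝ (v i) (v j) = if i = j then (1 : ℝ) else 0 := by
    intro i j
    fin_cases i <;> fin_cases j <;>
      simp [v, -inner_self_eq_norm_sq_to_K, nf.xx, nf.yy, nf.zz, nf.xy, nf.xz, nf.yz, yx, zx, zy]
  obtain ⟨b, hb⟩ := exists_onb hn z v hv
  refine ⟨b, Real.sqrt (β 0), Real.sqrt (β 1), Real.sqrt_nonneg _, Real.sqrt_nonneg _, ?_⟩
  intro i j
  rw [hb, hb, Real.sq_sqrt (nf.nn 0), Real.sq_sqrt (nf.nn 1), ← Bt_inner hn θ z]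
  fin_cases i <;> fin_cases j <;>
    simp [v, W5, -inner_self_eq_norm_sq_to_K, nf.Bx, nf.By, nf.Bz, real_inner_smul_left, nf.xx,
      nf.yy, nf.zz, nf.xy, nf.xz, nf.yz, yx, zx, zy]

end Pool.Agent.L5helper93.Geo

end
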