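import Mathlib
import Pool.Agent.L5helper93.Geo.Five

/-!
# Harmonic two-forms on Einstein manifolds of dimension five: the main theorem
-/

open Bundle Manifold ContDiff VectorField Filter
open scoped Topology

set_option linter.unusedSectionVars false
set_option linter.unusedVariables false
set_option linter.unusedSimpArgs false

noncomputable section

namespace Pool.Agent.L5helper93.Geo

open Pool.Agent.Results.MP_b296c2_gt
open Pool.Agent.Results.MP_b296c2_gt.Riemannian
open Pool.Agent.L5helper93.Ein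

variable {E : Type*} [NormedAddCommGroup E] [NormedSpace ℝ E] [FiniteDimensional ℝ E]
  {H : Type*} [TopologicalSpace H] {I : ModelWithCorners ℝ E H}
  {M : Type*} [TopologicalSpace M] [ChartedSpace H M] [IsManifold I ∞ M]
  [RiemannianBundle (fun x : M => TangentSpace I x)]
  [IsContMDiffRiemannianBundle I ∞ E (fun x : M => TangentSpace I x)]
  [T2Space M] [SigmaCompactSpace M] [Nontrivial E]
  {cov : CovariantDerivative I E (TangentSpace I : M → Type _)}

/-- The Weitzenböck term in dimension five. -/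
theorem five_point (hn : Module.finrank ℝ E = 5) (h : IsLeviCivita cov)
    {R : CurvField I M} (hR : IsRiemannTensor cov R) {κ : ℝ} (hκ : 0 < κ) {z : M}
    (hE : ∀ (b : OrthonormalBasis (Fin 5) ℝ (TangentSpace I z)) (u v : TangentSpace I z),
      ∑ i, inner ℝ (R z u (b i) (b i)) v = 4 * κ * inner ℝ u v)
    (hsec : ∀ (u v : TangentSpace I z), inner ℝ u u = (1 : ℝ) → inner ℝ v v = (1 : ℝ) →
      inner ℝ u v = (0 : ℝ) → inner ℝ (R z u v v) u ≤ 5 / 2 * κ)
    {θ : BilField I M} (hθ : IsForm θ) {b : OrthonormalBasis (Fin 5) ℝ (TangentSpace I z)}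
    {s t : ℝ} (hb : ∀ i j, θ z (b i) (b j) = W5 (s ^ 2) (t ^ 2) i j)
    {e : Fin 5 → Π x : M, TangentSpace I x} (ha : Adapted cov z e) (he : ∀ i, e i z = b i) :
    6 * κ * (s ^ 2 - t ^ 2) ^ 2 ≤ Wz R θ z e := by
  have hfd : FiniteDimensional ℝ (TangentSpace I z) := inferInstanceAs (FiniteDimensional ℝ E)
  have hct : Pointwise.IsCurvatureTensor (R z) := isCurvatureTensor h hR z
  have hon : ∀ i j, inner ℝ (b i) (b j) = if i = j then (1 : ℝ) else 0 :=
    fun i j => orthonormal_iff_ite.1 b.orthonormal i j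
  have hw : wf θ z e = W5 (s ^ 2) (t ^ 2) := by
    ext i j
    unfold wf
    rw [he, he, hb]
  have hA : ∀ a c d f, Af R z e a c d f = inner ℝ (R z (b a) (b c) (b f)) (b d) := by
    intro a c d f
    unfold Af TF RF
    rw [he, he, he, he]
  have hrc : ∀ a c, Rc (Af R z e) a c = if a = c then 4 * κ else 0 := by
    intro a c
    unfold Rc
    simp only [hA]
    rw [hE b (b a) (b c), hon]
    split_ifs <;> ring
  have hs := sec_hom (V := TangentSpace I z) hsec
  unfold Wz
  rw [hw]
  refine five_alg (Af_curv h hR ha) hrc ?_ ?_ ?_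
  · rw [hA]
    exact hsec _ _ (by simp [hon, -inner_self_eq_norm_sq_to_K])
      (by simp [hon, -inner_self_eq_norm_sq_to_K]) (by simp [hon])
  · rw [hA]
    exact hsec _ _ (by simp [hon, -inner_self_eq_norm_sq_to_K])
      (by simp [hon, -inner_self_eq_norm_sq_to_K]) (by simp [hon])
  · simp only [hA]
    exact pair_upper (V := TangentSpace I z) hct (fun u v huv => hs u v huv)
      (by simp [hon, -inner_self_eq_norm_sq_to_K]) (by simp [hon, -inner_self_eq_norm_sq_to_K])
      (by simp [hon, -inner_self_eq_norm_sq_to_K]) (by simp [hon, -inner_self_eq_norm_sq_to_K])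
      (by simp [hon]) (by simp [hon]) (by simp [hon]) (by simp [hon]) (by simp [hon])
      (by simp [hon]) s t

/-- The main theorem in dimension five. -/
theorem five_main [BoundarylessManifold I M] [CompactSpace M] [PreconnectedSpace M]
    (hn : Module.finrank ℝ E = 5) (h : IsLeviCivita cov)
    {R : CurvField I M} (hR : IsRiemannTensor cov R) {κ : ℝ} (hκ : 0 < κ)
    (hE : ∀ (x : M) (b : OrthonormalBasis (Fin 5) ℝ (TangentSpace I x)) (u v : TangentSpace I x),
      ∑ i, inner ℝ (R x u (b i) (b i)) v = 4 * κ * inner ℝ u v)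
    (hsec : ∀ (x : M) (u v : TangentSpace I x), inner ℝ u u = (1 : ℝ) → inner ℝ v v = (1 : ℝ) →
      inner ℝ u v = (0 : ℝ) → inner ℝ (R x u v v) u ≤ 5 / 2 * κ)
    {θ : BilField I M} (hθ : IsForm θ)
    (hc : ∀ ⦃V X Y : Π x : M, TangentSpace I x⦄, CMDiff ∞ (T% V) → CMDiff ∞ (T% X) →
      CMDiff ∞ (T% Y) → ∀ x, DO cov θ V X Y x + DO cov θ X Y V x + DO cov θ Y V X x = 0)
    (hd : ∀ (x : M) (e : Fin 5 → Π x : M, TangentSpace I x), (∀ i, CMDiff ∞ (T% (e i))) →
      (∀ i j, inner ℝ (e i x) (e j x) = if i = j then (1 : ℝ) else 0) →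
      ∀ Y : Π x : M, TangentSpace I x, CMDiff ∞ (T% Y) → ∑ i, DO cov θ (e i) (e i) Y x = 0)
    (x : M) (u v : TangentSpace I x) : θ x u v = 0 := by
  obtain ⟨hpar, hconst, hzero⟩ := weitz_main hn h hR hθ hc hd (by
    intro z
    obtain ⟨b, s, t, hs, ht, hb⟩ := nf_five hn hθ z
    obtain ⟨e, ha, he⟩ := frame_through h z b
    refine ⟨e, ha, ?_⟩
    have := five_point hn h hR hκ (hE z) (hsec z) hθ hb ha he
    have h2 : 0 ≤ 6 * κ * (s ^ 2 - t ^ 2) ^ 2 := by positivity
    linarith)
  obtain ⟨b, s, t, hs, ht, hb⟩ := nf_five hn hθ x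
  obtain ⟨e, ha, he⟩ := frame_through h x b
  have h1 := five_point hn h hR hκ (hE x) (hsec x) hθ hb ha he
  rw [hzero x e ha] at h1
  have h2 : s ^ 2 = t ^ 2 := by
    have h3 : (s ^ 2 - t ^ 2) ^ 2 ≤ 0 := by
      by_contra hcon
      push Not at hcon
      have : 0 < 6 * κ * (s ^ 2 - t ^ 2) ^ 2 := by positivity
      linarith
    nlinarith [sq_nonneg (s ^ 2 - t ^ 2)]
  by_cases hs0 : s = 0
  · -- the form vanishes at `x`
    have ht0 : t ^ 2 = 0 := by rw [← h2, hs0]; ring
    have h4 : ∀ i j, θ x (b i) (b j) = 0 := by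
      intro i j
      rw [hb, ht0, hs0]
      fin_cases i <;> fin_cases j <;> simp [W5]
    have h5 := b.sum_repr u
    have h6 := b.sum_repr v
    rw [← h5, ← h6]
    simp only [map_sum, map_smul, LinearMap.sum_apply, LinearMap.smul_apply, h4, smul_zero,
      Finset.sum_const_zero]
  · exfalso
    have hs2 : s ^ 2 ≠ 0 := pow_ne_zero 2 hs0
    have hct : Pointwise.IsCurvatureTensor (R x) := isCurvatureTensor h hR x
    have hker : ∀ w, θ x (b 4) w = 0 := by
      intro w
      have h5 := b.sum_repr w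
      rw [← h5, map_sum]
      refine Finset.sum_eq_zero fun i _ => ?_
      rw [map_smul, hb]
      fin_cases i <;> simp [W5]
    have hact : ∀ p q, R x p q (b 4) = 0 := by
      intro p q
      have h3 : ∀ w, θ x (R x p q (b 4)) w = 0 := by
        intro w
        have := curv_act h hR hθ hpar x p q (b 4) w
        rw [hker, add_zero] at this
        exact this
      set w := R x p q (b 4) with hw
      have hexp := b.sum_repr w
      have hex : ∀ j, ∑ i, (b.repr w i) * W5 (s ^ 2) (t ^ 2) i j = 0 := by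
        intro j
        have h5 := h3 (b j)
        rw [← hexp] at h5
        simpa only [map_sum, map_smul, LinearMap.sum_apply, LinearMap.smul_apply, hb,
          smul_eq_mul] using h5
      have c0 := hex 1
      have c1 := hex 0
      have c2 := hex 3
      have c3 := hex 2
      simp [Fin.sum_univ_five, W5, hs0] at c0 c1
      rw [← h2] at c2 c3
      simp [Fin.sum_univ_five, W5, hs0] at c2 c3
      have c4 : b.repr w 4 = 0 := by
        rw [b.repr_apply_apply, real_inner_comm]
        have := hct.skew p q (b 4) (b 4)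
        rw [← hw, real_inner_comm w (b 4)] at this
        have e1 : (inner ℝ w (b 4) : ℝ) = inner ℝ (b 4) w := real_inner_comm _ _
        linarith
      rw [← hexp, Fin.sum_univ_five, c0, c1, c2, c3, c4]
      simp
    have h7 := hE x b (b 4) (b 4)
    have h8 : ∀ i, inner ℝ (R x (b 4) (b i) (b i)) (b 4) = (0 : ℝ) := by
      intro i
      rw [hct.skew, hact, inner_zero_right, neg_zero]
    rw [Finset.sum_eq_zero fun i _ => h8 i] at h7
    have h9 : inner ℝ (b 4) (b 4) = (1 : ℝ) := by
      have := orthonormal_iff_ite.1 b.orthonormal 4 4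
      simpa using this
    rw [h9] at h7
    linarith

end Pool.Agent.L5helper93.Geo

end
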