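import Mathlib
import Pool.Agent.L5helper93.Geo.Norm
import Pool.Agent.L5helper93.Geo.Final
import Pool.Agent.L5helper93.Ein.Sharp

/-!
# The sharp rigidity theorem in dimension eight
-/

open Bundle Manifold ContDiff VectorField Filter
open scoped Topology

set_option linter.unusedSectionVars false
set_option linter.unusedVariables false
set_option linter.unusedSimpArgs false

noncomputable section

namespace Pool.Agent.L5helper93.Geo

open Pool.Agent.Results.MP_b296c2_gt Pool.Agent.Results.MP_b296c2_gt.Riemannian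
open Pool.Agent.L5helper93.Ein

section Lin

variable {V : Type*} [NormedAddCommGroup V] [InnerProductSpace ℝ V]

theorem exists_onb_diag (b0 : OrthonormalBasis (Fin (7 + 1)) ℝ V) (x : V)
    (hx : inner ℝ x x = (1 : ℝ)) :
    ∃ b : OrthonormalBasis (Fin (7 + 1)) ℝ V, ∀ i, inner ℝ (b i) x = (Real.sqrt 8)⁻¹ := by
  have h8 : (Real.sqrt 8)⁻¹ * (Real.sqrt 8)⁻¹ = 1 / 8 := by
    rw [← mul_inv, Real.mul_self_sqrt (by norm_num)]
    norm_num
  set y : V := ∑ i, (Real.sqrt 8)⁻¹ • b0 i with hy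
  have hby : ∀ i, inner ℝ (b0 i) y = (Real.sqrt 8)⁻¹ := by
    intro i
    rw [hy, inner_sum]
    simp only [real_inner_smul_right, orthonormal_iff_ite.1 b0.orthonormal]
    simp
  have hyy : inner ℝ y y = (1 : ℝ) := by
    conv_lhs => rw [hy, sum_inner]
    simp only [real_inner_smul_left, ← hy, hby, h8]
    simp
  have hn : ‖y‖ = ‖x‖ := by
    have h1 := real_inner_self_eq_norm_sq y
    have h2 := real_inner_self_eq_norm_sq x
    rw [hyy] at h1
    rw [hx] at h2
    have : ‖y‖ ^ 2 = ‖x‖ ^ 2 := by rw [← h1, ← h2]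
    exact (sq_eq_sq₀ (norm_nonneg _) (norm_nonneg _)).1 this
  have hL := Submodule.reflection_sub hn
  refine ⟨b0.map (Submodule.reflection (ℝ ∙ (y - x))ᗮ), ?_⟩
  intro i
  rw [OrthonormalBasis.map_apply]
  have h1 := LinearIsometryEquiv.inner_map_map (Submodule.reflection (ℝ ∙ (y - x))ᗮ) (b0 i) y
  rw [hL, hby] at h1
  exact h1

end Lin

variable {E : Type*} [NormedAddCommGroup E] [NormedSpace ℝ E] [FiniteDimensional ℝ E]
  {H : Type*} [TopologicalSpace H] {I : ModelWithCorners ℝ E H}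
  {M : Type*} [TopologicalSpace M] [ChartedSpace H M] [IsManifold I ∞ M]
  [RiemannianBundle (fun x : M => TangentSpace I x)]
  [IsContMDiffRiemannianBundle I ∞ E (fun x : M => TangentSpace I x)]
  [T2Space M] [SigmaCompactSpace M] [Nontrivial E]
  {cov : CovariantDerivative I E (TangentSpace I : M → Type _)}

/-- The components with respect to an adapted frame, normalized. -/
def An (R : CurvField I M) (κ : ℝ) (z : M) {n : ℕ} (e : Fin n → Π x : M, TangentSpace I x) :
    Fin n → Fin n → Fin n → Fin n → ℝ := fun a b c d => κ⁻¹ * Af R z e a b c d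

section

variable {m : ℕ} (hn : Module.finrank ℝ E = m + 1) (h : IsLeviCivita cov) {R : CurvField I M}
  (hR : IsRiemannTensor cov R) {κ : ℝ} (hκ : 0 < κ)
  (hE : ∀ (x : M) (b : OrthonormalBasis (Fin (m + 1)) ℝ (TangentSpace I x))
    (u v : TangentSpace I x),
      ∑ i, inner ℝ (R x u (b i) (b i)) v = (((m + 1 : ℕ) : ℝ) - 1) * κ * inner ℝ u v)
  {z : M} {e : Fin (m + 1) → Π x : M, TangentSpace I x} (ha : Adapted cov z e)

include hn hE ha in
theorem ein_near : ∀ᶠ y in 𝓝 z, ∀ a b, ∑ k, TF R (e a) (e k) (e k) (e b) y =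
      ((m : ℝ) * κ) * if a = b then 1 else 0 := by
  filter_upwards [ha.on] with y hy a b
  obtain ⟨bb, hbb⟩ := exists_onb hn y (fun i => e i y) hy
  have := hE y bb (e a y) (e b y)
  simp only [hbb] at this
  rw [hy] at this
  unfold TF RF
  rw [this]
  push_cast
  ring

include h hR ha in
theorem An_curv : IsCurv (An R κ z e) := IsCurv_smul (Af_curv h hR ha)

include hn hE ha hκ in
theorem An_ein : IsEin (An R κ z e) := by
  intro a b
  have h6 := (ein_near hn hE ha).self_of_nhds a b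
  unfold An
  rw [← Finset.mul_sum]
  have h7 : ∑ i, Af R z e a i b i = ((m : ℝ) * κ) * if a = b then 1 else 0 := h6
  rw [h7]
  unfold dl
  simp only [Fintype.card_fin]
  push_cast
  field_simp
  ring

include ha hκ in
theorem An_sec {k : ℝ} (hsec : ∀ (u v : TangentSpace I z), inner ℝ u u = (1 : ℝ) →
      inner ℝ v v = (1 : ℝ) → inner ℝ u v = (0 : ℝ) → inner ℝ (R z u v v) u ≤ k * κ) :
    SecLE (An R κ z e) k := by
  intro u v hu hv huv
  have e1 : Kf (An R κ z e) u v = κ⁻¹ * Kf (Af R z e) u v := by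
    unfold Kf An
    simp only [Finset.mul_sum, mul_assoc]
  rw [e1, Kf_geo]
  have e2 : ∀ a b : Fin (m + 1) → ℝ, inner ℝ (∑ i, a i • e i z) (∑ j, b j • e j z) =
      ∑ i, a i * b i := by
    intro a b
    simp only [sum_inner, inner_sum, real_inner_smul_left, real_inner_smul_right, ha.onp]
    simp [mul_comm]
  have h6 := hsec (∑ i, u i • e i z) (∑ i, v i • e i z)
    (by rw [e2, ← hu]; exact Finset.sum_congr rfl fun i _ => (sq (u i)).symm)
    (by rw [e2, ← hv]; exact Finset.sum_congr rfl fun i _ => (sq (v i)).symm)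
    (by rw [e2, huv])
  calc κ⁻¹ * _ ≤ κ⁻¹ * (k * κ) := mul_le_mul_of_nonneg_left h6 (inv_nonneg.2 hκ.le)
    _ = _ := by field_simp

include hκ in
theorem An_Qp : Qp (An R κ z e) = κ⁻¹ ^ 3 *
      (2 * ((m : ℝ) * κ) * nS (Af R z e) - 8 * X3 (Af R z e) + 4 * Y3 (Af R z e)) := by
  unfold Qp An
  rw [nS_smul, X3_smul, Y3_smul]
  simp only [Fintype.card_fin]
  push_cast
  field_simp
  ring

include h hR ha in
theorem nR_nS : nR hn R z = nS (Af R z e) := by
  rw [(nR_near h hR hn ha).self_of_nhds]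
  unfold nS
  refine Finset.sum_congr rfl fun k _ => Finset.sum_congr rfl fun l _ => ?_
  rw [Finset.sum_comm]
  rfl

theorem Jf_geo (ξ : Fin (m + 1) → ℝ) (a b : Fin (m + 1)) :
    Jf (An R κ z e) ξ a b = κ⁻¹ * inner ℝ (R z (e a z) (∑ i, ξ i • e i z) (∑ j, ξ j • e j z))
      (e b z) := by
  rw [Jf_eq]
  unfold An
  simp only [map_sum, map_smul, LinearMap.sum_apply, LinearMap.smul_apply, sum_inner,
    real_inner_smul_left]
  rw [Finset.mul_sum, Finset.sum_comm]
  refine Finset.sum_congr rfl fun j _ => ?_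
  rw [Finset.mul_sum, Finset.mul_sum]
  refine Finset.sum_congr rfl fun i _ => ?_
  unfold Af TF RF
  ring

end

/-- The spectral alternative for the Jacobi operator of `x`. -/
def Spec (R : CurvField I M) (κ : ℝ) (z : M) (x : TangentSpace I z)
    (W : Fin 7 → TangentSpace I z) (e : Fin 7 → ℝ) : Prop :=
  (∀ i j, inner ℝ (W i) (W j) = if i = j then (1 : ℝ) else 0) ∧ (∀ i, inner ℝ (W i) x = (0 : ℝ)) ∧
    (∀ v, R z v x x = ∑ i, (κ * (1 + e i) * inner ℝ (W i) v) • W i) ∧ ∑ i, e i = 0 ∧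
    ((∀ i, e i = 0) ∨ Pat7 e)

section Eight

variable (hn : Module.finrank ℝ E = 7 + 1) (h : IsLeviCivita cov) {R : CurvField I M}
  (hR : IsRiemannTensor cov R) {κ : ℝ} (hκ : 0 < κ)
  (hE : ∀ (x : M) (b : OrthonormalBasis (Fin (7 + 1)) ℝ (TangentSpace I x))
    (u v : TangentSpace I x),
      ∑ i, inner ℝ (R x u (b i) (b i)) v = (((7 + 1 : ℕ) : ℝ) - 1) * κ * inner ℝ u v)
  {z : M}
  (hsec : ∀ (u v : TangentSpace I z), inner ℝ u u = (1 : ℝ) →
      inner ℝ v v = (1 : ℝ) → inner ℝ u v = (0 : ℝ) → inner ℝ (R z u v v) u ≤ 7 / 4 * κ)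

include hn h hR hκ hE hsec in
theorem spec8 (hQ : ∀ e : Fin (7 + 1) → Π x : M, TangentSpace I x, Adapted cov z e →
      Qp (An R κ z e) ≤ 0) (x : TangentSpace I z) (hx : inner ℝ x x = (1 : ℝ)) :
    ∃ (W : Fin 7 → TangentSpace I z) (e : Fin 7 → ℝ), Spec R κ z x W e := by
  obtain ⟨b, hb⟩ := exists_onb_diag (onb hn z) x hx
  obtain ⟨e, h1, h2, h3, h4⟩ := exists_on_frame h.metric z (7 + 1) b (by
    intro i j
    exact orthonormal_iff_ite.1 b.orthonormal i j)
  have ha : Adapted cov z e := ⟨h1, h3, h4⟩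
  set A := An R κ z e with hA
  have hC : IsCurv A := An_curv h hR ha
  have hEi : IsEin A := An_ein hn hκ hE ha
  have hS : SecLE A (7 / 4) := An_sec hκ ha hsec
  set u0 : Fin (7 + 1) → ℝ := fun _ => (Real.sqrt 8)⁻¹ with hu0
  have hu1 : ∑ a, u0 a ^ 2 = 1 := by
    have h8 : (Real.sqrt 8)⁻¹ ^ 2 = 1 / 8 := by
      rw [inv_pow, Real.sq_sqrt (by norm_num)]
      norm_num
    simp only [hu0, h8]
    simp
  have hxe : x = ∑ i, u0 i • e i z := by
    have := b.sum_repr x
    simp only [b.repr_apply_apply, hb] at this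
    rw [← this]
    exact Finset.sum_congr rfl fun i _ => by rw [h2]
  have hP : Phi A u0 = 0 := eq_case7 hC hEi hS (hQ e ha) (fun i => rfl)
  obtain ⟨w, ev, g1, g2, g3, g4, g5, g6, g7⟩ := (config7 hC hEi hS hu1).2 hP
  let W : Fin 7 → TangentSpace I z := fun i => ∑ a, w i a • e a z
  have ho := ha.onp
  have hWin : ∀ i v, inner ℝ (W i) v = ∑ a, w i a * inner ℝ (e a z) v := by
    intro i v
    simp only [W, sum_inner, real_inner_smul_left]
  refine ⟨W, ev, ?_, ?_, ?_, g5, g7⟩
  · intro i j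
    rw [hWin, ← g1 i j]
    refine Finset.sum_congr rfl fun a _ => ?_
    congr 1
    simp only [W, inner_sum, real_inner_smul_right, ho]
    simp
  · intro i
    rw [hWin, ← g2 i]
    refine Finset.sum_congr rfl fun a _ => ?_
    congr 1
    rw [hxe]
    simp only [inner_sum, real_inner_smul_right, ho]
    simp
  · -- the operator
    have hR1 : ∀ a b', inner ℝ (R z (e a z) x x) (e b' z) =
        κ * ∑ i, (1 + ev i) * (w i a * w i b') := by
      intro a b'
      have h5 := Jf_geo (R := R) (κ := κ) (z := z) (e := e) u0 a b'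
      rw [← hxe] at h5
      rw [← g3 a b', hA, h5]
      field_simp
    have hR2 : ∀ a, R z (e a z) x x = ∑ i, (κ * (1 + ev i) * w i a) • W i := by
      intro a
      obtain ⟨bb, hbb⟩ := exists_onb hn z (fun i => e i z) ho
      refine InnerProductSpace.ext_inner_right_basis bb.toBasis fun b' => ?_
      rw [OrthonormalBasis.coe_toBasis, hbb, hR1, sum_inner, Finset.mul_sum]
      refine Finset.sum_congr rfl fun i _ => ?_
      rw [real_inner_smul_left]
      have : inner ℝ (W i) (e b' z) = w i b' := by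
        rw [hWin]
        simp only [ho]
        simp
      rw [this]
      ring
    intro v
    have h6 := ha.expand hn v
    have h7 : R z v x x = ∑ a, (inner ℝ v (e a z) : ℝ) • R z (e a z) x x := by
      conv_lhs => rw [h6]
      simp only [map_sum, map_smul, LinearMap.sum_apply, LinearMap.smul_apply]
    rw [h7]
    simp only [hR2, Finset.smul_sum, smul_smul]
    rw [Finset.sum_comm]
    refine Finset.sum_congr rfl fun i _ => ?_
    rw [← Finset.sum_smul, hWin, Finset.mul_sum]
    congr 1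
    refine Finset.sum_congr rfl fun a _ => ?_
    rw [real_inner_comm v]
    ring

/-- The squared norm of the Jacobi operator. -/
def jn (R : CurvField I M) (z : M) (b : OrthonormalBasis (Fin (7 + 1)) ℝ (TangentSpace I z))
    (x : TangentSpace I z) : ℝ := ∑ a, inner ℝ (R z (b a) x x) (R z (b a) x x)

theorem jn_spec {R : CurvField I M} {κ : ℝ} {z : M}
    (b : OrthonormalBasis (Fin (7 + 1)) ℝ (TangentSpace I z)) {x : TangentSpace I z}
    {W : Fin 7 → TangentSpace I z} {e : Fin 7 → ℝ} (hs : Spec R κ z x W e) :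
    jn R z b x = κ ^ 2 * (7 + ∑ i, e i ^ 2) := by
  obtain ⟨h1, h2, h3, h4, h5⟩ := hs
  unfold jn
  have e1 : ∀ a, inner ℝ (R z (b a) x x) (R z (b a) x x) =
      ∑ i, (κ * (1 + e i)) ^ 2 * inner ℝ (W i) (b a) ^ 2 := by
    intro a
    rw [h3 (b a)]
    simp only [sum_inner, inner_sum, real_inner_smul_left, real_inner_smul_right, h1]
    refine Finset.sum_congr rfl fun i _ => ?_
    simp
    ring
  simp only [e1]
  rw [Finset.sum_comm]
  have e2 : ∀ i, ∑ a, (κ * (1 + e i)) ^ 2 * inner ℝ (W i) (b a) ^ 2 = κ ^ 2 *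
      (1 + 2 * e i + e i ^ 2) := by
    intro i
    rw [← Finset.mul_sum, OrthonormalBasis.sum_sq_inner_left]
    have h6 : ‖W i‖ ^ 2 = 1 := by
      rw [← real_inner_self_eq_norm_sq, h1, if_pos rfl]
    rw [h6]
    ring
  simp only [e2, ← Finset.mul_sum, Finset.sum_add_distrib, h4]
  simp

theorem jn_cont {R : CurvField I M} {z : M}
    (b : OrthonormalBasis (Fin (7 + 1)) ℝ (TangentSpace I z)) : Continuous (jn R z b) := by
  have hfd : FiniteDimensional ℝ (TangentSpace I z) := inferInstanceAs (FiniteDimensional ℝ E)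
  have e1 : ∀ a (x : TangentSpace I z), R z (b a) x x =
      ∑ c, (inner ℝ (b c) x : ℝ) • R z (b a) (b c) x := by
    intro a x
    have h6 := b.sum_repr x
    simp only [b.repr_apply_apply] at h6
    have h7 : R z (b a) x = ∑ c, (inner ℝ (b c) x : ℝ) • R z (b a) (b c) := by
      conv_lhs => rw [← h6]
      simp only [map_sum, map_smul]
    have h8 := congrArg (fun L => L x) h7
    simp only [LinearMap.sum_apply, LinearMap.smul_apply] at h8
    exact h8
  have e2 : ∀ a, Continuous (fun x : TangentSpace I z => R z (b a) x x) := by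
    intro a
    have : (fun x : TangentSpace I z => R z (b a) x x) =
        fun x => ∑ c, (inner ℝ (b c) x : ℝ) • R z (b a) (b c) x := by
      ext1 x; exact e1 a x
    rw [this]
    refine continuous_finsetSum _ fun c _ => ?_
    exact (continuous_const.inner continuous_id).smul
      (LinearMap.continuous_of_finiteDimensional _)
  unfold jn
  exact continuous_finsetSum _ fun a _ => (e2 a).inner (e2 a)

theorem pat_sum {e : Fin 7 → ℝ} (hp : Pat7 e) (h0 : ∑ i, e i = 0) :
    ∑ i, e i ^ 2 = 189 / 64 := by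
  have h1 : ∀ i, e i ^ 2 = 3 / 16 * e i + 27 / 64 := by
    intro i
    rcases hp i with h | h <;> rw [h] <;> norm_num
  simp only [h1, Finset.sum_add_distrib, ← Finset.mul_sum, h0]
  simp
  norm_num

theorem pat_card {e : Fin 7 → ℝ} (hp : Pat7 e) (h0 : ∑ i, e i = 0) :
    (Finset.univ.filter fun i => e i = 3 / 4).card = 3 := by
  classical
  have h1 : ∀ i, e i = 21 / 16 * (if e i = 3 / 4 then 1 else 0) - 9 / 16 := by
    intro i
    rcases hp i with h | h
    · rw [h]; norm_num
    · rw [h]; norm_num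
  have h2 : ∑ i, e i = 21 / 16 * ((Finset.univ.filter fun i => e i = 3 / 4).card : ℝ) -
      9 / 16 * 7 := by
    conv_lhs => rw [Finset.sum_congr rfl fun i _ => h1 i]
    rw [Finset.sum_sub_distrib, ← Finset.mul_sum, Finset.sum_boole]
    simp
    norm_num
  rw [h0] at h2
  have h3 : ((Finset.univ.filter fun i => e i = 3 / 4).card : ℝ) = 3 := by linarith
  exact_mod_cast h3

/-- All unit vectors at a point have the same spectral type. -/
theorem spec_const {R : CurvField I M} {κ : ℝ} (hκ : 0 < κ) {z : M}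
    (b : OrthonormalBasis (Fin (7 + 1)) ℝ (TangentSpace I z))
    (hs : ∀ x : TangentSpace I z, inner ℝ x x = (1 : ℝ) →
      ∃ (W : Fin 7 → TangentSpace I z) (e : Fin 7 → ℝ), Spec R κ z x W e)
    {x y : TangentSpace I z} (hx : inner ℝ x x = (1 : ℝ)) (hy : inner ℝ y y = (1 : ℝ))
    (hjx : jn R z b x = 7 * κ ^ 2) : jn R z b y = 7 * κ ^ 2 := by
  have hval : ∀ v : TangentSpace I z, inner ℝ v v = (1 : ℝ) → jn R z b v = 7 * κ ^ 2 ∨
      jn R z b v = 637 / 64 * κ ^ 2 := by
    intro v hv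
    obtain ⟨W, e, hW⟩ := hs v hv
    rw [jn_spec b hW]
    obtain ⟨-, -, -, h4, h5⟩ := hW
    rcases h5 with h5 | h5
    · left
      rw [Finset.sum_eq_zero fun i _ => by rw [h5]; ring]
      ring
    · right
      rw [pat_sum h5 h4]
      ring
  by_contra hcon
  have hjy : jn R z b y = 637 / 64 * κ ^ 2 := (hval y hy).resolve_left hcon
  have hrank : 1 < Module.rank ℝ (TangentSpace I z) := by
    have h1 : Module.rank ℝ (TangentSpace I z) = 8 := by
      rw [rank_eq_card_basis b.toBasis]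
      simp
    rw [h1]
    norm_num
  have hsph := isPreconnected_sphere hrank (0 : TangentSpace I z) 1
  have hmem : ∀ v : TangentSpace I z, inner ℝ v v = (1 : ℝ) ↔
      v ∈ Metric.sphere (0 : TangentSpace I z) 1 := by
    intro v
    rw [mem_sphere_zero_iff_norm, real_inner_self_eq_norm_sq]
    constructor
    · intro h
      exact (pow_eq_one_iff_of_nonneg (norm_nonneg v) two_ne_zero).1 h
    · intro h
      rw [h]; norm_num
  have hiv := hsph.intermediate_value ((hmem x).1 hx) ((hmem y).1 hy)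
    (jn_cont (R := R) b).continuousOn
  have hκ2 : 0 < κ ^ 2 := by positivity
  obtain ⟨v, hv, hv2⟩ := hiv (show 8 * κ ^ 2 ∈ Set.Icc (jn R z b x) (jn R z b y) by
    rw [hjx, hjy]
    constructor <;> nlinarith)
  rcases hval v ((hmem v).2 hv) with h1 | h1 <;> rw [h1] at hv2 <;> nlinarith

/-- The sharp rigidity theorem in dimension eight. -/
theorem rigid8 [BoundarylessManifold I M] [CompactSpace M] [PreconnectedSpace M]
    (hn : Module.finrank ℝ E = 8) (h : IsLeviCivita cov) {R : CurvField I M}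
    (hR : IsRiemannTensor cov R) {κ : ℝ} (hκ : 0 < κ)
    (hE : ∀ (x : M) (b : OrthonormalBasis (Fin 8) ℝ (TangentSpace I x)) (u v : TangentSpace I x),
      ∑ i, inner ℝ (R x u (b i) (b i)) v = ((8 : ℝ) - 1) * κ * inner ℝ u v)
    (hsec : ∀ (x : M) (u v : TangentSpace I x), inner ℝ u u = (1 : ℝ) → inner ℝ v v = (1 : ℝ) →
      inner ℝ u v = (0 : ℝ) → inner ℝ (R x u v v) u ≤ 7 / 4 * κ) :
    (∀ (x : M) (u v w : TangentSpace I x),
      R x u v w = κ • ((inner ℝ v w : ℝ) • u - (inner ℝ u w : ℝ) • v)) ∨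
    ((∀ ⦃V X Y Z : Π x : M, TangentSpace I x⦄, CMDiff ∞ (T% V) → CMDiff ∞ (T% X) →
      CMDiff ∞ (T% Y) → CMDiff ∞ (T% Z) → ∀ z, DR cov R V X Y Z z = 0) ∧
    ∀ (z : M) (x : TangentSpace I z), inner ℝ x x = (1 : ℝ) →
      ∃ (W : Fin 7 → TangentSpace I z) (e : Fin 7 → ℝ), Spec R κ z x W e ∧ Pat7 e) := by
  have hn' : Module.finrank ℝ E = 7 + 1 := hn
  have hE' : ∀ (x : M) (b : OrthonormalBasis (Fin (7 + 1)) ℝ (TangentSpace I x))
      (u v : TangentSpace I x),
      ∑ i, inner ℝ (R x u (b i) (b i)) v = (((7 + 1 : ℕ) : ℝ) - 1) * κ * inner ℝ u v := by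
    intro x b u v
    have := hE x b u v
    rw [this]
    norm_num
  have hframe : ∀ z : M, ∃ e : Fin (7 + 1) → Π x : M, TangentSpace I x, Adapted cov z e ∧
      ∀ i, e i z = onb hn' z i := by
    intro z
    obtain ⟨e, h1, h2, h3, h4⟩ := exists_on_frame h.metric z (7 + 1) (onb hn' z) (by
      intro i j
      exact orthonormal_iff_ite.1 (onb hn' z).orthonormal i j)
    exact ⟨e, ⟨h1, h3, h4⟩, h2⟩
  have hQpos : ∀ (z : M) (e : Fin (7 + 1) → Π x : M, TangentSpace I x), Adapted cov z e →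
      0 ≤ 2 * (((7 : ℕ) : ℝ) * κ) * nS (Af R z e) - 8 * X3 (Af R z e) + 4 * Y3 (Af R z e) := by
    intro z e ha
    have h1 := Qp_nonneg7 (An_curv h hR (κ := κ) ha) (An_ein hn' hκ hE' ha)
      (An_sec hκ ha (hsec z))
    rw [An_Qp hκ] at h1
    exact nonneg_of_mul_nonneg_right h1 (by positivity)
  have hlap : ∀ (z : M) (e : Fin (7 + 1) → Π x : M, TangentSpace I x), Adapted cov z e →
      0 ≤ ∑ i, d% (fun y => d% (nR hn' R) y (e i y)) z (e i z) := by
    intro z e ha
    rw [nR_lap h hR hn' ha (ein_near hn' hE' ha)]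
    have h1 := hQpos z e ha
    have h2 : 0 ≤ ∑ i, ∑ k, ∑ l, ∑ q, ∑ m, (GF cov R (e i) (e k) (e l) (e q) (e m) z) ^ 2 :=
      Finset.sum_nonneg fun i _ => Finset.sum_nonneg fun k _ => Finset.sum_nonneg fun l _ =>
        Finset.sum_nonneg fun q _ => Finset.sum_nonneg fun m _ => sq_nonneg _
    linarith
  have hconst := strong_max hn' h (smooth_nR h hR hn') hlap
  have hzero : ∀ (z : M) (e : Fin (7 + 1) → Π x : M, TangentSpace I x), Adapted cov z e →
      (∀ i k l q m, GF cov R (e i) (e k) (e l) (e q) (e m) z = 0) ∧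
      2 * (((7 : ℕ) : ℝ) * κ) * nS (Af R z e) - 8 * X3 (Af R z e) + 4 * Y3 (Af R z e) = 0 := by
    intro z e ha
    have h0 := nR_lap h hR hn' ha (ein_near hn' hE' ha)
    have hcf : nR hn' R = fun _ => nR hn' R z := by
      ext y; exact hconst y z
    have h3 : ∀ i, d% (fun y => d% (nR hn' R) y (e i y)) z (e i z) = 0 := by
      intro i
      have : (fun y => d% (nR hn' R) y (e i y)) = fun _ => (0 : ℝ) := by
        ext y
        rw [hcf, mvfderiv_const]
        rfl
      rw [this, mvfderiv_const]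
      rfl
    rw [Finset.sum_eq_zero fun i _ => h3 i] at h0
    have h1 := hQpos z e ha
    have n5 : ∀ i k l q m, 0 ≤ (GF cov R (e i) (e k) (e l) (e q) (e m) z) ^ 2 :=
      fun _ _ _ _ _ => sq_nonneg _
    have n4 := fun i k l q => Finset.sum_nonneg (s := Finset.univ) fun m _ => n5 i k l q m
    have n3 := fun i k l => Finset.sum_nonneg (s := Finset.univ) fun q _ => n4 i k l q
    have n2 := fun i k => Finset.sum_nonneg (s := Finset.univ) fun l _ => n3 i k l
    have n1 := fun i => Finset.sum_nonneg (s := Finset.univ) fun k _ => n2 i k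
    have n0 := Finset.sum_nonneg (s := Finset.univ) fun i _ => n1 i
    have z0 : ∑ i, ∑ k, ∑ l, ∑ q, ∑ m, (GF cov R (e i) (e k) (e l) (e q) (e m) z) ^ 2 = 0 :=
      le_antisymm (by linarith) n0
    refine ⟨?_, by linarith⟩
    intro i k l q m
    have z1 := (Finset.sum_eq_zero_iff_of_nonneg fun i _ => n1 i).1 z0 i (Finset.mem_univ _)
    have z2 := (Finset.sum_eq_zero_iff_of_nonneg fun k _ => n2 i k).1 z1 k (Finset.mem_univ _)
    have z3 := (Finset.sum_eq_zero_iff_of_nonneg fun l _ => n3 i k l).1 z2 l (Finset.mem_univ _)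
    have z4 := (Finset.sum_eq_zero_iff_of_nonneg fun q _ => n4 i k l q).1 z3 q (Finset.mem_univ _)
    have z5 := (Finset.sum_eq_zero_iff_of_nonneg fun m _ => n5 i k l q m).1 z4 m
      (Finset.mem_univ _)
    exact pow_eq_zero_iff (two_ne_zero) |>.1 z5
  have hspec : ∀ (z : M) (x : TangentSpace I z), inner ℝ x x = (1 : ℝ) →
      ∃ (W : Fin 7 → TangentSpace I z) (e : Fin 7 → ℝ), Spec R κ z x W e := by
    intro z x hx
    refine spec8 hn' h hR hκ hE' (hsec z) (fun e ha => ?_) x hx
    rw [An_Qp hκ, (hzero z e ha).2, mul_zero]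
  by_cases hcase : ∃ z0 : M, ∀ x : TangentSpace I z0, inner ℝ x x = (1 : ℝ) →
      jn R z0 (onb hn' z0) x = 7 * κ ^ 2
  · left
    obtain ⟨z0, hz0⟩ := hcase
    obtain ⟨e, ha, hez⟩ := hframe z0
    have hC : IsCurv (An R κ z0 e) := An_curv h hR ha
    have hEi : IsEin (An R κ z0 e) := An_ein hn' hκ hE' ha
    have hD : ∀ σ : Fin (7 + 1) → Fin 4, Dev (An R κ z0 e) (fun i => node (σ i)) = 0 := by
      intro σ
      obtain ⟨r, u, hu, hx⟩ := exists_unit (fun i => node (σ i))
      rw [hx, Dev_smul]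
      set X : TangentSpace I z0 := ∑ i, u i • e i z0 with hX
      have hXX : inner ℝ X X = (1 : ℝ) := by
        rw [← hu, hX]
        simp only [sum_inner, inner_sum, real_inner_smul_left, real_inner_smul_right, ha.onp]
        simp [pow_two]
      have h5 := hz0 X hXX
      have h6 : tJ2 (An R κ z0 e) u = κ⁻¹ ^ 2 * jn R z0 (onb hn' z0) X := by
        unfold tJ2 jn
        rw [Finset.mul_sum]
        refine Finset.sum_congr rfl fun a _ => ?_
        have h7 : ∀ b, Jf (An R κ z0 e) u a b ^ 2 = κ⁻¹ ^ 2 *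
            inner ℝ (R z0 (onb hn' z0 a) X X) (onb hn' z0 b) ^ 2 := by
          intro b
          rw [Jf_geo, ← hX, hez, hez]
          ring
        have h8 : ∀ b, Jf (An R κ z0 e) u a b * Jf (An R κ z0 e) u a b =
            Jf (An R κ z0 e) u a b ^ 2 := fun b => by ring
        simp only [h8, h7, ← Finset.mul_sum, OrthonormalBasis.sum_sq_inner_left,
          real_inner_self_eq_norm_sq]
      have h9 : Dev (An R κ z0 e) u = 0 := by
        unfold Dev
        have hn2 : n2 u = 1 := hu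
        have hk : κ⁻¹ ^ 2 * (7 * κ ^ 2) = 7 := by field_simp
        rw [hn2, h6, h5, hk]
        simp
        norm_num
      rw [h9, mul_zero]
    have hE2 := Ex_eq_zero hD
    rw [Ex_Dev hC hEi] at hE2
    have hcard : (Fintype.card (Fin (7 + 1)) : ℝ) = 8 := by simp
    rw [hcard] at hE2
    have h10 : nS (An R κ z0 e) = 2 * 8 * 7 := by linarith
    have h11 : nS (Af R z0 e) = 2 * 8 * 7 * κ ^ 2 := by
      have h12 : nS (An R κ z0 e) = κ⁻¹ ^ 2 * nS (Af R z0 e) := nS_smul _ _
      rw [h12] at h10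
      field_simp at h10
      linarith
    intro x u v w
    have h13 : nR hn' R x = 2 * 8 * 7 * κ ^ 2 := by
      rw [hconst x z0, nR_nS hn' h hR ha, h11]
    refine eq_const_of_S4 (isCurvatureTensor h hR x) (onb hn' x) (hE' x (onb hn' x)) ?_ u v w
    unfold nR at h13
    rw [h13]
    norm_num
  · right
    push Not at hcase
    refine ⟨?_, ?_⟩
    · intro V X Y Z hV hX hY hZ z
      obtain ⟨e, ha, -⟩ := hframe z
      exact DR_vanish h hR ha hn' hV hX hY hZ (hzero z e ha).1
    · intro z x hx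
      obtain ⟨W, e, hW⟩ := hspec z x hx
      refine ⟨W, e, hW, ?_⟩
      rcases hW.2.2.2.2 with h1 | h1
      · exfalso
        obtain ⟨y, hy1, hy2⟩ := hcase z
        refine hy2 (spec_const hκ (onb hn' z) (hspec z) hx hy1 ?_)
        rw [jn_spec _ hW, Finset.sum_eq_zero fun i _ => by rw [h1]; ring]
        ring
      · exact h1

end Eight

end Pool.Agent.L5helper93.Geo
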