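import Mathlib
import Pool.Agent.L5helper93.Geo.TwoForm

/-!
# Harmonic two-forms on manifolds with bounded sectional curvature: the main theorem
-/

open Bundle Manifold ContDiff VectorField Filter
open scoped Topology

set_option linter.unusedSectionVars false
set_option linter.unusedVariables false
set_option linter.unusedSimpArgs false

noncomputable section

namespace Pool.Agent.L5helper93.Geo

open Pool.Agent.Results.MP_b296c2_gt
open Pool.Agent.Results.MP_b296c2_gt.Riemannian
open Pool.Agent.L5helper93.Ein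

section Pt

variable {V : Type*} [NormedAddCommGroup V] [InnerProductSpace ℝ V]

/-- The curvature tensor of constant holomorphic sectional curvature `k`. -/
def HolR (J : V → V) (k : ℝ) (x y z : V) : V :=
  (k / 4) • ((inner ℝ y z : ℝ) • x - (inner ℝ x z : ℝ) • y + (inner ℝ (J y) z : ℝ) • J x -
    (inner ℝ (J x) z : ℝ) • J y - (2 * inner ℝ (J x) y : ℝ) • J z)

/-- A curvature tensor commuting with a complex structure with constant holomorphic sectional
curvature. -/
theorem hol_form {R : V →ₗ[ℝ] V →ₗ[ℝ] V →ₗ[ℝ] V} (h : Pointwise.IsCurvatureTensor R)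
    {J : V →ₗ[ℝ] V} {k : ℝ} (J2 : ∀ x, J (J x) = - x)
    (Jo : ∀ x y, inner ℝ (J x) (J y) = (inner ℝ x y : ℝ)) (hRJ : ∀ x y z, R x y (J z) = J (R x y z))
    (hf : ∀ v, inner ℝ (R v (J v) (J v)) v = k * (inner ℝ v v * inner ℝ v v)) (x y z : V) :
    R x y z = HolR J k x y z := by
  have js : ∀ a b, inner ℝ (J a) b = (- inner ℝ (J b) a : ℝ) := by
    intro a b
    rw [← Jo (J a) b, J2, inner_neg_left, real_inner_comm]
  have js2 : ∀ a b, inner ℝ a (J b) = (- inner ℝ (J a) b : ℝ) := by
    intro a b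
    rw [js a b, neg_neg, real_inner_comm]
  apply ext_inner_right ℝ
  intro w
  have key := hol_zero (fun x y z w => inner ℝ (R x y z) w - k / 4 *
    (inner ℝ y z * inner ℝ x w - inner ℝ x z * inner ℝ y w + inner ℝ (J y) z * inner ℝ (J x) w -
    inner ℝ (J x) z * inner ℝ (J y) w - 2 * inner ℝ (J x) y * inner ℝ (J z) w)) J
    (by
      intro x x' y z w
      simp only [map_add, LinearMap.add_apply, inner_add_left]
      ring)
    (by
      intro x y z w
      rw [h.antisymm x y z, inner_neg_left, js y x]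
      ring)
    (by
      intro x y z w
      rw [h.skew x y z w, js z w, real_inner_comm z (R x y w)]
      ring)
    (by
      intro x y z w
      have b := congrArg (fun t => inner ℝ t w) (h.bianchi x y z)
      simp only [inner_add_left, inner_zero_left] at b
      rw [real_inner_comm z x, real_inner_comm y x, real_inner_comm z y, js z x, js z y, js y x]
      linear_combination b)
    (fun x y => map_add J x y) J2
    (by
      intro x y z w
      rw [hRJ, Jo, js2 y z, js2 x w, js2 x z, js2 y w, Jo, Jo, Jo, Jo, J2, inner_neg_left,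
        js2 z w]
      ring)
    (by
      intro v
      rw [hf, js2 v v, Jo, J2, inner_neg_left]
      have : inner ℝ (J v) v = (0 : ℝ) := by
        have := js v v
        linarith
      rw [this]
      simp only [inner_neg_left]
      ring)
    x y z w
  have e : inner ℝ (HolR J k x y z) w = k / 4 *
    (inner ℝ y z * inner ℝ x w - inner ℝ x z * inner ℝ y w + inner ℝ (J y) z * inner ℝ (J x) w -
    inner ℝ (J x) z * inner ℝ (J y) w - 2 * inner ℝ (J x) y * inner ℝ (J z) w) := by
    unfold HolR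
    simp only [real_inner_smul_left, inner_sub_left, inner_add_left]
  rw [e]
  linarith

end Pt

variable {E : Type*} [NormedAddCommGroup E] [NormedSpace ℝ E] [FiniteDimensional ℝ E]
  {H : Type*} [TopologicalSpace H] {I : ModelWithCorners ℝ E H}
  {M : Type*} [TopologicalSpace M] [ChartedSpace H M] [IsManifold I ∞ M]
  [RiemannianBundle (fun x : M => TangentSpace I x)]
  [IsContMDiffRiemannianBundle I ∞ E (fun x : M => TangentSpace I x)]
  [T2Space M] [SigmaCompactSpace M] [Nontrivial E]
  {cov : CovariantDerivative I E (TangentSpace I : M → Type _)}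

/-- The main theorem on harmonic two-forms. -/
theorem two_form [BoundarylessManifold I M] [CompactSpace M] [PreconnectedSpace M] {n : ℕ}
    (hn2 : 2 ≤ n) (hn : Module.finrank ℝ E = n) (h : IsLeviCivita cov) {R : CurvField I M}
    (hR : IsRiemannTensor cov R) {κ : ℝ} (hκ : 0 < κ)
    (hRic : ∀ (x : M) (b : OrthonormalBasis (Fin n) ℝ (TangentSpace I x)) (v : TangentSpace I x),
      ((n : ℝ) - 1) * κ * inner ℝ v v ≤ ∑ i, inner ℝ (R x v (b i) (b i)) v)
    (hsec : ∀ (x : M) (u v : TangentSpace I x), inner ℝ u u = (1 : ℝ) → inner ℝ v v = (1 : ℝ) →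
      inner ℝ u v = (0 : ℝ) →
      inner ℝ (R x u v v) u ≤ 4 * ((n : ℝ) - 1) / ((n : ℝ) + 2) * κ)
    {θ : BilField I M} (hθ : IsForm θ)
    (hc : ∀ ⦃V X Y : Π x : M, TangentSpace I x⦄, CMDiff ∞ (T% V) → CMDiff ∞ (T% X) →
      CMDiff ∞ (T% Y) → ∀ x, DO cov θ V X Y x + DO cov θ X Y V x + DO cov θ Y V X x = 0)
    (hd : ∀ (x : M) (e : Fin n → Π x : M, TangentSpace I x), (∀ i, CMDiff ∞ (T% (e i))) →
      (∀ i j, inner ℝ (e i x) (e j x) = if i = j then (1 : ℝ) else 0) →
      ∀ Y : Π x : M, TangentSpace I x, CMDiff ∞ (T% Y) → ∑ i, DO cov θ (e i) (e i) Y x = 0) :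
    (∀ (x : M) (u v : TangentSpace I x), θ x u v = 0) ∨
    ((∀ ⦃V X Y : Π x : M, TangentSpace I x⦄, CMDiff ∞ (T% V) → CMDiff ∞ (T% X) →
      CMDiff ∞ (T% Y) → ∀ x, DO cov θ V X Y x = 0) ∧
      ∃ (c : ℝ) (J : Π x : M, TangentSpace I x →ₗ[ℝ] TangentSpace I x), 0 < c ∧
        (∀ (x : M) (u : TangentSpace I x), J x (J x u) = - u) ∧
        (∀ (x : M) (u v : TangentSpace I x), inner ℝ (J x u) (J x v) = (inner ℝ u v : ℝ)) ∧
        (∀ (x : M) (u v : TangentSpace I x), θ x u v = c * inner ℝ (J x u) v) ∧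
        ∀ (x : M) (u v w : TangentSpace I x), R x u v w =
          HolR (J x) (4 * ((n : ℝ) - 1) / ((n : ℝ) + 2) * κ) u v w) := by
  set k : ℝ := 4 * ((n : ℝ) - 1) / ((n : ℝ) + 2) * κ with hk
  have hn0 : (2 : ℝ) ≤ n := by exact_mod_cast hn2
  have hkn : k * ((n : ℝ) + 2) = 4 * (((n : ℝ) - 1) * κ) := by
    rw [hk]
    field_simp
  have hk0 : 0 < k := by
    rw [hk]
    have h1 : 0 < (n : ℝ) - 1 := by linarith
    positivity
  have hframe : ∀ (z : M) (b : OrthonormalBasis (Fin n) ℝ (TangentSpace I z)),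
      ∃ e : Fin n → Π x : M, TangentSpace I x, Adapted cov z e ∧ ∀ i, e i z = b i := by
    intro z b
    obtain ⟨e, h1, h2, h3, h4⟩ := exists_on_frame h.metric z n b (by
      intro i j
      exact orthonormal_iff_ite.1 b.orthonormal i j)
    exact ⟨e, ⟨h1, h3, h4⟩, h2⟩
  have hFf : ∀ (z : M) (e : Fin n → Π x : M, TangentSpace I x), Adapted cov z e →
      ∀ v, 0 ≤ Ff (Af R z e) (wf θ z e) k v := fun z e ha v =>
    Ff_nonneg hθ ha hn (hsec z) v
  have hterm : ∀ (z : M) (e : Fin n → Π x : M, TangentSpace I x), Adapted cov z e →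
      2 / 3 * E3 (Ff (Af R z e) (wf θ z e) k) ≤ 2 * Pt (Af R z e) (wf θ z e) -
        Wt (Af R z e) (wf θ z e) := by
    intro z e ha
    have h1 := bochner_term (Af_curv h hR ha) (wf_skew (p := z) (e := e) hθ) k
    have h2 := Pt_ge (θ := θ) (R := R) ha hn (hRic z)
    rw [Fintype.card_fin] at h1
    have h3 : k * (((n : ℝ) + 2) * w2 (wf θ z e)) = 4 * (((n : ℝ) - 1) * κ * w2 (wf θ z e)) := by
      rw [← mul_assoc, hkn]
      ring
    rw [h1, h3]
    linarith
  have hboch : ∀ (z : M) (e : Fin n → Π x : M, TangentSpace I x) (ha : Adapted cov z e),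
      ∑ i, d% (fun y => d% (nO hn θ) y (e i y)) z (e i z) =
      2 * ∑ i, ∑ k, ∑ l, (DO cov θ (e i) (e k) (e l) z) ^ 2 +
      2 * (2 * Pt (Af R z e) (wf θ z e) - Wt (Af R z e) (wf θ z e)) := by
    intro z e ha
    rw [nO_lap h hθ hn ha, bochner_alg (Af_curv h hR ha) (wf_skew (p := z) (e := e) hθ)
      (Dw cov θ z e) (fun i j k l => Dw_skew hθ i j k l) (Dw_closed h hθ ha hc)
      (Dw_div h hθ ha ?_) (Dw_comm h hθ ha hn hR)]
    filter_upwards [ha.on] with x hx l
    exact hd x e ha.sm hx (e l) (ha.sm l)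
  have hlap : ∀ (z : M) (e : Fin n → Π x : M, TangentSpace I x), Adapted cov z e →
      0 ≤ ∑ i, d% (fun y => d% (nO hn θ) y (e i y)) z (e i z) := by
    intro z e ha
    rw [hboch z e ha]
    have h1 := hterm z e ha
    have h2 := E3_nonneg _ (hFf z e ha)
    have h3 : 0 ≤ ∑ i, ∑ k, ∑ l, (DO cov θ (e i) (e k) (e l) z) ^ 2 :=
      Finset.sum_nonneg fun i _ => Finset.sum_nonneg fun k _ => Finset.sum_nonneg fun l _ =>
        sq_nonneg _
    linarith
  have hconst := strong_max hn h (smooth_nO h hθ hn) hlap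
  have hzero : ∀ (z : M) (e : Fin n → Π x : M, TangentSpace I x), Adapted cov z e →
      (∀ i k l, DO cov θ (e i) (e k) (e l) z = 0) ∧ E3 (Ff (Af R z e) (wf θ z e) k) ≤ 0 := by
    intro z e ha
    have h0 := hboch z e ha
    have hcf : nO hn θ = fun _ => nO hn θ z := by
      ext y; exact hconst y z
    have h3 : ∀ i, d% (fun y => d% (nO hn θ) y (e i y)) z (e i z) = 0 := by
      intro i
      have : (fun y => d% (nO hn θ) y (e i y)) = fun _ => (0 : ℝ) := by
        ext y
        rw [hcf, mvfderiv_const]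
        rfl
      rw [this, mvfderiv_const]
      rfl
    rw [Finset.sum_eq_zero fun i _ => h3 i] at h0
    have h1 := hterm z e ha
    have h2 := E3_nonneg _ (hFf z e ha)
    have n3 : ∀ i k l, 0 ≤ (DO cov θ (e i) (e k) (e l) z) ^ 2 := fun _ _ _ => sq_nonneg _
    have n2 := fun i k => Finset.sum_nonneg (s := Finset.univ) fun l _ => n3 i k l
    have n1 := fun i => Finset.sum_nonneg (s := Finset.univ) fun k _ => n2 i k
    have n0 := Finset.sum_nonneg (s := Finset.univ) fun i _ => n1 i
    have z0 : ∑ i, ∑ k, ∑ l, (DO cov θ (e i) (e k) (e l) z) ^ 2 = 0 :=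
      le_antisymm (by linarith) n0
    refine ⟨?_, by linarith⟩
    intro i k l
    have z1 := (Finset.sum_eq_zero_iff_of_nonneg fun i _ => n1 i).1 z0 i (Finset.mem_univ _)
    have z2 := (Finset.sum_eq_zero_iff_of_nonneg fun k _ => n2 i k).1 z1 k (Finset.mem_univ _)
    have z3 := (Finset.sum_eq_zero_iff_of_nonneg fun l _ => n3 i k l).1 z2 l (Finset.mem_univ _)
    exact pow_eq_zero_iff (two_ne_zero) |>.1 z3
  have hpar : ∀ ⦃V X Y : Π x : M, TangentSpace I x⦄, CMDiff ∞ (T% V) → CMDiff ∞ (T% X) →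
      CMDiff ∞ (T% Y) → ∀ x, DO cov θ V X Y x = 0 := by
    intro V X Y hV hX hY z
    obtain ⟨e, ha, -⟩ := hframe z (onb hn z)
    exact DO_vanish h hθ hV hX hY ha hn (hzero z e ha).1
  -- the norm of the endomorphism
  have hsumB : ∀ (z : M) (b : OrthonormalBasis (Fin n) ℝ (TangentSpace I z)),
      ∑ i, inner ℝ (Bt hn θ z (b i)) (Bt hn θ z (b i)) = nO hn θ z := by
    intro z b
    rw [nO_eq hθ hn (fun i => b i) fun i j => orthonormal_iff_ite.1 b.orthonormal i j]
    unfold S2
    refine Finset.sum_congr rfl fun i _ => ?_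
    rw [real_inner_self_eq_norm_sq, ← b.sum_sq_inner_left]
    refine Finset.sum_congr rfl fun j _ => ?_
    rw [Bt_inner]
  by_cases hz : ∃ z, nO hn θ z = 0
  · left
    obtain ⟨z0, hz0⟩ := hz
    intro z u v
    have h1 : nO hn θ z = 0 := by rw [hconst z z0, hz0]
    have h2 := hsumB z (onb hn z)
    rw [h1] at h2
    have h3 : ∀ i, Bt hn θ z (onb hn z i) = 0 := by
      intro i
      have := (Finset.sum_eq_zero_iff_of_nonneg fun i _ => real_inner_self_nonneg).1 h2 i
        (Finset.mem_univ i)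
      exact inner_self_eq_zero.1 this
    have h4 := (onb hn z).sum_repr u
    rw [← Bt_inner hn θ z u v, ← h4]
    simp only [map_sum, map_smul, h3, smul_zero, Finset.sum_const_zero, inner_zero_left]
  rcases isEmpty_or_nonempty M with hM | hM
  · left
    intro x
    exact hM.elim x
  right
  push Not at hz
  refine ⟨hpar, ?_⟩
  obtain ⟨z0⟩ := hM
  set N := nO hn θ z0 with hN
  have hNz : ∀ z, nO hn θ z = N := fun z => hconst z z0
  have hN0 : 0 < N := by
    refine lt_of_le_of_ne ?_ (Ne.symm (hz z0))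
    unfold N nO S2
    exact Finset.sum_nonneg fun i _ => Finset.sum_nonneg fun j _ => sq_nonneg _
  have i0 : Fin n := ⟨0, by omega⟩
  have hBs : ∀ z (u v : TangentSpace I z), inner ℝ (Bt hn θ z u) v =
      - inner ℝ u (Bt hn θ z v) := by
    intro z u v
    rw [Bt_inner, real_inner_comm, Bt_inner]
    exact hθ.skew z u v
  have hRB : ∀ z (x y w : TangentSpace I z), R z x y (Bt hn θ z w) = Bt hn θ z (R z x y w) := by
    intro z x y w
    apply ext_inner_right ℝ
    intro v
    have hcur := isCurvatureTensor h hR z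
    rw [hcur.skew, Bt_inner, Bt_inner]
    have := curv_act h hR hθ hpar z x y w v
    linarith
  have hf : ∀ z (v : TangentSpace I z), inner ℝ (R z v (Bt hn θ z v) (Bt hn θ z v)) v =
      k * (inner ℝ v v * inner ℝ (Bt hn θ z v) (Bt hn θ z v)) := by
    have hunit : ∀ z (u : TangentSpace I z), (inner ℝ u u : ℝ) = 1 →
        (inner ℝ (R z u (Bt hn θ z u) (Bt hn θ z u)) u : ℝ) =
        k * (inner ℝ u u * inner ℝ (Bt hn θ z u) (Bt hn θ z u)) := by
      intro z u hu
      have hfd : FiniteDimensional ℝ (TangentSpace I z) :=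
        inferInstanceAs (FiniteDimensional ℝ E)
      obtain ⟨b, hb⟩ := exists_basis_through (V := TangentSpace I z) hn i0 hu
      obtain ⟨e, ha, he⟩ := hframe z b
      have h1 := E3_zero_axis (hFf z e ha) (hzero z e ha).2 i0
      rw [Ff_geo hθ ha hn] at h1
      have h2 : ∑ a, (Real.sqrt 3 * dl a i0) • e a z = Real.sqrt 3 • u := by
        have : ∀ a, (Real.sqrt 3 * dl a i0) • e a z = if a = i0 then Real.sqrt 3 • u else 0 := by
          intro a
          by_cases hai : a = i0
          · subst hai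
            rw [he, hb]
            simp [dl]
          · simp [dl, hai]
        simp only [this]
        simp
      rw [h2] at h1
      simp only [map_smul, LinearMap.smul_apply, real_inner_smul_left,
        real_inner_smul_right] at h1
      have h3 : Real.sqrt 3 * Real.sqrt 3 = 3 := Real.mul_self_sqrt (by norm_num)
      have h4 : k * (Real.sqrt 3 * (Real.sqrt 3 * inner ℝ u u) * (Real.sqrt 3 * (Real.sqrt 3 *
          inner ℝ (Bt hn θ z u) (Bt hn θ z u)))) - Real.sqrt 3 * (Real.sqrt 3 * (Real.sqrt 3 *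
          (Real.sqrt 3 * inner ℝ (R z u (Bt hn θ z u) (Bt hn θ z u)) u))) =
          (Real.sqrt 3 * Real.sqrt 3) ^ 2 * (k * (inner ℝ u u *
            inner ℝ (Bt hn θ z u) (Bt hn θ z u)) -
            inner ℝ (R z u (Bt hn θ z u) (Bt hn θ z u)) u) := by ring
      rw [h3] at h4
      linarith
    intro z v
    by_cases hv : v = 0
    · subst hv; simp
    have h1 : 0 < ‖v‖ := norm_pos_iff.2 hv
    have h2 := hunit z (‖v‖⁻¹ • v) (by
      rw [real_inner_smul_left, real_inner_smul_right, real_inner_self_eq_norm_sq]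
      field_simp)
    simp only [map_smul, LinearMap.smul_apply, real_inner_smul_left, real_inner_smul_right] at h2
    have h3 : ‖v‖⁻¹ ≠ 0 := inv_ne_zero h1.ne'
    have h4 : ‖v‖⁻¹ ^ 4 * inner ℝ (R z v (Bt hn θ z v) (Bt hn θ z v)) v =
        ‖v‖⁻¹ ^ 4 * (k * (inner ℝ v v * inner ℝ (Bt hn θ z v) (Bt hn θ z v))) := by
      linear_combination h2
    exact mul_left_cancel₀ (pow_ne_zero 4 h3) h4
  have hle : ∀ z (b : OrthonormalBasis (Fin n) ℝ (TangentSpace I z)) (v : TangentSpace I z),
      n * inner ℝ (Bt hn θ z v) (Bt hn θ z v) ≤ N * inner ℝ v v := by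
    intro z b v
    have hfd : FiniteDimensional ℝ (TangentSpace I z) := inferInstanceAs (FiniteDimensional ℝ E)
    have h1 := contract (V := TangentSpace I z) (isCurvatureTensor h hR z) (hBs z) (hRB z) b
      (hf z) v
    rw [hsumB z b, hNz z] at h1
    have h2 := hRic z b (Bt hn θ z v)
    have h3 : inner ℝ (RcV (R z) b (Bt hn θ z v)) (Bt hn θ z v) =
        ∑ i, inner ℝ (R z (Bt hn θ z v) (b i) (b i)) (Bt hn θ z v) := by
      unfold RcV
      rw [sum_inner]
    rw [h3] at h1
    have h4 : k * (2 * ((n : ℝ) + 2) * inner ℝ (Bt hn θ z v) (Bt hn θ z v)) ≤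
        k * (((n : ℝ) + 4) * inner ℝ (Bt hn θ z v) (Bt hn θ z v) + N * inner ℝ v v) := by
      rw [← h1]
      have h5 : k * (2 * ((n : ℝ) + 2) * inner ℝ (Bt hn θ z v) (Bt hn θ z v)) =
        8 * (((n : ℝ) - 1) * κ * inner ℝ (Bt hn θ z v) (Bt hn θ z v)) := by
        linear_combination (2 * inner ℝ (Bt hn θ z v) (Bt hn θ z v)) * hkn
      rw [h5]
      linarith
    have h6 := le_of_mul_le_mul_left h4 hk0
    linarith
  have hB2 : ∀ z (v : TangentSpace I z), inner ℝ (Bt hn θ z v) (Bt hn θ z v) =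
      N / n * inner ℝ v v := by
    have hunit : ∀ z (u : TangentSpace I z), (inner ℝ u u : ℝ) = 1 →
        (inner ℝ (Bt hn θ z u) (Bt hn θ z u) : ℝ) = N / n := by
      intro z u hu
      have hfd : FiniteDimensional ℝ (TangentSpace I z) :=
        inferInstanceAs (FiniteDimensional ℝ E)
      obtain ⟨b, hb⟩ := exists_basis_through (V := TangentSpace I z) hn i0 hu
      have h1 : ∀ i, 0 ≤ N - n * inner ℝ (Bt hn θ z (b i)) (Bt hn θ z (b i)) := by
        intro i
        have h2 := hle z b (b i)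
        have h3 : inner ℝ (b i) (b i) = (1 : ℝ) := by
          simp [real_inner_self_eq_norm_sq]
        rw [h3] at h2
        linarith
      have h2 : ∑ i, (N - n * inner ℝ (Bt hn θ z (b i)) (Bt hn θ z (b i))) = 0 := by
        rw [Finset.sum_sub_distrib, ← Finset.mul_sum, hsumB z b, hNz z]
        simp
      have h3 := (Finset.sum_eq_zero_iff_of_nonneg fun i _ => h1 i).1 h2 i0 (Finset.mem_univ _)
      rw [hb] at h3
      field_simp
      linarith
    intro z v
    by_cases hv : v = 0
    · subst hv; simp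
    have h1 : 0 < ‖v‖ := norm_pos_iff.2 hv
    have h2 := hunit z (‖v‖⁻¹ • v) (by
      rw [real_inner_smul_left, real_inner_smul_right, real_inner_self_eq_norm_sq]
      field_simp)
    rw [map_smul, real_inner_smul_left, real_inner_smul_right] at h2
    rw [real_inner_self_eq_norm_sq v, ← h2]
    field_simp
  -- the complex structure
  set c : ℝ := Real.sqrt (N / n) with hc'
  have hc0 : 0 < c := Real.sqrt_pos.2 (by positivity)
  have hcc : c * c = N / n := Real.mul_self_sqrt (by positivity)
  have hpol : ∀ z (u v : TangentSpace I z), inner ℝ (Bt hn θ z u) (Bt hn θ z v) =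
      c * c * inner ℝ u v := by
    intro z u v
    have h1 := hB2 z (u + v)
    have h2 := hB2 z u
    have h3 := hB2 z v
    have c1 := real_inner_comm u v
    have c2 := real_inner_comm (Bt hn θ z u) (Bt hn θ z v)
    simp only [map_add, inner_add_left, inner_add_right] at h1
    rw [hcc]
    rw [c1, c2] at h1
    linarith
  have hJo : ∀ z (u v : TangentSpace I z), inner ℝ (c⁻¹ • Bt hn θ z u) (c⁻¹ • Bt hn θ z v) =
      (inner ℝ u v : ℝ) := by
    intro z u v
    rw [real_inner_smul_left, real_inner_smul_right, hpol]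
    field_simp
  have hJ2 : ∀ z (u : TangentSpace I z), c⁻¹ • Bt hn θ z (c⁻¹ • Bt hn θ z u) = - u := by
    intro z u
    apply ext_inner_right ℝ
    intro v
    rw [real_inner_smul_left, hBs, real_inner_smul_left, hpol, inner_neg_left]
    field_simp
  refine ⟨c, fun z => c⁻¹ • Bt hn θ z, hc0, hJ2, hJo, ?_, ?_⟩
  · intro z u v
    rw [LinearMap.smul_apply, real_inner_smul_left, Bt_inner]
    field_simp
  · intro z u v w
    refine hol_form (V := TangentSpace I z) (isCurvatureTensor h hR z) (J := c⁻¹ • Bt hn θ z)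
      (hJ2 z) (hJo z) ?_ ?_ u v w
    · intro x y t
      rw [LinearMap.smul_apply, LinearMap.smul_apply, map_smul, hRB]
    · intro v
      rw [LinearMap.smul_apply]
      simp only [map_smul, LinearMap.smul_apply, real_inner_smul_left, real_inner_smul_right]
      rw [hf, hpol]
      field_simp

end Pool.Agent.L5helper93.Geo
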